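import Pool.Agent.H81SSE.Core

/-!
# A checker for explicit chains of elementary equivalences
-/

set_option autoImplicit false

namespace Pool.Agent.H81SSE.Chk

open Matrix

/-- Entry of a matrix given by its rows. -/
def get (A : List (List ℕ)) (i j : ℕ) : ℕ := (A.getD i []).getD j 0

/-- Product of an `n × k` and a `k × m` matrix given by rows. -/
def mul (n k m : ℕ) (A B : List (List ℕ)) : List (List ℕ) :=
  (List.range n).map fun i => (List.range m).map fun j =>
    ((List.range k).map fun l => get A i l * get B l j).sum

/-- The checker: `steps` is the list of the pairs `(R, S)` with the sizes of `S R`. -/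
def chk : ℕ → List (List ℕ) → List (ℕ × List (List ℕ) × List (List ℕ)) → ℕ → List (List ℕ) → Bool
  | n, A, [], m, B => (n == m) && (A == B)
  | n, A, (k, R, S) :: t, m, B => (mul n k n R S == A) && chk k (mul k n k S R) t m B

/-- The matrix. -/
def toM (n m : ℕ) (A : List (List ℕ)) : Matrix (Fin n) (Fin m) ℕ := Matrix.of fun i j => get A i j

lemma sum_range_fin (k : ℕ) (f : ℕ → ℕ) : ((List.range k).map f).sum = ∑ l : Fin k, f l := by
  induction k with
  | zero => simp
  | succ k ih => rw [List.range_succ, List.map_append, List.sum_append, ih, Fin.sum_univ_castSucc]; simp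

lemma get_mul (n k m : ℕ) (A B : List (List ℕ)) (i j : ℕ) (hi : i < n) (hj : j < m) :
    get (mul n k m A B) i j = ∑ l : Fin k, get A i l * get B l j := by
  have h1 : get (mul n k m A B) i j = ((List.range k).map fun l => get A i l * get B l j).sum := by
    simp [get, mul, List.getD, hi, hj]
  rw [h1, sum_range_fin]

lemma toM_mul (n k m : ℕ) (A B : List (List ℕ)) :
    toM n m (mul n k m A B) = toM n k A * toM k m B := by
  ext i j
  rw [Matrix.mul_apply]
  exact get_mul n k m A B i j i.2 j.2

theorem sse_of_chk (steps : List (ℕ × List (List ℕ) × List (List ℕ))) :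
    ∀ (n : ℕ) (A : List (List ℕ)) (m : ℕ) (B : List (List ℕ)), chk n A steps m B = true →
      Relation.ReflTransGen Elem ⟨n, toM n n A⟩ ⟨m, toM m m B⟩ := by
  induction steps with
  | nil =>
    intro n A m B h
    simp only [chk, Bool.and_eq_true, beq_iff_eq] at h
    obtain ⟨rfl, rfl⟩ := h
    exact Relation.ReflTransGen.refl
  | cons s t ih =>
    intro n A m B h
    obtain ⟨k, R, S⟩ := s
    simp only [chk, Bool.and_eq_true, beq_iff_eq] at h
    obtain ⟨h1, h2⟩ := h
    refine Relation.ReflTransGen.head ?_ (ih k _ m B h2)
    refine elem_mk (toM n k R) (toM k n S) ?_ ?_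
    · rw [← toM_mul, h1]
    · rw [← toM_mul]

end Pool.Agent.H81SSE.Chk
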