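import Mathlib

/-!
# The characteristic polynomial of a companion matrix
-/

set_option autoImplicit false

namespace Pool.Agent.H81SSE

open Matrix Polynomial

/-- The first unit column. -/
def X0 (n : ℕ) : Matrix (Fin n) Unit ℤ := Matrix.of fun k _ => if (k : ℕ) = 0 then 1 else 0

/-- The shift. -/
def Sh (n m : ℕ) : Matrix (Fin n) (Fin m) ℤ :=
  Matrix.of fun k l => if (k : ℕ) = (l : ℕ) + 1 then 1 else 0

/-- The projection. -/
def Pr (n m : ℕ) : Matrix (Fin n) (Fin m) ℤ :=
  Matrix.of fun k l => if (k : ℕ) = (l : ℕ) then 1 else 0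

/-- The companion matrix with the first row `β`. -/
def Cm {n : ℕ} (β : Matrix Unit (Fin n) ℤ) : Matrix (Fin n) (Fin n) ℤ := X0 n * β + Sh n n

lemma Cm_mulVec_zero {n : ℕ} (β : Matrix Unit (Fin n) ℤ) (v : Fin n → ℤ) (k : Fin n)
    (hk : (k : ℕ) = 0) : (Cm β *ᵥ v) k = ∑ l, β () l * v l := by
  rw [Cm, Matrix.add_mulVec, Pi.add_apply]
  have h1 : (Sh n n *ᵥ v) k = 0 := by
    rw [Matrix.mulVec, dotProduct]
    refine Finset.sum_eq_zero fun l _ => ?_
    simp [Sh, hk]
  rw [h1, add_zero, Matrix.mulVec, dotProduct]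
  refine Finset.sum_congr rfl fun l _ => ?_
  rw [Matrix.mul_apply]
  simp [X0, hk]

lemma Cm_mulVec_succ {n : ℕ} (β : Matrix Unit (Fin n) ℤ) (v : Fin n → ℤ) (k l : Fin n)
    (hk : (k : ℕ) = (l : ℕ) + 1) : (Cm β *ᵥ v) k = v l := by
  rw [Cm, Matrix.add_mulVec, Pi.add_apply]
  have h1 : ((X0 n * β) *ᵥ v) k = 0 := by
    rw [Matrix.mulVec, dotProduct]
    refine Finset.sum_eq_zero fun l _ => ?_
    rw [Matrix.mul_apply]
    simp [X0, hk]
  rw [h1, zero_add, Matrix.mulVec, dotProduct, Finset.sum_eq_single l]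
  · simp [Sh, hk]
  · intro b _ hb
    have : (k : ℕ) ≠ (b : ℕ) + 1 := by
      intro h
      apply hb
      ext
      omega
    simp [Sh, this]
  · intro h
    exact absurd (Finset.mem_univ _) h

/-- The unit vectors, and zero. -/
def EE (n i : ℕ) : Fin n → ℤ := fun k => if (k : ℕ) = i then 1 else 0

lemma pow_upper {n : ℕ} (β : Matrix Unit (Fin n) ℤ) (i : ℕ) (k : Fin n) :
    (i < k → (Cm β ^ i *ᵥ EE n 0) k = 0) ∧ ((k : ℕ) = i → (Cm β ^ i *ᵥ EE n 0) k = 1) := by
  induction i generalizing k with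
  | zero =>
    rw [pow_zero, Matrix.one_mulVec]
    refine ⟨fun h => ?_, fun h => ?_⟩
    · simp [EE, Nat.pos_iff_ne_zero.1 h]
    · simp [EE, h]
  | succ i ih =>
    rw [pow_succ', ← Matrix.mulVec_mulVec]
    refine ⟨fun h => ?_, fun h => ?_⟩
    · have hk := k.2
      rw [Cm_mulVec_succ β _ k ⟨(k : ℕ) - 1, by omega⟩ (by simp only; omega)]
      exact (ih _).1 (by simp only; omega)
    · have hk := k.2
      rw [Cm_mulVec_succ β _ k ⟨(k : ℕ) - 1, by omega⟩ (by simp only; omega)]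
      exact (ih _).2 (by simp only; omega)

lemma Cm_EE {n : ℕ} (β : Matrix Unit (Fin n) ℤ) (i : Fin n) :
    Cm β *ᵥ EE n i = EE n (i + 1) + β () i • EE n 0 := by
  ext k
  rcases Nat.eq_zero_or_pos (k : ℕ) with h | h
  · rw [Cm_mulVec_zero β _ k h, Finset.sum_eq_single i]
    · simp [EE, h]
    · intro b _ hb
      have : (b : ℕ) ≠ (i : ℕ) := fun h' => hb (Fin.ext h')
      simp [EE, this]
    · intro h
      exact absurd (Finset.mem_univ _) h
  · have hk := k.2
    rw [Cm_mulVec_succ β _ k ⟨(k : ℕ) - 1, by omega⟩ (by simp only; omega)]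
    simp only [EE, Pi.add_apply, Pi.smul_apply, smul_eq_mul]
    have h1 : (k : ℕ) ≠ 0 := by omega
    simp only [h1, if_false, mul_zero, add_zero]
    by_cases h2 : (k : ℕ) = (i : ℕ) + 1
    · simp [h2]
    · have h3 : (k : ℕ) - 1 ≠ (i : ℕ) := by omega
      simp [h2, h3]

lemma pow_EE {n : ℕ} (β : Matrix Unit (Fin n) ℤ) (i : ℕ) (hi : i ≤ n) :
    Cm β ^ i *ᵥ EE n 0 = EE n i +
      ∑ j : Fin n, if (j : ℕ) < i then β () j • (Cm β ^ (i - 1 - j) *ᵥ EE n 0) else 0 := by
  induction i with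
  | zero => simp
  | succ i ih =>
    rw [pow_succ', ← Matrix.mulVec_mulVec, ih (by omega), Matrix.mulVec_add,
      Cm_EE β ⟨i, hi⟩, Matrix.mulVec_sum, add_assoc]
    congr 1
    have h1 : β () ⟨i, hi⟩ • EE n 0 =
        ∑ j : Fin n, if (j : ℕ) = i then β () j • (Cm β ^ (i - j) *ᵥ EE n 0) else 0 := by
      rw [Finset.sum_eq_single ⟨i, hi⟩]
      · simp
      · intro b _ hb
        have : (b : ℕ) ≠ i := fun h' => hb (Fin.ext h')
        simp [this]
      · intro h
        exact absurd (Finset.mem_univ _) h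
    rw [h1, ← Finset.sum_add_distrib]
    refine Finset.sum_congr rfl fun j _ => ?_
    have hj := j.2
    by_cases h2 : (j : ℕ) = i
    · simp [h2]
    · by_cases h3 : (j : ℕ) < i
      · have h4 : (j : ℕ) < i + 1 := by omega
        have h5 : i + 1 - 1 - (j : ℕ) = (i - 1 - j) + 1 := by omega
        simp only [h2, h3, h4, if_true, if_false, zero_add]
        rw [h5, pow_succ', ← Matrix.mulVec_mulVec, Matrix.mulVec_smul]
      · have h4 : ¬ (j : ℕ) < i + 1 := by omega
        simp only [h2, h3, h4, if_false, zero_add, Matrix.mulVec_zero]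

/-- The polynomial. -/
noncomputable def qq {n : ℕ} (β : Matrix Unit (Fin n) ℤ) : ℤ[X] :=
  X ^ n - ∑ j : Fin n, C (β () (Fin.rev j)) * X ^ (j : ℕ)

lemma aeval_qq {n : ℕ} (β : Matrix Unit (Fin n) ℤ) :
    aeval (Cm β) (qq β) *ᵥ EE n 0 = 0 := by
  have h := pow_EE β n le_rfl
  have h0 : EE n n = 0 := by
    ext k
    have := k.2
    simp [EE, this.ne]
  rw [h0, zero_add] at h
  rw [qq, map_sub, map_pow, aeval_X, Matrix.sub_mulVec, h, map_sum, Matrix.sum_mulVec,
    sub_eq_zero, ← Equiv.sum_comp Fin.revPerm]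
  refine Finset.sum_congr rfl fun j _ => ?_
  have hj := j.2
  have h1 : ((Fin.rev j : Fin n) : ℕ) < n := (Fin.rev j).2
  have h2 : n - 1 - ((Fin.rev j : Fin n) : ℕ) = j := by
    rw [Fin.val_rev]
    omega
  rw [map_mul, map_pow, aeval_X, aeval_C]
  simp only [Fin.revPerm_apply, h1, if_true, h2]
  rw [← Algebra.smul_def, Matrix.smul_mulVec]

lemma qq_natDegree {n : ℕ} (β : Matrix Unit (Fin n) ℤ) :
    (qq β).Monic ∧ (qq β).natDegree = n := by
  have h := Polynomial.degree_sum_fin_lt (fun j : Fin n => β () (Fin.rev j))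
  have h1 : (qq β).Monic := Polynomial.monic_X_pow_sub h
  refine ⟨h1, ?_⟩
  have h2 : (qq β).degree = n := by
    rw [qq, Polynomial.degree_sub_eq_left_of_degree_lt, Polynomial.degree_X_pow]
    rw [Polynomial.degree_X_pow]
    exact h
  exact Polynomial.natDegree_eq_of_degree_eq_some h2

lemma charpoly_Cm {n : ℕ} (β : Matrix Unit (Fin n) ℤ) :
    (Cm β).charpoly = qq β := by
  by_contra hne
  set d := (Cm β).charpoly - qq β with hd
  have hd0 : d ≠ 0 := sub_ne_zero.2 hne
  have hn1 : (Cm β).charpoly.natDegree = n := by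
    rw [Matrix.charpoly_natDegree_eq_dim, Fintype.card_fin]
  obtain ⟨hm, hn2⟩ := qq_natDegree β
  have hlt : d.natDegree < n := by
    have h1 : d.degree < (Cm β).charpoly.degree := by
      apply Polynomial.degree_sub_lt_left
      · rw [Polynomial.degree_eq_natDegree (Matrix.charpoly_monic _).ne_zero,
          Polynomial.degree_eq_natDegree hm.ne_zero, hn1, hn2]
      · exact (Matrix.charpoly_monic _).ne_zero
      · rw [(Matrix.charpoly_monic _).leadingCoeff, hm.leadingCoeff]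
    have h2 := Polynomial.natDegree_lt_natDegree hd0 h1
    rwa [hn1] at h2
  have h0 : aeval (Cm β) d *ᵥ EE n 0 = 0 := by
    rw [hd, map_sub, Matrix.aeval_self_charpoly, Matrix.sub_mulVec, aeval_qq, Matrix.zero_mulVec,
      sub_zero]
  have h1 := congrFun h0 ⟨d.natDegree, hlt⟩
  rw [Polynomial.aeval_eq_sum_range, Matrix.sum_mulVec, Finset.sum_apply,
    Finset.sum_range_succ] at h1
  rw [Finset.sum_eq_zero (fun i hi => ?_)] at h1
  · rw [zero_add, Matrix.smul_mulVec, Pi.smul_apply,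
      (pow_upper β d.natDegree ⟨d.natDegree, hlt⟩).2 rfl, smul_eq_mul, mul_one] at h1
    exact hd0 (Polynomial.leadingCoeff_eq_zero.1 h1)
  · rw [Matrix.smul_mulVec, Pi.smul_apply,
      (pow_upper β i ⟨d.natDegree, hlt⟩).1 (Finset.mem_range.1 hi), smul_zero]

lemma coeff_qq {n : ℕ} (β : Matrix Unit (Fin n) ℤ) (i : Fin n) :
    (qq β).coeff (n - 1 - i) = - β () i := by
  have hi := i.2
  rw [qq, Polynomial.coeff_sub, Polynomial.coeff_X_pow, Polynomial.finsetSum_coeff,
    Finset.sum_eq_single (Fin.rev i)]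
  · have h1 : n - 1 - (i : ℕ) ≠ n := by omega
    have h2 : ((Fin.rev i : Fin n) : ℕ) = n - 1 - i := by
      rw [Fin.val_rev]
      omega
    rw [if_neg h1, Fin.rev_rev, Polynomial.coeff_C_mul, Polynomial.coeff_X_pow, h2]
    simp
  · intro b _ hb
    have h1 : n - 1 - (i : ℕ) ≠ (b : ℕ) := by
      intro h
      apply hb
      ext
      rw [Fin.val_rev]
      omega
    rw [Polynomial.coeff_C_mul, Polynomial.coeff_X_pow, if_neg h1, mul_zero]
  · intro h
    exact absurd (Finset.mem_univ _) h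

/-- The relation of the characteristic polynomials gives the relation of the rows. -/
lemma rows_of_charpoly {n m : ℕ} (hmn : m ≤ n)
    (β : Matrix Unit (Fin n) ℤ) (β' : Matrix Unit (Fin m) ℤ)
    (h : X ^ m * (Cm β).charpoly = X ^ n * (Cm β').charpoly) :
    (∀ i : Fin m, β () (Fin.castLE hmn i) = β' () i) ∧ ∀ i : Fin n, m ≤ i → β () i = 0 := by
  rw [charpoly_Cm, charpoly_Cm] at h
  refine ⟨fun i => ?_, fun i hi => ?_⟩
  · have hi := i.2
    have h1 := congrArg (fun p => p.coeff (m + (n - 1 - i))) h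
    beta_reduce at h1
    rw [Polynomial.coeff_X_pow_mul', if_pos (by omega), Polynomial.coeff_X_pow_mul',
      if_pos (by omega)] at h1
    have e1 : m + (n - 1 - (i : ℕ)) - m = n - 1 - ((Fin.castLE hmn i : Fin n) : ℕ) := by
      simp
    have e2 : m + (n - 1 - (i : ℕ)) - n = m - 1 - (i : ℕ) := by omega
    rw [e1, e2, coeff_qq, coeff_qq] at h1
    linarith
  · have hi' := i.2
    have h1 := congrArg (fun p => p.coeff (m + (n - 1 - i))) h
    beta_reduce at h1
    rw [Polynomial.coeff_X_pow_mul', if_pos (by omega), Polynomial.coeff_X_pow_mul',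
      if_neg (by omega)] at h1
    have e1 : m + (n - 1 - (i : ℕ)) - m = n - 1 - (i : ℕ) := by omega
    rw [e1, coeff_qq] at h1
    linarith

end Pool.Agent.H81SSE
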