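import Pool.Agent.H81SSE.Stable

/-!
# Bulk families with orthogonal small part: from the families to the small parts
-/

set_option autoImplicit false
set_option linter.unusedSectionVars false

namespace Pool.Agent.H81SSE

open Matrix

/-- The number `t` is not an eigenvalue of `N`. -/
def NoEig {ι : Type} [Fintype ι] (N : Matrix ι ι ℤ) (t : ℤ) : Prop :=
  ∀ w : Matrix Unit ι ℤ, w * N = t • w → w = 0

lemma noEig_large {ι : Type} [Fintype ι] (N : Matrix ι ι ℤ) (t : ℤ)
    (ht : ∑ i, ∑ j, |N i j| < t) : NoEig N t := by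
  intro w hw
  have h0 : 0 ≤ ∑ i, ∑ j, |N i j| :=
    Finset.sum_nonneg fun i _ => Finset.sum_nonneg fun j _ => abs_nonneg _
  have h1 : ∀ j, t * |w () j| ≤ ∑ i, |w () i| * |N i j| := by
    intro j
    have h2 : (w * N) () j = t * w () j := by rw [hw]; rfl
    have h3 : |t * w () j| = t * |w () j| := by
      rw [abs_mul, abs_of_nonneg (by linarith : (0 : ℤ) ≤ t)]
    rw [← h3, ← h2, Matrix.mul_apply]
    refine (Finset.abs_sum_le_sum_abs _ _).trans (le_of_eq ?_)
    exact Finset.sum_congr rfl fun i _ => abs_mul _ _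
  have h4 : t * ∑ j, |w () j| ≤ (∑ i, ∑ j, |N i j|) * ∑ i, |w () i| := by
    rw [Finset.mul_sum]
    refine (Finset.sum_le_sum fun j _ => h1 j).trans ?_
    rw [Finset.sum_comm, Finset.mul_sum]
    refine Finset.sum_le_sum fun i _ => ?_
    rw [← Finset.mul_sum, mul_comm]
    refine mul_le_mul_of_nonneg_right ?_ (abs_nonneg _)
    exact Finset.single_le_sum (f := fun i => ∑ j, |N i j|)
      (fun i _ => Finset.sum_nonneg fun j _ => abs_nonneg _) (Finset.mem_univ i)
  have h5 : 0 ≤ ∑ j, |w () j| := Finset.sum_nonneg fun j _ => abs_nonneg _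
  have h6 : ∑ j, |w () j| = 0 := by
    by_contra h
    have h7 : 0 < ∑ j, |w () j| := lt_of_le_of_ne h5 (Ne.symm h)
    nlinarith
  ext i j
  have h8 := (Finset.sum_eq_zero_iff_of_nonneg (fun j _ => abs_nonneg (w () j))).1 h6 j
    (Finset.mem_univ j)
  cases i
  simpa using h8

section

variable {ι κ : Type} [Fintype ι] [DecidableEq ι] [Fintype κ] [DecidableEq κ]
  (N : Matrix ι ι ℤ) (x : Matrix ι Unit ℤ) (y : Matrix Unit ι ℤ) (N' : Matrix κ κ ℤ)
  (x' : Matrix κ Unit ℤ) (y' : Matrix Unit κ ℤ)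

lemma fam_mul (c : ℤ) (hyN : y * N = 0) : (N + c • (x * y)) * N = N * N := by
  rw [Matrix.add_mul, Matrix.smul_mul, Matrix.mul_assoc x y N, hyN, Matrix.mul_zero, smul_zero,
    add_zero]

lemma fam_pow_mul (c : ℤ) (hyN : y * N = 0) (l : ℕ) :
    (N + c • (x * y)) ^ l * N = N ^ (l + 1) := by
  induction l with
  | zero => simp
  | succ l ih =>
    rw [pow_succ, Matrix.mul_assoc, fam_mul N x y c hyN, ← Matrix.mul_assoc, ih, ← pow_succ]

lemma row_fam (c m : ℤ) (hyN : y * N = 0) (hm : y * x = Matrix.of fun _ _ => m) :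
    y * (N + c • (x * y)) = (c * m) • y := by
  rw [Matrix.mul_add, hyN, zero_add, Matrix.mul_smul, ← Matrix.mul_assoc, hm, mul_smul]
  congr 1
  ext i j
  rw [Matrix.mul_apply]
  simp

/-- The key cancellation. -/
lemma key_zero (c c' m : ℤ) (hyN : y * N = 0) (hyN' : y' * N' = 0)
    (hm : y * x = Matrix.of fun _ _ => m) (R : Matrix ι κ ℤ)
    (hR : (N + c • (x * y)) * R = R * (N' + c' • (x' * y'))) (hno : NoEig N' (c * m)) :
    y * R * N' = 0 := by
  apply hno
  have h1 : y * R * (N' + c' • (x' * y')) = (c * m) • (y * R) := by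
    rw [Matrix.mul_assoc, ← hR, ← Matrix.mul_assoc, row_fam N x y c m hyN hm, Matrix.smul_mul]
  rw [← Matrix.smul_mul, ← h1, Matrix.mul_assoc _ (N' + c' • (x' * y')), fam_mul N' x' y' c' hyN',
    Matrix.mul_assoc, Matrix.mul_assoc]

lemma descend (c c' m m' : ℤ) (hyN : y * N = 0) (hyN' : y' * N' = 0)
    (hm : y * x = Matrix.of fun _ _ => m) (hm' : y' * x' = Matrix.of fun _ _ => m')
    (hno : NoEig N (c' * m')) (hno' : NoEig N' (c * m))
    (l : ℕ) (R : Matrix ι κ ℤ) (S : Matrix κ ι ℤ)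
    (h1 : (N + c • (x * y)) ^ l = R * S) (h2 : (N' + c' • (x' * y')) ^ l = S * R)
    (h3 : (N + c • (x * y)) * R = R * (N' + c' • (x' * y')))
    (h4 : S * (N + c • (x * y)) = (N' + c' • (x' * y')) * S) :
    ∃ (R' : Matrix ι κ ℤ) (S' : Matrix κ ι ℤ),
      N ^ (l + 2) = R' * S' ∧ N' ^ (l + 2) = S' * R' ∧ N * R' = R' * N' ∧ S' * N = N' * S' := by
  have z1 : y * R * N' = 0 := key_zero N x y N' x' y' c c' m hyN hyN' hm R h3 hno'
  have z2 : y' * S * N = 0 := key_zero N' x' y' N x y c' c m' hyN' hyN hm' S h4.symm hno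
  have c1 : N * (R * N') = R * N' * N' := by
    have h5 : (N + c • (x * y)) * (R * N') = R * (N' + c' • (x' * y')) * N' := by
      rw [← Matrix.mul_assoc, h3]
    rw [Matrix.add_mul, Matrix.smul_mul, Matrix.mul_assoc x, ← Matrix.mul_assoc y, z1,
      Matrix.mul_zero, smul_zero, add_zero, Matrix.mul_assoc, fam_mul N' x' y' c' hyN'] at h5
    rw [h5, ← Matrix.mul_assoc]
  have c2 : N' * (S * N) = S * N * N := by
    have h5 : (N' + c' • (x' * y')) * (S * N) = S * (N + c • (x * y)) * N := by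
      rw [← Matrix.mul_assoc, h4]
    rw [Matrix.add_mul, Matrix.smul_mul, Matrix.mul_assoc x', ← Matrix.mul_assoc y', z2,
      Matrix.mul_zero, smul_zero, add_zero, Matrix.mul_assoc, fam_mul N x y c hyN] at h5
    rw [h5, ← Matrix.mul_assoc]
  refine ⟨R * N', S * N, ?_, ?_, c1, c2.symm⟩
  · rw [Matrix.mul_assoc, c2, Matrix.mul_assoc, ← Matrix.mul_assoc, ← h1, ← Matrix.mul_assoc,
      fam_pow_mul N x y c hyN, ← pow_succ]
  · rw [Matrix.mul_assoc, c1, Matrix.mul_assoc, ← Matrix.mul_assoc, ← h2, ← Matrix.mul_assoc,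
      fam_pow_mul N' x' y' c' hyN', ← pow_succ]

lemma same_trace [Nonempty ι] (c c' m m' : ℤ) (hc : 0 < c) (hmp : 0 < m)
    (hyN : y * N = 0) (hyN' : y' * N' = 0) (hy : ∀ i j, 0 < y i j)
    (hm : y * x = Matrix.of fun _ _ => m) (hm' : y' * x' = Matrix.of fun _ _ => m')
    (hno' : NoEig N' (c * m))
    (l : ℕ) (R : Matrix ι κ ℤ) (S : Matrix κ ι ℤ)
    (h1 : (N + c • (x * y)) ^ l = R * S)
    (h3 : (N + c • (x * y)) * R = R * (N' + c' • (x' * y'))) : c * m = c' * m' := by
  have z1 : y * R * N' = 0 := key_zero N x y N' x' y' c c' m hyN hyN' hm R h3 hno'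
  have h5 : y * R * (N' + c' • (x' * y')) = (c * m) • (y * R) := by
    rw [Matrix.mul_assoc, ← h3, ← Matrix.mul_assoc, row_fam N x y c m hyN hm, Matrix.smul_mul]
  rw [Matrix.mul_add, z1, zero_add, Matrix.mul_smul, ← Matrix.mul_assoc] at h5
  set v := y * R with hv
  have hpow : y * (N + c • (x * y)) ^ l = (c * m) ^ l • y := by
    clear h1
    induction l with
    | zero => simp
    | succ l ih =>
      rw [pow_succ, ← Matrix.mul_assoc, ih, Matrix.smul_mul, row_fam N x y c m hyN hm, smul_smul,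
        ← pow_succ]
  have hcm : c * m ≠ 0 := by positivity
  have hv0 : v ≠ 0 := by
    intro h
    have h6 : v * S = (c * m) ^ l • y := by
      rw [hv, Matrix.mul_assoc, ← h1, hpow]
    rw [h, Matrix.zero_mul] at h6
    obtain ⟨i⟩ := (inferInstance : Nonempty ι)
    have h7 := congrFun (congrFun h6 ()) i
    simp only [Matrix.zero_apply, Matrix.smul_apply, smul_eq_mul] at h7
    have h8 := hy () i
    have h9 : (c * m) ^ l * y () i ≠ 0 := mul_ne_zero (pow_ne_zero _ hcm) (by linarith)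
    exact h9 h7.symm
  have h10 : (c' * m') * (v * x') () () = (c * m) * (v * x') () () := by
    have h11 := congrArg (fun M => (M * x') () ()) h5
    simp only [Matrix.smul_mul, Matrix.mul_assoc, hm', Matrix.smul_apply, smul_eq_mul] at h11
    rw [← Matrix.mul_assoc v x', Matrix.mul_apply] at h11
    simp only [Finset.univ_unique, Finset.sum_singleton, Matrix.of_apply,
      PUnit.default_eq_unit] at h11
    linarith
  have h12 : (v * x') () () ≠ 0 := by
    intro h
    apply hv0
    have h13 : v * x' = 0 := by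
      ext i j
      exact h
    rw [h13, Matrix.zero_mul, smul_zero] at h5
    ext i j
    have h14 := congrFun (congrFun h5 i) j
    simp only [Matrix.zero_apply, Matrix.smul_apply, smul_eq_mul] at h14
    rcases mul_eq_zero.1 h14.symm with h15 | h15
    · exact absurd h15 hcm
    · exact h15
  exact (mul_right_cancel₀ h12 h10).symm

end

end Pool.Agent.H81SSE
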