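import Mathlib

/-!
# Strong shift equivalence over the nonnegative integers, with arbitrary finite index types
-/

set_option autoImplicit false

namespace Pool.Agent.H81SSE

open Matrix

/-- Entrywise nonnegative. -/
def NN {α β : Type} (A : Matrix α β ℤ) : Prop := ∀ i j, 0 ≤ A i j

/-- Elementary equivalence of square matrices over `ℕ`. -/
def Elem (X Y : Σ n : ℕ, Matrix (Fin n) (Fin n) ℕ) : Prop :=
  ∃ (R : Matrix (Fin X.1) (Fin Y.1) ℕ) (S : Matrix (Fin Y.1) (Fin X.1) ℕ),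
    X.2 = R * S ∧ Y.2 = S * R

lemma Elem.symm {X Y : Σ n : ℕ, Matrix (Fin n) (Fin n) ℕ} (h : Elem X Y) : Elem Y X := by
  obtain ⟨R, S, h1, h2⟩ := h
  exact ⟨S, R, h2, h1⟩

lemma transGen_symm {X Y : Σ n : ℕ, Matrix (Fin n) (Fin n) ℕ}
    (h : Relation.TransGen Elem X Y) : Relation.TransGen Elem Y X := by
  induction h with
  | single h => exact Relation.TransGen.single h.symm
  | tail _ h2 ih => exact Relation.TransGen.head h2.symm ih

lemma elem_mk {n m : ℕ} {A : Matrix (Fin n) (Fin n) ℕ} {B : Matrix (Fin m) (Fin m) ℕ}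
    (R : Matrix (Fin n) (Fin m) ℕ) (S : Matrix (Fin m) (Fin n) ℕ) (h1 : A = R * S)
    (h2 : B = S * R) : Elem ⟨n, A⟩ ⟨m, B⟩ := ⟨R, S, h1, h2⟩

/-- The rectangular matrix over `ℕ` that belongs to a matrix over `ℤ`. -/
noncomputable def fr {α β : Type} [Fintype α] [Fintype β] (A : Matrix α β ℤ) :
    Matrix (Fin (Fintype.card α)) (Fin (Fintype.card β)) ℕ :=
  Matrix.of fun i j => (A ((Fintype.equivFin α).symm i) ((Fintype.equivFin β).symm j)).toNat

/-- The matrix over `ℕ`, indexed by an initial segment, that belongs to a matrix over `ℤ`. -/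
noncomputable def fm {α : Type} [Fintype α] (A : Matrix α α ℤ) :
    Σ n : ℕ, Matrix (Fin n) (Fin n) ℕ :=
  ⟨Fintype.card α, fr A⟩

/-- Strong shift equivalence for integer matrices (used for nonnegative ones). -/
def QQ {α β : Type} [Fintype α] [Fintype β] (A : Matrix α α ℤ) (B : Matrix β β ℤ) : Prop :=
  Relation.TransGen Elem (fm A) (fm B)

lemma QQ.symm {α β : Type} [Fintype α] [Fintype β] {A : Matrix α α ℤ} {B : Matrix β β ℤ}
    (h : QQ A B) : QQ B A := transGen_symm h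

lemma QQ.trans {α β γ : Type} [Fintype α] [Fintype β] [Fintype γ] {A : Matrix α α ℤ}
    {B : Matrix β β ℤ} {C : Matrix γ γ ℤ} (h : QQ A B) (h' : QQ B C) : QQ A C :=
  Relation.TransGen.trans h h'

/-- A product of nonnegative matrices and `toNat`. -/
lemma toNat_mul {α β γ : Type} [Fintype β] (R : Matrix α β ℤ) (S : Matrix β γ ℤ) (hR : NN R)
    (hS : NN S) (i : α) (j : γ) :
    ((R * S) i j).toNat = ∑ k, (R i k).toNat * (S k j).toNat := by
  have h : ((R * S) i j) = ((∑ k, (R i k).toNat * (S k j).toNat : ℕ) : ℤ) := by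
    rw [Matrix.mul_apply]
    push_cast
    refine Finset.sum_congr rfl fun k _ => ?_
    rw [Int.toNat_of_nonneg (hR i k), Int.toNat_of_nonneg (hS k j)]
  rw [h]
  exact Int.toNat_natCast _

lemma fr_mul {α β γ : Type} [Fintype α] [Fintype β] [Fintype γ] (R : Matrix α β ℤ)
    (S : Matrix β γ ℤ) (hR : NN R) (hS : NN S) : fr (R * S) = fr R * fr S := by
  ext i j
  rw [Matrix.mul_apply]
  simp only [fr, Matrix.of_apply]
  rw [toNat_mul R S hR hS]
  exact (Equiv.sum_comp (Fintype.equivFin β).symm (fun k =>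
      (R ((Fintype.equivFin α).symm i) k).toNat * (S k ((Fintype.equivFin γ).symm j)).toNat)).symm

lemma elem_fm {α β : Type} [Fintype α] [Fintype β] (R : Matrix α β ℤ) (S : Matrix β α ℤ)
    (hR : NN R) (hS : NN S) : Elem (fm (R * S)) (fm (S * R)) :=
  elem_mk (fr R) (fr S) (fr_mul R S hR hS) (fr_mul S R hS hR)

lemma QQ.elem {α β : Type} [Fintype α] [Fintype β] (R : Matrix α β ℤ) (S : Matrix β α ℤ)
    (hR : NN R) (hS : NN S) : QQ (R * S) (S * R) :=
  Relation.TransGen.single (elem_fm R S hR hS)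

lemma NN.one {α : Type} [DecidableEq α] : NN (1 : Matrix α α ℤ) := by
  intro i j
  by_cases h : i = j
  · subst h; simp
  · simp [h]

lemma QQ.refl {α : Type} [Fintype α] [DecidableEq α] (A : Matrix α α ℤ) (hA : NN A) :
    QQ A A := by
  have h := QQ.elem A (1 : Matrix α α ℤ) hA NN.one
  rwa [Matrix.mul_one, Matrix.one_mul] at h

/-- Passage to the matrix over `ℕ` itself. -/
lemma elem_self {n : ℕ} (A : Matrix (Fin n) (Fin n) ℕ) :
    Elem ⟨n, A⟩ (fm (A.map (Nat.cast : ℕ → ℤ))) := by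
  classical
  refine elem_mk (Matrix.of fun i j => A i ((Fintype.equivFin (Fin n)).symm j))
    (Matrix.of fun i j => if (Fintype.equivFin (Fin n)).symm i = j then 1 else 0) ?_ ?_
  · ext i j
    rw [Matrix.mul_apply]
    simp only [Matrix.of_apply]
    rw [Equiv.sum_comp (Fintype.equivFin (Fin n)).symm (fun k => A i k * if k = j then 1 else 0)]
    simp
  · ext i j
    rw [Matrix.mul_apply]
    simp [fr]

lemma transGen_of_QQ {n m : ℕ} {A : Matrix (Fin n) (Fin n) ℕ} {B : Matrix (Fin m) (Fin m) ℕ}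
    (h : QQ (A.map (Nat.cast : ℕ → ℤ)) (B.map (Nat.cast : ℕ → ℤ))) :
    Relation.TransGen Elem ⟨n, A⟩ ⟨m, B⟩ :=
  Relation.TransGen.head (elem_self A) (h.tail (elem_self B).symm)

lemma NN.mul {α β γ : Type} [Fintype β] {A : Matrix α β ℤ} {B : Matrix β γ ℤ} (hA : NN A)
    (hB : NN B) : NN (A * B) := by
  intro i j
  rw [Matrix.mul_apply]
  exact Finset.sum_nonneg fun k _ => mul_nonneg (hA i k) (hB k j)

lemma NN.add {α β : Type} {A B : Matrix α β ℤ} (hA : NN A) (hB : NN B) : NN (A + B) :=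
  fun i j => add_nonneg (hA i j) (hB i j)

lemma NN.fromRows {α β γ : Type} {A : Matrix α γ ℤ} {B : Matrix β γ ℤ} (hA : NN A)
    (hB : NN B) : NN (Matrix.fromRows A B) := by
  rintro (i | i) j
  · exact hA i j
  · exact hB i j

lemma NN.fromCols {α β γ : Type} {A : Matrix α β ℤ} {B : Matrix α γ ℤ} (hA : NN A)
    (hB : NN B) : NN (Matrix.fromCols A B) := by
  rintro i (j | j)
  · exact hA i j
  · exact hB i j

lemma NN.zero {α β : Type} : NN (0 : Matrix α β ℤ) := fun _ _ => le_refl _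

/-- The exchange move. -/
lemma QQ.exchange {g n : Type} [Fintype g] [Fintype n] [DecidableEq g] (H : Matrix g g ℤ)
    (w : Matrix n g ℤ) (t₁ t₂ : Matrix g n ℤ) (hH : NN H) (hw : NN w) (h1 : NN t₁) (h2 : NN t₂)
    (e1 : H * t₁ = H * t₂) (e2 : w * t₁ = w * t₂) : QQ (H + t₁ * w) (H + t₂ * w) := by
  have k1 : QQ (Matrix.fromCols (1 : Matrix g g ℤ) t₁ * Matrix.fromRows H w)
      (Matrix.fromRows H w * Matrix.fromCols (1 : Matrix g g ℤ) t₁) :=
    QQ.elem _ _ (NN.one.fromCols h1) (hH.fromRows hw)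
  have k2 : QQ (Matrix.fromCols (1 : Matrix g g ℤ) t₂ * Matrix.fromRows H w)
      (Matrix.fromRows H w * Matrix.fromCols (1 : Matrix g g ℤ) t₂) :=
    QQ.elem _ _ (NN.one.fromCols h2) (hH.fromRows hw)
  rw [Matrix.fromCols_mul_fromRows, Matrix.one_mul, Matrix.fromRows_mul_fromCols, Matrix.mul_one,
    Matrix.mul_one] at k1 k2
  rw [e1, e2] at k1
  exact k1.trans k2.symm

end Pool.Agent.H81SSE
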