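import Pool.Agent.H81SSE.Core

/-!
# The dominance lemma

Two presentations `U (x α + V)` with the same `V U`, the same `α U` and with all entries of
`U x` positive are strong shift equivalent over the nonnegative integers once `α` is large.
-/

set_option autoImplicit false

namespace Pool.Agent.H81SSE

open Matrix

/-- The row of ones. -/
def ones (n : Type) : Matrix Unit n ℤ := Matrix.of fun _ _ => 1

/-- The generators. -/
def Gm {n : Type} [DecidableEq n] (X : Matrix n Unit ℤ) (r : ℤ) : Matrix n (Unit ⊕ (n ⊕ n)) ℤ :=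
  Matrix.fromCols X (Matrix.fromCols (r • (X * ones n) + 1) (r • (X * ones n) - 1))

section half

variable {a n : Type} [Fintype a] [Fintype n] [DecidableEq n]

lemma half (X : Matrix n Unit ℤ) (r : ℤ) (hr : 0 ≤ r) (U : Matrix a n ℤ) (Vp Vm : Matrix n a ℤ)
    (Al : Matrix Unit a ℤ) (w₀ : Matrix n n ℤ) (hVp : NN Vp) (hVm : NN Vm)
    (hB : NN (U * Gm X r)) (hw : NN (w₀ * Gm X r))
    (h0 : NN (Al - r • (ones n * (Vp + Vm))))
    (h1 : NN ((Al - r • (ones n * (Vp + Vm))) * (U * Gm X r)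
      - (2 * r) • (ones n * (w₀ * Gm X r)))) :
    QQ (U * (X * Al + (Vp - Vm)))
      (Matrix.fromRows ((Al - r • (ones n * (Vp + Vm))) * (U * Gm X r)
          - (2 * r) • (ones n * (w₀ * Gm X r)))
        (Matrix.fromRows (Vp * (U * Gm X r) + w₀ * Gm X r) (Vm * (U * Gm X r) + w₀ * Gm X r))) := by
  set G := Gm X r with hG
  set row := Al - r • (ones n * (Vp + Vm)) with hrow
  -- first step
  have s1 : QQ ((U * G) * (Matrix.fromRows row (Matrix.fromRows Vp Vm)))
      ((Matrix.fromRows row (Matrix.fromRows Vp Vm)) * (U * G)) :=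
    QQ.elem _ _ hB (h0.fromRows (hVp.fromRows hVm))
  have e1 : (U * G) * (Matrix.fromRows row (Matrix.fromRows Vp Vm)) =
      U * (X * Al + (Vp - Vm)) := by
    rw [Matrix.mul_assoc]
    congr 1
    rw [hG, Gm, Matrix.fromCols_mul_fromRows, Matrix.fromCols_mul_fromRows, hrow]
    simp only [Matrix.mul_sub, Matrix.mul_add, Matrix.add_mul, Matrix.sub_mul, Matrix.one_mul,
      Matrix.smul_mul, Matrix.mul_smul, Matrix.mul_assoc, smul_add]
    abel
  rw [e1, Matrix.fromRows_mul, Matrix.fromRows_mul] at s1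
  -- second step: the exchange
  set H : Matrix (Unit ⊕ (n ⊕ n)) (Unit ⊕ (n ⊕ n)) ℤ :=
    Matrix.fromRows (row * (U * G) - (2 * r) • (ones n * (w₀ * G)))
      (Matrix.fromRows (Vp * (U * G)) (Vm * (U * G))) with hH
  set H₀ : Matrix (Unit ⊕ (n ⊕ n)) n ℤ :=
    Matrix.fromRows (row * U - (2 * r) • (ones n * w₀))
      (Matrix.fromRows (Vp * U) (Vm * U)) with hH₀
  have eH : H = H₀ * G := by
    rw [hH, hH₀, Matrix.fromRows_mul, Matrix.fromRows_mul]
    simp only [Matrix.sub_mul, Matrix.smul_mul, Matrix.mul_assoc]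
  set t₁ : Matrix (Unit ⊕ (n ⊕ n)) n ℤ :=
    Matrix.fromRows ((2 * r) • ones n) (Matrix.fromRows 0 0) with ht₁
  set t₂ : Matrix (Unit ⊕ (n ⊕ n)) n ℤ :=
    Matrix.fromRows 0 (Matrix.fromRows 1 1) with ht₂
  have eG : G * t₁ = G * t₂ := by
    rw [hG, Gm, ht₁, ht₂, Matrix.fromCols_mul_fromRows, Matrix.fromCols_mul_fromRows,
      Matrix.fromCols_mul_fromRows, Matrix.fromCols_mul_fromRows]
    simp only [Matrix.mul_smul, Matrix.mul_zero, Matrix.mul_one, add_zero, zero_add]
    rw [two_mul, add_smul]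
    abel
  have s2 : QQ (H + t₁ * (w₀ * G)) (H + t₂ * (w₀ * G)) := by
    refine QQ.exchange H (w₀ * G) t₁ t₂ ?_ hw ?_ ?_ ?_ ?_
    · exact h1.fromRows ((hVp.mul hB).fromRows (hVm.mul hB))
    · refine NN.fromRows ?_ (NN.zero.fromRows NN.zero)
      intro i j
      simp only [Matrix.smul_apply, ones, Matrix.of_apply, smul_eq_mul, mul_one]
      linarith
    · exact NN.zero.fromRows (NN.one.fromRows NN.one)
    · rw [eH, Matrix.mul_assoc, Matrix.mul_assoc, eG]
    · rw [Matrix.mul_assoc, Matrix.mul_assoc, eG]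
  have e2 : H + t₁ * (w₀ * G) = Matrix.fromRows (row * (U * G))
      (Matrix.fromRows (Vp * (U * G)) (Vm * (U * G))) := by
    rw [hH, ht₁, Matrix.fromRows_mul, Matrix.fromRows_mul]
    ext i j
    rcases i with i | i | i
    · simp [Matrix.smul_mul]
    · simp
    · simp
  have e3 : H + t₂ * (w₀ * G) = Matrix.fromRows (row * (U * G) - (2 * r) • (ones n * (w₀ * G)))
      (Matrix.fromRows (Vp * (U * G) + w₀ * G) (Vm * (U * G) + w₀ * G)) := by
    rw [hH, ht₂, Matrix.fromRows_mul, Matrix.fromRows_mul]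
    ext i j
    rcases i with i | i | i
    · simp
    · simp
    · simp
  rw [e2, e3] at s2
  exact s1.trans s2

end half

lemma exists_bound {ι : Type} [Finite ι] (f : ι → ℤ) : ∃ M : ℤ, 0 ≤ M ∧ ∀ i, f i ≤ M := by
  obtain ⟨M, hM⟩ := (Set.finite_range f).bddAbove
  refine ⟨max M 0, le_max_right _ _, fun i => le_trans (hM ⟨i, rfl⟩) (le_max_left _ _)⟩

lemma Gm_entries {a n : Type} [Fintype n] [DecidableEq n] (X : Matrix n Unit ℤ)
    (r : ℤ) (U : Matrix a n ℤ) (hU : ∀ i j, 1 ≤ (U * X) i j) (h : ∀ i j, |U i j| + 1 ≤ r) :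
    ∀ i j, 1 ≤ (U * Gm X r) i j := by
  have e : U * Gm X r = Matrix.fromCols (U * X)
      (Matrix.fromCols (r • (U * X * ones n) + U) (r • (U * X * ones n) - U)) := by
    rw [Gm, Matrix.mul_fromCols, Matrix.mul_fromCols]
    simp only [Matrix.mul_sub, Matrix.mul_add, Matrix.mul_one, Matrix.mul_smul, Matrix.mul_assoc]
  rw [e]
  have hone : ∀ i j, (U * X * ones n) i j = (U * X) i () := by
    intro i j
    rw [Matrix.mul_apply]
    simp [ones]
  rintro i (j | j | j)
  · exact hU i j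
  · simp only [Matrix.fromCols_apply_inr, Matrix.fromCols_apply_inl, Matrix.add_apply,
      Matrix.smul_apply, smul_eq_mul]
    rw [hone]
    have h1 := hU i ()
    have h2 := h i j
    have h3 := neg_abs_le (U i j)
    have h4 := abs_nonneg (U i j)
    nlinarith
  · simp only [Matrix.fromCols_apply_inr, Matrix.sub_apply,
      Matrix.smul_apply, smul_eq_mul]
    rw [hone]
    have h1 := hU i ()
    have h2 := h i j
    have h3 := le_abs_self (U i j)
    have h4 := abs_nonneg (U i j)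
    nlinarith

lemma exists_K {a g : Type} [Fintype a] [Fintype g] [Nonempty a] (B : Matrix a g ℤ)
    (hB : ∀ i j, 1 ≤ B i j) (P : Matrix Unit a ℤ) (Z : Matrix Unit g ℤ) :
    ∃ K : ℤ, ∀ Al : Matrix Unit a ℤ, (∀ i j, K ≤ Al i j) →
      NN (Al - P) ∧ NN ((Al - P) * B - Z) := by
  obtain ⟨M1, h1, h2⟩ := exists_bound (fun j => P () j)
  obtain ⟨M2, h3, h4⟩ := exists_bound (fun j => Z () j)
  refine ⟨M1 + M2, fun Al hAl => ?_⟩
  have key : ∀ i j, M2 ≤ (Al - P) i j := by
    intro i j
    rw [Matrix.sub_apply]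
    have := hAl i j
    have := h2 j
    change P i j ≤ M1 at this
    linarith
  refine ⟨fun i j => le_trans h3 (key i j), fun i j => ?_⟩
  rw [Matrix.sub_apply, Matrix.mul_apply]
  obtain ⟨j0⟩ := (inferInstance : Nonempty a)
  have h5 : (Al - P) i j0 * B j0 j ≤ ∑ k, (Al - P) i k * B k j :=
    Finset.single_le_sum (f := fun k => (Al - P) i k * B k j)
      (fun k _ => mul_nonneg (le_trans h3 (key i k)) (by linarith [hB k j])) (Finset.mem_univ j0)
  have h6 : M2 ≤ (Al - P) i j0 * B j0 j := by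
    have h7 := key i j0
    have h8 := hB j0 j
    nlinarith
  have h9 : Z i j ≤ M2 := h4 j
  linarith

/-- The positive part of a matrix. -/
def pP {α β : Type} (V : Matrix α β ℤ) : Matrix α β ℤ := Matrix.of fun i j => max (V i j) 0

/-- The negative part of a matrix. -/
def pM {α β : Type} (V : Matrix α β ℤ) : Matrix α β ℤ := Matrix.of fun i j => max (-V i j) 0

lemma pP_nn {α β : Type} (V : Matrix α β ℤ) : NN (pP V) := fun _ _ => le_max_right _ _

lemma pM_nn {α β : Type} (V : Matrix α β ℤ) : NN (pM V) := fun _ _ => le_max_right _ _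

lemma pP_sub_pM {α β : Type} (V : Matrix α β ℤ) : pP V - pM V = V := by
  ext i j
  simp only [pP, pM, Matrix.sub_apply, Matrix.of_apply]
  rcases le_total (V i j) 0 with h | h
  · rw [max_eq_right h, max_eq_left (by linarith)]; ring
  · rw [max_eq_left h, max_eq_right (by linarith)]; ring

/-- The dominance lemma. -/
theorem dominance {a a' n : Type} [Fintype a] [Fintype a'] [Fintype n] [Nonempty a] [Nonempty a']
    (X : Matrix n Unit ℤ) (U : Matrix a n ℤ) (V : Matrix n a ℤ) (U' : Matrix a' n ℤ)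
    (V' : Matrix n a' ℤ) (hU : ∀ i j, 1 ≤ (U * X) i j) (hU' : ∀ i j, 1 ≤ (U' * X) i j)
    (hVU : V * U = V' * U') :
    ∃ K : ℤ, ∀ (Al : Matrix Unit a ℤ) (Al' : Matrix Unit a' ℤ), (∀ i j, K ≤ Al i j) →
      (∀ i j, K ≤ Al' i j) → Al * U = Al' * U' →
        QQ (U * (X * Al + V)) (U' * (X * Al' + V')) := by
  classical
  obtain ⟨r1, hr1, hr1'⟩ := exists_bound (fun p : a × n => |U p.1 p.2| + 1)
  obtain ⟨r2, hr2, hr2'⟩ := exists_bound (fun p : a' × n => |U' p.1 p.2| + 1)
  set r := max r1 r2 with hr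
  have hr0 : 0 ≤ r := le_trans hr1 (le_max_left _ _)
  have hB1 := Gm_entries X r U hU (fun i j => le_trans (hr1' (i, j)) (le_max_left _ _))
  have hB2 := Gm_entries X r U' hU' (fun i j => le_trans (hr2' (i, j)) (le_max_right _ _))
  have hB : NN (U * Gm X r) := fun i j => by linarith [hB1 i j]
  have hB' : NN (U' * Gm X r) := fun i j => by linarith [hB2 i j]
  obtain ⟨K1, hK1⟩ := exists_K (U * Gm X r) hB1 (r • (ones n * (pP V + pM V)))
    ((2 * r) • (ones n * (pM V' * U' * Gm X r)))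
  obtain ⟨K2, hK2⟩ := exists_K (U' * Gm X r) hB2 (r • (ones n * (pP V' + pM V')))
    ((2 * r) • (ones n * (pM V * U * Gm X r)))
  refine ⟨max K1 K2, fun Al Al' hAl hAl' hAA => ?_⟩
  obtain ⟨c1, c2⟩ := hK1 Al (fun i j => le_trans (le_max_left _ _) (hAl i j))
  obtain ⟨c3, c4⟩ := hK2 Al' (fun i j => le_trans (le_max_right _ _) (hAl' i j))
  have q1 := half X r hr0 U (pP V) (pM V) Al (pM V' * U') (pP_nn V) (pM_nn V) hB
    (by rw [Matrix.mul_assoc]; exact (pM_nn V').mul hB') c1 c2
  have q2 := half X r hr0 U' (pP V') (pM V') Al' (pM V * U) (pP_nn V') (pM_nn V') hB'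
    (by rw [Matrix.mul_assoc]; exact (pM_nn V).mul hB) c3 c4
  rw [pP_sub_pM] at q1 q2
  have hV : pP V * U = pM V * U + pP V' * U' - pM V' * U' := by
    have h1 : (pP V - pM V) * U = (pP V' - pM V') * U' := by
      rw [pP_sub_pM, pP_sub_pM, hVU]
    rw [Matrix.sub_mul, Matrix.sub_mul] at h1
    rw [← sub_eq_zero] at h1 ⊢
    rw [← h1]
    abel
  have e : Matrix.fromRows ((Al - r • (ones n * (pP V + pM V))) * (U * Gm X r)
          - (2 * r) • (ones n * (pM V' * U' * Gm X r)))
        (Matrix.fromRows (pP V * (U * Gm X r) + pM V' * U' * Gm X r)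
          (pM V * (U * Gm X r) + pM V' * U' * Gm X r)) =
      Matrix.fromRows ((Al' - r • (ones n * (pP V' + pM V'))) * (U' * Gm X r)
          - (2 * r) • (ones n * (pM V * U * Gm X r)))
        (Matrix.fromRows (pP V' * (U' * Gm X r) + pM V * U * Gm X r)
          (pM V' * (U' * Gm X r) + pM V * U * Gm X r)) := by
    have e1 : (Al - r • (ones n * (pP V + pM V))) * U - (2 * r) • (ones n * (pM V' * U')) =
        (Al' - r • (ones n * (pP V' + pM V'))) * U' - (2 * r) • (ones n * (pM V * U)) := by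
      rw [Matrix.sub_mul, Matrix.sub_mul, hAA, Matrix.smul_mul, Matrix.smul_mul,
        Matrix.mul_assoc, Matrix.mul_assoc, Matrix.add_mul, Matrix.add_mul, hV, two_mul, add_smul,
        add_smul, Matrix.mul_add, Matrix.mul_sub, Matrix.mul_add, Matrix.mul_add, smul_add,
        smul_add, smul_sub, smul_add]
      abel
    congr 1
    · have e2 := congrArg (fun M => M * Gm X r) e1
      simp only [Matrix.sub_mul, Matrix.smul_mul, Matrix.mul_assoc] at e2 ⊢
      exact e2
    · congr 1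
      · rw [← Matrix.mul_assoc, ← Matrix.mul_assoc, ← Matrix.add_mul, ← Matrix.add_mul, hV]
        congr 1
        abel
      · rw [← Matrix.mul_assoc, ← Matrix.mul_assoc, ← Matrix.add_mul, ← Matrix.add_mul]
        congr 1
        abel
  rw [e] at q1
  exact q1.trans q2.symm

end Pool.Agent.H81SSE
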