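import Pool.Agent.H81SSE.Dom

/-!
# The dominance lemma with one elementary step over the integers
-/

set_option autoImplicit false
set_option linter.unusedSectionVars false
set_option linter.unusedSimpArgs false

namespace Pool.Agent.H81SSE

open Matrix

/-- The canonical form. -/
def Can {n n₁ : Type} [Fintype n] [Fintype n₁] [DecidableEq n₁] (G : Matrix n₁ (Unit ⊕ (n₁ ⊕ n₁)) ℤ)
    (r : ℤ) (ρ : Matrix Unit n₁ ℤ) (S w : Matrix n n₁ ℤ) :
    Matrix (Unit ⊕ (n ⊕ n)) (Unit ⊕ (n₁ ⊕ n₁)) ℤ :=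
  Matrix.fromRows ((ρ - r • (ones n * (S + 2 • w))) * G)
    (Matrix.fromRows ((S + w) * G) (w * G))

section half'

variable {a n : Type} [Fintype a] [Fintype n] [DecidableEq n]

lemma half' (X : Matrix n Unit ℤ) (r : ℤ) (hr : 0 ≤ r) (U : Matrix a n ℤ) (V : Matrix n a ℤ)
    (Al : Matrix Unit a ℤ) (w : Matrix n n ℤ)
    (hB : NN (U * Gm X r)) (hw : NN ((w - pM V * U) * Gm X r))
    (h0 : NN (Al - r • (ones n * (pP V + pM V))))
    (h1 : NN ((Al - r • (ones n * (pP V + pM V))) * (U * Gm X r)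
      - (2 * r) • (ones n * ((w - pM V * U) * Gm X r)))) :
    QQ (U * (X * Al + V)) (Can (Gm X r) r (Al * U) (V * U) w) := by
  have h := half X r hr U (pP V) (pM V) Al (w - pM V * U) (pP_nn V) (pM_nn V) hB hw h0 h1
  rw [pP_sub_pM] at h
  have hV : pP V * U = V * U + pM V * U := by
    have h2 := congrArg (fun M => M * U) (pP_sub_pM V)
    simp only [Matrix.sub_mul] at h2
    exact sub_eq_iff_eq_add.1 h2
  have e : Matrix.fromRows ((Al - r • (ones n * (pP V + pM V))) * (U * Gm X r)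
          - (2 * r) • (ones n * ((w - pM V * U) * Gm X r)))
        (Matrix.fromRows (pP V * (U * Gm X r) + (w - pM V * U) * Gm X r)
          (pM V * (U * Gm X r) + (w - pM V * U) * Gm X r)) =
      Can (Gm X r) r (Al * U) (V * U) w := by
    unfold Can
    have e1 : (Al - r • (ones n * (pP V + pM V))) * U - (2 * r) • (ones n * (w - pM V * U)) =
        Al * U - r • (ones n * (V * U + 2 • w)) := by
      rw [Matrix.sub_mul, Matrix.smul_mul, Matrix.mul_assoc, Matrix.add_mul, hV, two_mul, add_smul,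
        two_smul, Matrix.mul_add, Matrix.mul_add, Matrix.mul_sub, Matrix.mul_add, Matrix.mul_add,
        smul_add, smul_add, smul_sub, smul_add, smul_add]
      abel
    congr 1
    · rw [← e1]
      simp only [Matrix.sub_mul, Matrix.smul_mul, Matrix.mul_assoc]
    · congr 1
      · rw [← Matrix.mul_assoc, ← Matrix.add_mul, hV]
        congr 1
        abel
      · rw [← Matrix.mul_assoc, ← Matrix.add_mul]
        congr 1
        abel
  rw [e] at h
  exact h

end half'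

/-- The nonnegative matrix expressing the generators of the big lattice by those of the small
one. -/
def Em {n n₁ : Type} [Fintype n] [Fintype n₁] (T : Matrix n₁ n ℤ) (r r₁ : ℤ) :
    Matrix (Unit ⊕ (n₁ ⊕ n₁)) (Unit ⊕ (n ⊕ n)) ℤ :=
  Matrix.fromRows (Matrix.fromCols (1 : Matrix Unit Unit ℤ)
      (Matrix.fromCols (r • ones n - r₁ • (ones n₁ * T)) (r • ones n - r₁ • (ones n₁ * T))))
    (Matrix.fromRows (Matrix.fromCols 0 (Matrix.fromCols T 0))
      (Matrix.fromCols 0 (Matrix.fromCols 0 T)))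

section

variable {n n₁ : Type} [Fintype n] [Fintype n₁] [DecidableEq n] [DecidableEq n₁]

lemma T_mul_Gm (X : Matrix n Unit ℤ) (T : Matrix n₁ n ℤ) (r r₁ : ℤ) :
    T * Gm X r = Gm (T * X) r₁ * Em T r r₁ := by
  unfold Gm Em
  rw [Matrix.mul_fromCols, Matrix.mul_fromCols, Matrix.fromCols_mul_fromRows,
    Matrix.fromCols_mul_fromRows]
  simp only [Matrix.mul_fromCols, Matrix.mul_zero, Matrix.mul_one]
  ext i j
  rcases j with j | j | j
  · simp
  · simp only [Matrix.fromCols_apply_inr, Matrix.fromCols_apply_inl, Matrix.add_apply,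
      Matrix.mul_sub, Matrix.mul_add, Matrix.mul_smul, Matrix.mul_one, Matrix.sub_apply,
      Matrix.smul_apply, Matrix.sub_mul, Matrix.add_mul, Matrix.smul_mul, Matrix.one_mul,
      Matrix.zero_apply, Matrix.mul_assoc]
    ring
  · simp only [Matrix.fromCols_apply_inr, Matrix.fromCols_apply_inl, Matrix.add_apply,
      Matrix.mul_sub, Matrix.mul_add, Matrix.mul_smul, Matrix.mul_one, Matrix.sub_apply,
      Matrix.smul_apply, Matrix.sub_mul, Matrix.add_mul, Matrix.smul_mul, Matrix.one_mul,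
      Matrix.zero_apply, Matrix.mul_assoc]
    ring

lemma Em_mul_Can (T : Matrix n₁ n ℤ) (r r₁ : ℤ) (G : Matrix n₁ (Unit ⊕ (n₁ ⊕ n₁)) ℤ)
    (ρ : Matrix Unit n₁ ℤ) (R w : Matrix n n₁ ℤ) :
    Em T r r₁ * Can G r ρ R w = Can G r₁ ρ (T * R) (T * w) := by
  unfold Em Can
  rw [Matrix.fromRows_mul, Matrix.fromRows_mul]
  simp only [Matrix.fromCols_mul_fromRows, Matrix.zero_mul, zero_add, add_zero, Matrix.one_mul]
  have e1 : (ρ - r • (ones n * (R + 2 • w))) * G +
      ((r • ones n - r₁ • (ones n₁ * T)) * ((R + w) * G) +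
        (r • ones n - r₁ • (ones n₁ * T)) * (w * G)) =
      (ρ - r₁ • (ones n₁ * (T * R + 2 • (T * w)))) * G := by
    rw [← Matrix.mul_assoc, ← Matrix.mul_assoc, ← Matrix.add_mul, ← Matrix.add_mul]
    congr 1
    simp only [Matrix.sub_mul, Matrix.mul_add, Matrix.smul_mul, Matrix.mul_assoc, two_smul,
      smul_add]
    abel
  rw [e1]
  congr 1
  congr 1
  · rw [← Matrix.mul_assoc, Matrix.mul_add]
  · rw [← Matrix.mul_assoc]

end

section

variable {a a₁ n n₁ : Type} [Fintype a] [Fintype a₁] [Fintype n] [Fintype n₁] [DecidableEq n]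
  [DecidableEq n₁] [Nonempty a] [Nonempty a₁]

/-- The column of ones. -/
def onec (n : Type) : Matrix n Unit ℤ := Matrix.of fun _ _ => 1

/-- The dominance lemma with a step `R T`, `T R`. -/
theorem dom_step (X : Matrix n Unit ℤ) (U : Matrix a n ℤ) (V : Matrix n a ℤ)
    (U₁ : Matrix a₁ n₁ ℤ) (V₁ : Matrix n₁ a₁ ℤ) (T : Matrix n₁ n ℤ) (R : Matrix n n₁ ℤ)
    (hT : NN T) (hT' : ∀ i, ∃ j, 1 ≤ T i j)
    (hU : ∀ i j, 1 ≤ (U * X) i j) (hU₁ : ∀ i j, 1 ≤ (U₁ * (T * X)) i j)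
    (hVU : V * U = R * T) (hVU₁ : V₁ * U₁ = T * R) :
    ∃ K : ℤ, ∀ (Al : Matrix Unit a ℤ) (Al₁ : Matrix Unit a₁ ℤ), (∀ i j, K ≤ Al i j) →
      (∀ i j, K ≤ Al₁ i j) → Al * U = Al₁ * U₁ * T →
        QQ (U * (X * Al + V)) (U₁ * (T * X * Al₁ + V₁)) := by
  classical
  obtain ⟨r₁, hr₁0, hr₁⟩ := exists_bound (fun p : a₁ × n₁ => |U₁ p.1 p.2| + 1)
  obtain ⟨r2, hr2, hr2'⟩ := exists_bound (fun p : a × n => |U p.1 p.2| + 1)
  obtain ⟨r3, hr3, hr3'⟩ := exists_bound (fun j : n => r₁ * (ones n₁ * T) () j + 1)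
  set r := max r2 r3 with hr
  have hr0 : 0 ≤ r := le_trans hr2 (le_max_left _ _)
  have hB1 := Gm_entries X r U hU (fun i j => le_trans (hr2' (i, j)) (le_max_left _ _))
  have hB2 := Gm_entries (T * X) r₁ U₁ hU₁ (fun i j => hr₁ (i, j))
  have hB : NN (U * Gm X r) := fun i j => by linarith [hB1 i j]
  have hB' : NN (U₁ * Gm (T * X) r₁) := fun i j => by linarith [hB2 i j]
  have he : ∀ j, 1 ≤ (r • ones n - r₁ • (ones n₁ * T)) () j := by
    intro j
    have h1 : r₁ * (ones n₁ * T) () j + 1 ≤ r := le_trans (hr3' j) (le_max_right _ _)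
    simp only [Matrix.sub_apply, Matrix.smul_apply, smul_eq_mul]
    have h2 : ones n () j = 1 := rfl
    rw [h2]
    linarith
  have hE : NN (Em T r r₁) := by
    unfold Em
    refine NN.fromRows (NN.fromCols NN.one (NN.fromCols ?_ ?_))
      (NN.fromRows (NN.fromCols NN.zero (NN.fromCols hT NN.zero))
        (NN.fromCols NN.zero (NN.fromCols NN.zero hT)))
    · intro i j
      cases i
      linarith [he j]
    · intro i j
      cases i
      linarith [he j]
  -- the functional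
  set φ : Matrix Unit n₁ ℤ := ones a₁ * U₁ with hφ
  have hQ : ∀ j, 1 ≤ (φ * Gm (T * X) r₁) () j := by
    intro j
    rw [hφ, Matrix.mul_assoc, Matrix.mul_apply]
    obtain ⟨i0⟩ := (inferInstance : Nonempty a₁)
    have h1 : ones a₁ () i0 * (U₁ * Gm (T * X) r₁) i0 j ≤
        ∑ k, ones a₁ () k * (U₁ * Gm (T * X) r₁) k j :=
      Finset.single_le_sum (f := fun k => ones a₁ () k * (U₁ * Gm (T * X) r₁) k j)
        (fun k _ => mul_nonneg (by simp [ones]) (hB' k j)) (Finset.mem_univ i0)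
    have h2 : ones a₁ () i0 = 1 := rfl
    rw [h2, one_mul] at h1
    linarith [hB2 i0 j]
  have hQE : ∀ j, 1 ≤ (φ * (T * Gm X r)) () j := by
    intro j
    rw [T_mul_Gm X T r r₁, ← Matrix.mul_assoc, Matrix.mul_apply]
    have h0 : (φ * Gm (T * X) r₁) () (Sum.inl ()) * Em T r r₁ (Sum.inl ()) j ≤
        ∑ k, (φ * Gm (T * X) r₁) () k * Em T r r₁ k j :=
      Finset.single_le_sum (f := fun k => (φ * Gm (T * X) r₁) () k * Em T r r₁ k j)
        (fun k _ => mul_nonneg (by linarith [hQ k]) (hE k j)) (Finset.mem_univ _)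
    have h1 : 1 ≤ Em T r r₁ (Sum.inl ()) j := by
      rcases j with j | j | j
      · simp [Em]
      · exact he j
      · exact he j
    have h2 := hQ (Sum.inl ())
    nlinarith
  obtain ⟨q1, hq1, hq1'⟩ := exists_bound (fun p : n × (Unit ⊕ (n ⊕ n)) =>
    (pM V * (U * Gm X r)) p.1 p.2)
  obtain ⟨q2, hq2, hq2'⟩ := exists_bound (fun p : n × (Unit ⊕ (n₁ ⊕ n₁)) =>
    - (R * Gm (T * X) r₁) p.1 p.2)
  obtain ⟨q3, hq3, hq3'⟩ := exists_bound (fun p : n₁ × (Unit ⊕ (n₁ ⊕ n₁)) =>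
    (pM V₁ * (U₁ * Gm (T * X) r₁)) p.1 p.2)
  set q := q1 + q2 + q3 with hq
  have hq0 : 0 ≤ q := by linarith
  set w : Matrix n n₁ ℤ := q • (onec n * φ) with hw
  have hwG : ∀ i j, (w * Gm (T * X) r₁) i j = q * (φ * Gm (T * X) r₁) () j := by
    intro i j
    rw [hw, Matrix.smul_mul, Matrix.smul_apply, smul_eq_mul, Matrix.mul_assoc]
    congr 1
    rw [Matrix.mul_apply]
    simp [onec]
  have hwTG : ∀ i j, (w * T * Gm X r) i j = q * (φ * (T * Gm X r)) () j := by
    intro i j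
    rw [hw, Matrix.smul_mul, Matrix.smul_mul, Matrix.smul_apply, smul_eq_mul, Matrix.mul_assoc,
      Matrix.mul_assoc]
    congr 1
    rw [Matrix.mul_apply]
    simp [onec]
  have c1 : NN ((w * T - pM V * U) * Gm X r) := by
    intro i j
    rw [Matrix.sub_mul, Matrix.sub_apply, hwTG, Matrix.mul_assoc (pM V)]
    have h1 := hq1' (i, j)
    have h2 := hQE j
    simp only at h1
    nlinarith
  have c2 : NN ((R + w) * Gm (T * X) r₁) := by
    intro i j
    rw [Matrix.add_mul, Matrix.add_apply, hwG]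
    have h1 := hq2' (i, j)
    have h2 := hQ j
    simp only at h1
    nlinarith
  have c3 : NN (w * Gm (T * X) r₁) := by
    intro i j
    rw [hwG]
    have h2 := hQ j
    nlinarith
  have c4 : NN ((T * w - pM V₁ * U₁) * Gm (T * X) r₁) := by
    intro i j
    rw [Matrix.sub_mul, Matrix.sub_apply, Matrix.mul_assoc, Matrix.mul_assoc, Matrix.mul_apply]
    obtain ⟨k0, hk0⟩ := hT' i
    have h0 : T i k0 * (w * Gm (T * X) r₁) k0 j ≤ ∑ k, T i k * (w * Gm (T * X) r₁) k j :=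
      Finset.single_le_sum (f := fun k => T i k * (w * Gm (T * X) r₁) k j)
        (fun k _ => mul_nonneg (hT i k) (c3 k j)) (Finset.mem_univ k0)
    rw [hwG] at h0
    have h1 := hq3' (i, j)
    have h2 := hQ j
    simp only at h1
    have h3 : q ≤ q * (φ * Gm (T * X) r₁) () j := by nlinarith
    have h4 : q * (φ * Gm (T * X) r₁) () j ≤ T i k0 * (q * (φ * Gm (T * X) r₁) () j) := by
      nlinarith
    linarith
  obtain ⟨K1, hK1⟩ := exists_K (U * Gm X r) hB1 (r • (ones n * (pP V + pM V)))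
    ((2 * r) • (ones n * ((w * T - pM V * U) * Gm X r)))
  obtain ⟨K2, hK2⟩ := exists_K (U₁ * Gm (T * X) r₁) hB2 (r₁ • (ones n₁ * (pP V₁ + pM V₁)))
    ((2 * r₁) • (ones n₁ * ((T * w - pM V₁ * U₁) * Gm (T * X) r₁)))
  obtain ⟨K3, hK3⟩ := exists_K (U₁ * Gm (T * X) r₁) hB2 0
    (r • (ones n * (R + 2 • w)) * Gm (T * X) r₁)
  refine ⟨max K1 (max K2 K3), fun Al Al₁ hAl hAl₁ hAA => ?_⟩
  obtain ⟨d1, d2⟩ := hK1 Al (fun i j => le_trans (le_max_left _ _) (hAl i j))
  obtain ⟨d3, d4⟩ := hK2 Al₁ (fun i j => le_trans ((le_max_left _ _).trans (le_max_right _ _))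
    (hAl₁ i j))
  obtain ⟨_, d6⟩ := hK3 Al₁ (fun i j => le_trans ((le_max_right _ _).trans (le_max_right _ _))
    (hAl₁ i j))
  have Q1 := half' X r hr0 U V Al (w * T) hB c1 d1 d2
  have Q2 := half' (T * X) r₁ hr₁0 U₁ V₁ Al₁ (T * w) hB' c4 d3 d4
  rw [hAA, hVU] at Q1
  rw [hVU₁] at Q2
  have e1 : Can (Gm X r) r (Al₁ * U₁ * T) (R * T) (w * T) =
      Can (Gm (T * X) r₁) r (Al₁ * U₁) R w * Em T r r₁ := by
    unfold Can
    rw [Matrix.fromRows_mul, Matrix.fromRows_mul]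
    have f : ∀ (k : Type) (M : Matrix k n₁ ℤ), M * Gm (T * X) r₁ * Em T r r₁ = M * T * Gm X r := by
      intro k M
      rw [Matrix.mul_assoc, ← T_mul_Gm, Matrix.mul_assoc]
    rw [f, f, f]
    congr 1
    · congr 1
      have f2 : R * T + 2 • (w * T) = (R + 2 • w) * T := by
        rw [two_smul, two_smul, Matrix.add_mul, Matrix.add_mul]
      rw [f2, Matrix.sub_mul, Matrix.smul_mul, Matrix.mul_assoc (ones n)]
    · congr 1
      rw [← Matrix.add_mul]
  have Q3 : QQ (Can (Gm (T * X) r₁) r (Al₁ * U₁) R w * Em T r r₁)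
      (Em T r r₁ * Can (Gm (T * X) r₁) r (Al₁ * U₁) R w) := by
    refine QQ.elem _ _ ?_ hE
    unfold Can
    refine NN.fromRows ?_ (NN.fromRows c2 c3)
    rw [sub_zero] at d6
    rw [Matrix.sub_mul, Matrix.mul_assoc]
    exact d6
  rw [e1] at Q1
  rw [Em_mul_Can] at Q3
  exact Q1.trans (Q3.trans Q2.symm)

end

end Pool.Agent.H81SSE
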