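import Pool.Agent.H81SSE.Link

/-!
# Orthogonal rank-one bulks with large entries
-/

set_option autoImplicit false
set_option linter.unusedSectionVars false

namespace Pool.Agent.H81SSE

open Matrix

variable {ι κ : Type} [Fintype ι] [DecidableEq ι] [Fintype κ] [DecidableEq κ]

lemma rows_or_cols (K c₀ : ℤ) (hK : 1 ≤ K) (hc : K * K ≤ c₀) (x : Matrix ι Unit ℤ)
    (b : Matrix Unit ι ℤ) (hx : ∀ i j, 1 ≤ x i j) (hb : ∀ i j, 1 ≤ b i j)
    (h : ∀ i j, c₀ ≤ x i () * b () j) : (∀ i j, K ≤ b i j) ∨ (∀ i j, K ≤ x i j) := by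
  by_contra hcon
  rw [not_or] at hcon
  obtain ⟨h1, h2⟩ := hcon
  push Not at h1 h2
  obtain ⟨i1, j1, h1⟩ := h1
  obtain ⟨i2, j2, h2⟩ := h2
  have h3 := h i2 j1
  have h4 := hx i2 ()
  have h5 := hb () j1
  cases i1
  cases j2
  nlinarith

lemma pairing_ge [Nonempty ι] (c₀ : ℤ) (x : Matrix ι Unit ℤ)
    (b : Matrix Unit ι ℤ) (hx : ∀ i j, 1 ≤ x i j) (hb : ∀ i j, 1 ≤ b i j)
    (h : ∀ i j, c₀ ≤ x i () * b () j) : c₀ ≤ (b * x) () () := by
  obtain ⟨i0⟩ := (inferInstance : Nonempty ι)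
  rw [Matrix.mul_apply]
  have h5 : b () i0 * x i0 () ≤ ∑ k, b () k * x k () :=
    Finset.single_le_sum (f := fun k => b () k * x k ())
      (fun k _ => mul_nonneg (by linarith [hb () k]) (by linarith [hx k ()]))
      (Finset.mem_univ i0)
  have h6 := h i0 i0
  linarith [mul_comm (x i0 ()) (b () i0)]

theorem forward_all [Nonempty ι] [Nonempty κ] (N : Matrix ι ι ℤ) (N' : Matrix κ κ ℤ)
    (h : GC ⟨ι, inferInstance, inferInstance, N⟩ ⟨κ, inferInstance, inferInstance, N'⟩) :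
    ∃ c₀ : ℤ, ∀ (x : Matrix ι Unit ℤ) (b : Matrix Unit ι ℤ) (x' : Matrix κ Unit ℤ)
      (b' : Matrix Unit κ ℤ), N * x = 0 → b * N = 0 → N' * x' = 0 → b' * N' = 0 →
      (∀ i j, 1 ≤ x i j) → (∀ i j, 1 ≤ b i j) → (∀ i j, 1 ≤ x' i j) → (∀ i j, 1 ≤ b' i j) →
      (∀ i j, c₀ ≤ x i () * b () j) → (∀ i j, c₀ ≤ x' i () * b' () j) →
      (b * x) () () = (b' * x') () () → QQ (x * b + N) (x' * b' + N') := by
  have g1 := dbl_gc N
  have g2 := (GC.symm h).trans g1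
  obtain ⟨K₁, f1⟩ := link_rows N (dbl N) g1
  obtain ⟨K₂, f2⟩ := link_cols N (dbl N) g1
  obtain ⟨K₃, f3⟩ := link_rows N' (dbl N) g2
  obtain ⟨K₄, f4⟩ := link_cols N' (dbl N) g2
  set K := max 1 (max (max K₁ K₂) (max K₃ K₄)) with hK
  have k0 : 1 ≤ K := le_max_left _ _
  have k1 : K₁ ≤ K := (le_max_left _ _).trans ((le_max_left _ _).trans (le_max_right _ _))
  have k2 : K₂ ≤ K := (le_max_right _ _).trans ((le_max_left _ _).trans (le_max_right _ _))
  have k3 : K₃ ≤ K := (le_max_left _ _).trans ((le_max_right _ _).trans (le_max_right _ _))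
  have k4 : K₄ ≤ K := (le_max_right _ _).trans ((le_max_right _ _).trans (le_max_right _ _))
  obtain ⟨M₀, hM₀⟩ := dbl_exists N K k0
  refine ⟨max (K * K) M₀, fun x b x' b' h1 h2 h3 h4 hx hb hx' hb' hc hc' hM => ?_⟩
  have hMM := (le_max_right _ _).trans (pairing_ge _ x b hx hb hc)
  obtain ⟨xo, bo, e1, e2, e3, e4, e5⟩ := hM₀ _ hMM
  have e3' : ∀ i j, 1 ≤ xo i j := fun i j => k0.trans (e3 i j)
  have e4' : ∀ i j, 1 ≤ bo i j := fun i j => k0.trans (e4 i j)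
  have q1 : QQ (x * b + N) (xo * bo + dbl N) := by
    rcases rows_or_cols K _ k0 (le_max_left _ _) x b hx hb hc with h5 | h5
    · exact f1 x b xo bo h1 h2 e1 e2 hx e3' (fun i j => k1.trans (h5 i j))
        (fun i j => k1.trans (e4 i j)) e5.symm
    · exact f2 x b xo bo h1 h2 e1 e2 hb e4' (fun i j => k2.trans (h5 i j))
        (fun i j => k2.trans (e3 i j)) e5.symm
  have q2 : QQ (x' * b' + N') (xo * bo + dbl N) := by
    rcases rows_or_cols K _ k0 (le_max_left _ _) x' b' hx' hb' hc' with h5 | h5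
    · exact f3 x' b' xo bo h3 h4 e1 e2 hx' e3' (fun i j => k3.trans (h5 i j))
        (fun i j => k3.trans (e4 i j)) (by rw [← hM, e5])
    · exact f4 x' b' xo bo h3 h4 e1 e2 hb' e4' (fun i j => k4.trans (h5 i j))
        (fun i j => k4.trans (e3 i j)) (by rw [← hM, e5])
  exact q1.trans q2.symm

end Pool.Agent.H81SSE
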