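import Pool.Agent.H81SSE.Comp

/-!
# A basis adapted to a cyclic pair
-/

set_option autoImplicit false

namespace Pool.Agent.H81SSE

open Matrix Polynomial

variable {n : ℕ}

/-- The Krylov matrix `(x, N x, …, N ^ (n - 1) x)`. -/
def krylov (N : Matrix (Fin n) (Fin n) ℤ) (x : Fin n → ℤ) : Matrix (Fin n) (Fin n) ℤ :=
  Matrix.of fun i j => ((N ^ (j : ℕ)) *ᵥ x) i

/-- The adapted vectors. -/
def ww (N : Matrix (Fin n) (Fin n) ℤ) (x : Fin n → ℤ) (a : ℕ → ℤ) : ℕ → (Fin n → ℤ)
  | 0 => x
  | (i + 1) => N *ᵥ (ww N x a i) + a i • x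

lemma ww_eq (N : Matrix (Fin n) (Fin n) ℤ) (x : Fin n → ℤ) (A : ℕ → ℤ) (hA : A 0 = 1) (i : ℕ) :
    ww N x (fun j => A (j + 1)) i = ∑ j ∈ Finset.range (i + 1), A j • (N ^ (i - j) *ᵥ x) := by
  induction i with
  | zero => simp [ww, hA]
  | succ i ih =>
    rw [ww, ih, Finset.sum_range_succ _ (i + 1), Matrix.mulVec_sum]
    congr 1
    · refine Finset.sum_congr rfl fun j hj => ?_
      have h1 : j ≤ i := by
        have := Finset.mem_range.1 hj
        omega
      rw [Matrix.mulVec_smul, Matrix.mulVec_mulVec, ← pow_succ']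
      congr 3
      omega
    · simp

lemma ww_last (N : Matrix (Fin n) (Fin n) ℤ) (x : Fin n → ℤ) :
    ww N x (fun j => N.charpoly.coeff (n - (j + 1))) n = 0 := by
  have hdeg : N.charpoly.natDegree = n := by
    rw [Matrix.charpoly_natDegree_eq_dim, Fintype.card_fin]
  have h1 : N.charpoly.coeff (n - 0) = 1 := by
    have h2 := (Matrix.charpoly_monic N).coeff_natDegree
    rwa [hdeg] at h2
  rw [ww_eq N x (fun j => N.charpoly.coeff (n - j)) h1 n,
    Finset.sum_flip (fun k => N.charpoly.coeff k • (N ^ k *ᵥ x))]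
  have h3 : aeval N N.charpoly *ᵥ x = 0 := by
    rw [Matrix.aeval_self_charpoly, Matrix.zero_mulVec]
  rw [Polynomial.aeval_eq_sum_range, Matrix.sum_mulVec, hdeg] at h3
  rw [← h3]
  refine Finset.sum_congr rfl fun k _ => ?_
  rw [Matrix.smul_mulVec]

/-- The column. -/
def colM (x : Fin n → ℤ) : Matrix (Fin n) Unit ℤ := Matrix.of fun i _ => x i

lemma exists_W (hn : 0 < n) (N : Matrix (Fin n) (Fin n) ℤ) (x : Fin n → ℤ)
    (h : IsUnit (krylov N x).det) :
    ∃ (W V : Matrix (Fin n) (Fin n) ℤ) (c : Matrix Unit (Fin n) ℤ),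
      W * X0 n = colM x ∧ V * W = Sh n n ∧ N = W * V - colM x * c := by
  set a : ℕ → ℤ := fun j => N.charpoly.coeff (n - (j + 1)) with ha
  set W : Matrix (Fin n) (Fin n) ℤ := Matrix.of fun i k => ww N x a k i with hW
  set ar : Matrix Unit (Fin n) ℤ := Matrix.of fun _ k => a k with har
  have hWX : W * X0 n = colM x := by
    ext i j
    rw [Matrix.mul_apply, Finset.sum_eq_single ⟨0, hn⟩]
    · simp [hW, X0, colM, ww]
    · intro b _ hb
      have : (b : ℕ) ≠ 0 := fun h' => hb (Fin.ext h')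
      simp [X0, this]
    · intro h
      exact absurd (Finset.mem_univ _) h
  have hNW : N * W = W * Sh n n - colM x * ar := by
    ext i k
    have h1 : (N * W) i k = (N *ᵥ ww N x a k) i := by
      rw [Matrix.mul_apply]
      rfl
    have h2 : ww N x a (k + 1) = N *ᵥ (ww N x a k) + a k • x := rfl
    have h3 : (W * Sh n n) i k = ww N x a (k + 1) i := by
      rw [Matrix.mul_apply]
      by_cases hk : (k : ℕ) + 1 < n
      · rw [Finset.sum_eq_single ⟨k + 1, hk⟩]
        · simp [hW, Sh]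
        · intro b _ hb
          have : (b : ℕ) ≠ (k : ℕ) + 1 := fun h' => hb (Fin.ext h')
          simp [Sh, this]
        · intro h
          exact absurd (Finset.mem_univ _) h
      · have hk2 := k.2
        have h4 : (k : ℕ) + 1 = n := by omega
        rw [h4, ha, ww_last]
        refine Finset.sum_eq_zero fun b _ => ?_
        have hb := b.2
        have h5 : (b : ℕ) ≠ (k : ℕ) + 1 := by omega
        simp [Sh, h5]
    have h6 : (colM x * ar) i k = x i * a k := by
      rw [Matrix.mul_apply]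
      simp [colM, har]
    rw [Matrix.sub_apply, h1, h3, h6, h2, Pi.add_apply, Pi.smul_apply, smul_eq_mul]
    ring
  have hM : N * W = W * (Sh n n - X0 n * ar) := by
    rw [hNW, Matrix.mul_sub, ← Matrix.mul_assoc, hWX]
  set M := Sh n n - X0 n * ar with hMdef
  have hpow : ∀ j : ℕ, N ^ j * W = W * M ^ j := by
    intro j
    induction j with
    | zero => simp
    | succ j ih => rw [pow_succ, Matrix.mul_assoc, hM, ← Matrix.mul_assoc, ih, Matrix.mul_assoc,
        ← pow_succ]
  have hx : x = W *ᵥ EE n 0 := by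
    ext i
    have h1 := congrFun (congrFun hWX i) ()
    rw [Matrix.mul_apply] at h1
    rw [Matrix.mulVec, dotProduct]
    rw [colM, Matrix.of_apply] at h1
    rw [← h1]
    rfl
  have hKr : krylov N x = W * Matrix.of fun i (j : Fin n) => (M ^ (j : ℕ) *ᵥ EE n 0) i := by
    ext i j
    have h1 : (krylov N x) i j = (W *ᵥ (M ^ (j : ℕ) *ᵥ EE n 0)) i := by
      rw [Matrix.mulVec_mulVec, ← hpow, ← Matrix.mulVec_mulVec, ← hx]
      rfl
    rw [h1, Matrix.mul_apply]
    rfl
  have hdet : IsUnit W.det := by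
    rw [hKr, Matrix.det_mul] at h
    exact isUnit_of_mul_isUnit_left h
  refine ⟨W, Sh n n * W⁻¹, ar * W⁻¹, hWX, ?_, ?_⟩
  · rw [Matrix.mul_assoc, Matrix.nonsing_inv_mul _ hdet, Matrix.mul_one]
  · rw [← Matrix.mul_assoc, ← Matrix.mul_assoc, ← Matrix.sub_mul, ← hNW, Matrix.mul_assoc,
      Matrix.mul_nonsing_inv _ hdet, Matrix.mul_one]

end Pool.Agent.H81SSE
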