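import Pool.Agent.H81SSE.TypeI

/-!
# Linking orthogonal rank-one bulks: large row or large column
-/

set_option autoImplicit false
set_option linter.unusedSectionVars false

namespace Pool.Agent.H81SSE

open Matrix

section

variable {ι κ : Type} [Fintype ι] [DecidableEq ι] [Fintype κ] [DecidableEq κ]

lemma U2_col (i : Unit ⊕ (ι ⊕ ι)) (j : Unit) : (U2 ι * Matrix.fromRows (1 : Matrix Unit Unit ℤ)
    (0 : Matrix ι Unit ℤ)) i j = 1 := by
  rw [U2, Matrix.fromRows_mul, Matrix.fromRows_mul, Matrix.fromCols_mul_fromRows,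
    Matrix.fromCols_mul_fromRows, Matrix.fromCols_mul_fromRows]
  simp only [Matrix.mul_one, Matrix.mul_zero, add_zero]
  rcases i with i | i | i
  · simp
  · simp [ones]
  · simp [ones]

lemma al2_ge (K M : ℤ) (h : K ≤ M - 2 * (Fintype.card ι : ℤ) * K) (i : Unit)
    (j : Unit ⊕ (ι ⊕ ι)) : K ≤ al2 ι K M i j := by
  rw [al2]
  rcases j with j | j | j
  · simpa using h
  · simp [ones]
  · simp [ones]

lemma al2_row (K M : ℤ) : al2 ι K M * U2 ι =
    M • (Matrix.fromCols (Matrix.of fun _ _ => 1) 0 : Matrix Unit (Unit ⊕ ι) ℤ) := by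
  rw [al2_mul_U2]
  ext i j
  rcases j with j | j
  · rw [Matrix.smul_apply, Matrix.fromCols_apply_inl, Matrix.fromCols_apply_inl]
    simp
  · rw [Matrix.smul_apply, Matrix.fromCols_apply_inr, Matrix.fromCols_apply_inr]
    simp

/-- The canonical matrices of two small parts that are equivalent over `ℤ`. -/
lemma canonical_link (N : Matrix ι ι ℤ) (N' : Matrix κ κ ℤ)
    (h : GC ⟨ι, inferInstance, inferInstance, N⟩ ⟨κ, inferInstance, inferInstance, N'⟩) :
    ∃ K₀ c₀ : ℤ, ∀ K M : ℤ, K₀ ≤ K → c₀ ≤ M → K ≤ M - 2 * (Fintype.card ι : ℤ) * K →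
      K ≤ M - 2 * (Fintype.card κ : ℤ) * K → QQ (RM N K M) (RM N' K M) := by
  obtain ⟨K₀, c₀, g⟩ := (eqv_good (lift_eqv 1 h)).2 (by rw [lift_s]; norm_num) _ _
    (U2 ι) (W2 ι) (U2 κ) (W2 κ) W2_mul_U2 W2_mul_U2
    (fun i j => le_of_eq (U2_col i j).symm) (fun i j => le_of_eq (U2_col i j).symm)
  refine ⟨K₀, c₀, fun K M hK hM h1 h2 => ?_⟩
  exact g M hM (al2 ι K M) (al2 κ K M) (fun i j => hK.trans (al2_ge K M h1 i j))
    (fun i j => hK.trans (al2_ge K M h2 i j)) (al2_row K M) (al2_row K M)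

/-- Two matrices with large rows. -/
lemma link_rows [Nonempty ι] [Nonempty κ] (N : Matrix ι ι ℤ) (N' : Matrix κ κ ℤ)
    (h : GC ⟨ι, inferInstance, inferInstance, N⟩ ⟨κ, inferInstance, inferInstance, N'⟩) :
    ∃ K₁ : ℤ, ∀ (x : Matrix ι Unit ℤ) (b : Matrix Unit ι ℤ) (x' : Matrix κ Unit ℤ)
      (b' : Matrix Unit κ ℤ), N * x = 0 → b * N = 0 → N' * x' = 0 → b' * N' = 0 →
      (∀ i j, 1 ≤ x i j) → (∀ i j, 1 ≤ x' i j) → (∀ i j, K₁ ≤ b i j) → (∀ i j, K₁ ≤ b' i j) →
      (b * x) () () = (b' * x') () () → QQ (x * b + N) (x' * b' + N') := by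
  obtain ⟨K₀, c₀, g⟩ := canonical_link N N' h
  obtain ⟨r1, hr1, hr1'⟩ := exists_bound (fun p : ι × ι => |N p.1 p.2|)
  obtain ⟨r2, hr2, hr2'⟩ := exists_bound (fun p : κ × κ => |N' p.1 p.2|)
  set r := max 1 (max r1 r2) with hr
  have hra : 1 ≤ r := le_max_left _ _
  have hrb : r1 ≤ r := (le_max_left _ _).trans (le_max_right _ _)
  have hrc : r2 ≤ r := (le_max_right _ _).trans (le_max_right _ _)
  set K := max r K₀ with hK
  have hKr : r ≤ K := le_max_left _ _
  have hK0 : K₀ ≤ K := le_max_right _ _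
  have hKp : 0 < K := by linarith
  have hn1 : (0 : ℤ) ≤ (Fintype.card ι : ℤ) := Int.natCast_nonneg _
  have hn2 : (0 : ℤ) ≤ (Fintype.card κ : ℤ) := Int.natCast_nonneg _
  have hm1 : 0 ≤ (Fintype.card ι : ℤ) * K := mul_nonneg hn1 hKp.le
  have hm2 : 0 ≤ (Fintype.card κ : ℤ) * K := mul_nonneg hn2 hKp.le
  refine ⟨max c₀ (K + 2 * (Fintype.card ι : ℤ) * K + 2 * (Fintype.card κ : ℤ) * K),
    fun x b x' b' h1 h2 h3 h4 hx hx' hb hb' hM => ?_⟩
  have hb1 : ∀ i j, K + 2 * (Fintype.card ι : ℤ) * K + 2 * (Fintype.card κ : ℤ) * K ≤ b i j :=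
    fun i j => (le_max_right _ _).trans (hb i j)
  have hb2 : ∀ i j, K + 2 * (Fintype.card ι : ℤ) * K + 2 * (Fintype.card κ : ℤ) * K ≤ b' i j :=
    fun i j => (le_max_right _ _).trans (hb' i j)
  have q1 := typeI_canonical N r hra (fun i j => (hr1' (i, j)).trans hrb) K hKr x b h1 h2 hx
    (fun i j => by linarith [hb1 i j])
  have q2 := typeI_canonical N' r hra (fun i j => (hr2' (i, j)).trans hrc) K hKr x' b' h3 h4 hx'
    (fun i j => by linarith [hb2 i j])
  rw [← hM] at q2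
  obtain ⟨i0⟩ := (inferInstance : Nonempty ι)
  have hMb : ∀ j, b () j ≤ (b * x) () () := by
    intro j
    rw [Matrix.mul_apply]
    have h5 : b () j * x j () ≤ ∑ k, b () k * x k () :=
      Finset.single_le_sum (f := fun k => b () k * x k ())
        (fun k _ => mul_nonneg (by linarith [hb1 () k]) (by linarith [hx k ()]))
        (Finset.mem_univ j)
    have h6 := hx j ()
    have h7 := hb1 () j
    nlinarith
  have hM1 := hMb i0
  have hM2 : c₀ ≤ b () i0 := (le_max_left _ _).trans (hb () i0)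
  have hM3 := hb1 () i0
  have q3 := g K ((b * x) () ()) hK0 (by linarith) (by linarith) (by linarith)
  exact q1.trans (q3.trans q2.symm)

lemma fr_transpose {α β : Type} [Fintype α] [Fintype β] (A : Matrix α β ℤ) :
    fr Aᵀ = (fr A)ᵀ := rfl

lemma QQ.transpose {α β : Type} [Fintype α] [Fintype β] {A : Matrix α α ℤ} {B : Matrix β β ℤ}
    (h : QQ A B) : QQ Aᵀ Bᵀ := by
  have key : ∀ {X Y : Σ n : ℕ, Matrix (Fin n) (Fin n) ℕ}, Relation.TransGen Elem X Y →
      Relation.TransGen Elem ⟨X.1, X.2ᵀ⟩ ⟨Y.1, Y.2ᵀ⟩ := by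
    intro X Y h
    have e : ∀ {X Y : Σ n : ℕ, Matrix (Fin n) (Fin n) ℕ}, Elem X Y →
        Elem ⟨X.1, X.2ᵀ⟩ ⟨Y.1, Y.2ᵀ⟩ := by
      rintro X Y ⟨R, S, h1, h2⟩
      exact ⟨Sᵀ, Rᵀ, by rw [h1, Matrix.transpose_mul], by rw [h2, Matrix.transpose_mul]⟩
    induction h with
    | single h => exact Relation.TransGen.single (e h)
    | tail _ h2 ih => exact ih.tail (e h2)
  exact key h

lemma GC.transpose_aux {X Y : GMat} (h : GC X Y) :
    GC ⟨X.ι, X.fin, X.dec, X.Nᵀ⟩ ⟨Y.ι, Y.fin, Y.dec, Y.Nᵀ⟩ := by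
  induction h with
  | rel X Y h =>
    obtain ⟨R, S, h1, h2⟩ := h
    exact Relation.EqvGen.rel _ _ ⟨Sᵀ, Rᵀ, by rw [h1, Matrix.transpose_mul],
      by rw [h2, Matrix.transpose_mul]⟩
  | refl _ => exact Relation.EqvGen.refl _
  | symm _ _ _ ih => exact Relation.EqvGen.symm _ _ ih
  | trans _ _ _ _ _ ih1 ih2 => exact Relation.EqvGen.trans _ _ _ ih1 ih2

/-- Two matrices with large columns. -/
lemma link_cols [Nonempty ι] [Nonempty κ] (N : Matrix ι ι ℤ) (N' : Matrix κ κ ℤ)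
    (h : GC ⟨ι, inferInstance, inferInstance, N⟩ ⟨κ, inferInstance, inferInstance, N'⟩) :
    ∃ K₁ : ℤ, ∀ (x : Matrix ι Unit ℤ) (b : Matrix Unit ι ℤ) (x' : Matrix κ Unit ℤ)
      (b' : Matrix Unit κ ℤ), N * x = 0 → b * N = 0 → N' * x' = 0 → b' * N' = 0 →
      (∀ i j, 1 ≤ b i j) → (∀ i j, 1 ≤ b' i j) → (∀ i j, K₁ ≤ x i j) → (∀ i j, K₁ ≤ x' i j) →
      (b * x) () () = (b' * x') () () → QQ (x * b + N) (x' * b' + N') := by
  obtain ⟨K₁, g⟩ := link_rows Nᵀ N'ᵀ (GC.transpose_aux h)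
  refine ⟨K₁, fun x b x' b' h1 h2 h3 h4 hb hb' hx hx' hM => ?_⟩
  have q := g bᵀ xᵀ b'ᵀ x'ᵀ (by rw [← Matrix.transpose_mul, h2, Matrix.transpose_zero])
    (by rw [← Matrix.transpose_mul, h1, Matrix.transpose_zero])
    (by rw [← Matrix.transpose_mul, h4, Matrix.transpose_zero])
    (by rw [← Matrix.transpose_mul, h3, Matrix.transpose_zero])
    (fun i j => hb j i) (fun i j => hb' j i) (fun i j => hx j i) (fun i j => hx' j i)
    (by rw [← Matrix.transpose_mul, ← Matrix.transpose_mul]; exact hM)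
  have q' := q.transpose
  rw [Matrix.transpose_add, Matrix.transpose_add, Matrix.transpose_mul, Matrix.transpose_mul,
    Matrix.transpose_transpose, Matrix.transpose_transpose, Matrix.transpose_transpose,
    Matrix.transpose_transpose, Matrix.transpose_transpose, Matrix.transpose_transpose] at q'
  exact q'

/-- The doubled small part. -/
def dbl (N : Matrix ι ι ℤ) : Matrix (ι ⊕ (ι ⊕ ι)) (ι ⊕ (ι ⊕ ι)) ℤ :=
  (Matrix.fromRows 1 (Matrix.fromRows 0 (-1)) : Matrix (ι ⊕ (ι ⊕ ι)) ι ℤ) * N *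
    (Matrix.fromCols 1 (Matrix.fromCols (-1) 0) : Matrix ι (ι ⊕ (ι ⊕ ι)) ℤ)

lemma dbl_gc (N : Matrix ι ι ℤ) : GC ⟨ι, inferInstance, inferInstance, N⟩
    ⟨ι ⊕ (ι ⊕ ι), inferInstance, inferInstance, dbl N⟩ := by
  refine Relation.EqvGen.symm _ _ (Relation.EqvGen.rel _ _ (gel_mk _ _
    ((Matrix.fromRows 1 (Matrix.fromRows 0 (-1)) : Matrix (ι ⊕ (ι ⊕ ι)) ι ℤ) * N)
    (Matrix.fromCols 1 (Matrix.fromCols (-1) 0) : Matrix ι (ι ⊕ (ι ⊕ ι)) ℤ) rfl ?_))
  rw [← Matrix.mul_assoc, Matrix.fromCols_mul_fromRows, Matrix.fromCols_mul_fromRows]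
  simp

/-- Two integers above a bound represent all large integers. -/
lemma coin (K : ℤ) (hK : 1 ≤ K) (m : ℤ) (hm : 2 * K * (K + 1) + K * K ≤ m) :
    ∃ s t : ℤ, K ≤ s ∧ K ≤ t ∧ s * K + t * (K + 1) = m := by
  refine ⟨(m - (K + m % K) * (K + 1)) / K, K + m % K, ?_, ?_, ?_⟩
  · have h1 : m % K < K := Int.emod_lt_of_pos m (by linarith)
    have h2 : 0 ≤ m % K := Int.emod_nonneg m (by linarith)
    rw [Int.le_ediv_iff_mul_le (by linarith)]
    nlinarith
  · have h2 : 0 ≤ m % K := Int.emod_nonneg m (by linarith)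
    linarith
  · have h1 : K ∣ m - (K + m % K) * (K + 1) := by
      have h2 : m - (K + m % K) * (K + 1) = K * (m / K - K - 1 - m % K) := by
        have h3 := Int.emod_add_mul_ediv m K
        linear_combination -h3
      exact ⟨_, h2⟩
    rw [Int.ediv_mul_cancel h1]
    ring

/-- A doubled matrix with large row and large column for each large value of the pairing. -/
lemma dbl_exists [Nonempty ι] (N : Matrix ι ι ℤ) (K : ℤ) (hK : 1 ≤ K) :
    ∃ M₀ : ℤ, ∀ M : ℤ, M₀ ≤ M → ∃ (x : Matrix (ι ⊕ (ι ⊕ ι)) Unit ℤ)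
      (b : Matrix Unit (ι ⊕ (ι ⊕ ι)) ℤ), dbl N * x = 0 ∧ b * dbl N = 0 ∧
      (∀ i j, K ≤ x i j) ∧ (∀ i j, K ≤ b i j) ∧ (b * x) () () = M := by
  classical
  obtain ⟨i0⟩ := (inferInstance : Nonempty ι)
  -- base value with all entries equal to `K`, except that `g i0 = K + 1`
  set n : ℤ := (Fintype.card ι : ℤ) with hn
  set B : ℤ := n * K * K + K + (n - 1) * K * K + (n - 1) * K * K with hB
  refine ⟨B + (2 * K * (K + 1) + K * K), fun M hM => ?_⟩
  obtain ⟨s, t, hs, ht, hst⟩ := coin K hK (M - B) (by linarith)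
  -- u = K everywhere, v = K except v i0 = t; g = K except g i0 = K + 1; h = K except h i0 = s
  refine ⟨Matrix.of fun i _ => Sum.elim (fun _ => K) (Sum.elim (fun _ => K)
      (fun i => if i = i0 then t else K)) i,
    Matrix.of fun _ j => Sum.elim (fun j => if j = i0 then K + 1 else K)
      (Sum.elim (fun j => if j = i0 then s else K) (fun j => if j = i0 then K + 1 else K)) j,
    ?_, ?_, ?_, ?_, ?_⟩
  · rw [dbl, Matrix.mul_assoc]
    have h : (Matrix.fromCols 1 (Matrix.fromCols (-1) 0) : Matrix ι (ι ⊕ (ι ⊕ ι)) ℤ) *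
        (Matrix.of fun i _ => Sum.elim (fun _ => K) (Sum.elim (fun _ => K)
          (fun i => if i = i0 then t else K)) i : Matrix (ι ⊕ (ι ⊕ ι)) Unit ℤ) = 0 := by
      ext i j
      rw [Matrix.mul_apply, Fintype.sum_sum_type, Fintype.sum_sum_type]
      simp [Matrix.one_apply]
    rw [h, Matrix.mul_zero]
  · rw [dbl, ← Matrix.mul_assoc, ← Matrix.mul_assoc]
    have h : (Matrix.of fun _ j => Sum.elim (fun j => if j = i0 then K + 1 else K)
      (Sum.elim (fun j => if j = i0 then s else K) (fun j => if j = i0 then K + 1 else K)) j :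
        Matrix Unit (ι ⊕ (ι ⊕ ι)) ℤ) *
        (Matrix.fromRows 1 (Matrix.fromRows 0 (-1)) : Matrix (ι ⊕ (ι ⊕ ι)) ι ℤ) = 0 := by
      ext i j
      rw [Matrix.mul_apply, Fintype.sum_sum_type, Fintype.sum_sum_type]
      simp [Matrix.one_apply]
    rw [h, Matrix.zero_mul, Matrix.zero_mul]
  · rintro (i | i | i) j
    · simp
    · simp
    · simp only [Matrix.of_apply, Sum.elim_inr]
      split_ifs <;> linarith
  · rintro i (j | j | j)
    · simp only [Matrix.of_apply, Sum.elim_inl]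
      split_ifs <;> linarith
    · simp only [Matrix.of_apply, Sum.elim_inr, Sum.elim_inl]
      split_ifs <;> linarith
    · simp only [Matrix.of_apply, Sum.elim_inr]
      split_ifs <;> linarith
  · rw [Matrix.mul_apply, Fintype.sum_sum_type, Fintype.sum_sum_type]
    simp only [Matrix.of_apply, Sum.elim_inl, Sum.elim_inr]
    have h1 : ∀ a : ℤ, ∑ i, (if i = i0 then a else K) * K = (n - 1) * K * K + a * K := by
      intro a
      have h2 : ∀ i, (if i = i0 then a else K) * K = K * K + (if i = i0 then (a - K) * K else 0) := by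
        intro i
        split_ifs <;> ring
      rw [Finset.sum_congr rfl fun i _ => h2 i, Finset.sum_add_distrib,
        Finset.sum_ite_eq' Finset.univ i0, Finset.sum_const, Finset.card_univ]
      simp only [Finset.mem_univ, if_true, nsmul_eq_mul]
      rw [← hn]
      ring
    have h3 : ∑ i, (if i = i0 then K + 1 else K) * (if i = i0 then t else K) =
        (n - 1) * K * K + (K + 1) * t := by
      have h2 : ∀ i, (if i = i0 then K + 1 else K) * (if i = i0 then t else K) =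
          K * K + (if i = i0 then (K + 1) * t - K * K else 0) := by
        intro i
        split_ifs <;> ring
      rw [Finset.sum_congr rfl fun i _ => h2 i, Finset.sum_add_distrib,
        Finset.sum_ite_eq' Finset.univ i0, Finset.sum_const, Finset.card_univ]
      simp only [Finset.mem_univ, if_true, nsmul_eq_mul]
      rw [← hn]
      ring
    rw [h1, h1, h3]
    linear_combination hst + hB

end

end Pool.Agent.H81SSE
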