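import Pool.Agent.H81SSE.Core

/-!
# Strong shift equivalence over `ℕ` implies shift equivalence (over `ℕ` and over `ℤ`)

The proofs follow those of `Pool.Agent.Y321.SE2.Trans`.
-/

set_option autoImplicit false

namespace Pool.Agent.H81SSE

open Matrix

section

variable {k : Type} [Semiring k]

lemma pow_comm_rect {n m : Type} [Fintype n] [Fintype m] [DecidableEq n] [DecidableEq m]
    {A : Matrix n n k} {B : Matrix m m k}
    {R : Matrix n m k} (h : A * R = R * B) (l : ℕ) : A ^ l * R = R * B ^ l := by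
  induction l with
  | zero => rw [pow_zero, pow_zero, Matrix.one_mul, Matrix.mul_one]
  | succ l ih =>
    rw [pow_succ, Matrix.mul_assoc, h, ← Matrix.mul_assoc, ih, Matrix.mul_assoc, ← pow_succ]

/-- Transitivity of shift equivalence over a semiring. -/
lemma se_trans {n m p : ℕ} {A : Matrix (Fin n) (Fin n) k} {B : Matrix (Fin m) (Fin m) k}
    {C : Matrix (Fin p) (Fin p) k}
    (h1 : ∃ l, 1 ≤ l ∧ ∃ (R : Matrix (Fin n) (Fin m) k) (S : Matrix (Fin m) (Fin n) k),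
      A ^ l = R * S ∧ B ^ l = S * R ∧ A * R = R * B ∧ S * A = B * S)
    (h2 : ∃ l, 1 ≤ l ∧ ∃ (R : Matrix (Fin m) (Fin p) k) (S : Matrix (Fin p) (Fin m) k),
      B ^ l = R * S ∧ C ^ l = S * R ∧ B * R = R * C ∧ S * B = C * S) :
    ∃ l, 1 ≤ l ∧ ∃ (R : Matrix (Fin n) (Fin p) k) (S : Matrix (Fin p) (Fin n) k),
      A ^ l = R * S ∧ C ^ l = S * R ∧ A * R = R * C ∧ S * A = C * S := by
  obtain ⟨l1, hl1, R1, S1, a1, a2, a3, a4⟩ := h1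
  obtain ⟨l2, hl2, R2, S2, b1, b2, b3, b4⟩ := h2
  refine ⟨l1 + l2, by omega, R1 * R2, S2 * S1, ?_, ?_, ?_, ?_⟩
  · calc A ^ (l1 + l2) = A ^ l2 * A ^ l1 := by rw [add_comm, pow_add]
      _ = (A ^ l2 * R1) * S1 := by rw [a1, Matrix.mul_assoc]
      _ = R1 * B ^ l2 * S1 := by rw [pow_comm_rect a3]
      _ = R1 * R2 * (S2 * S1) := by rw [b1]; simp only [Matrix.mul_assoc]
  · calc C ^ (l1 + l2) = C ^ l1 * C ^ l2 := by rw [pow_add]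
      _ = (C ^ l1 * S2) * R2 := by rw [b2, Matrix.mul_assoc]
      _ = S2 * B ^ l1 * R2 := by rw [pow_comm_rect b4.symm]
      _ = S2 * S1 * (R1 * R2) := by rw [a2]; simp only [Matrix.mul_assoc]
  · rw [← Matrix.mul_assoc, a3, Matrix.mul_assoc, b3, ← Matrix.mul_assoc]
  · rw [Matrix.mul_assoc, a4, ← Matrix.mul_assoc, b4, Matrix.mul_assoc]

end

/-- A chain of elementary equivalences over `ℕ` gives a shift equivalence over `ℕ`. -/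
theorem se_of_transGen {r : (Σ n : ℕ, Matrix (Fin n) (Fin n) ℕ) →
      (Σ n : ℕ, Matrix (Fin n) (Fin n) ℕ) → Prop}
    (hr : ∀ X Y, r X Y → ∃ (R : Matrix (Fin X.1) (Fin Y.1) ℕ) (S : Matrix (Fin Y.1) (Fin X.1) ℕ),
      X.2 = R * S ∧ Y.2 = S * R)
    {X Y : Σ n : ℕ, Matrix (Fin n) (Fin n) ℕ} (h : Relation.TransGen r X Y) :
    ∃ l, 1 ≤ l ∧ ∃ (R : Matrix (Fin X.1) (Fin Y.1) ℕ) (S : Matrix (Fin Y.1) (Fin X.1) ℕ),
      X.2 ^ l = R * S ∧ Y.2 ^ l = S * R ∧ X.2 * R = R * Y.2 ∧ S * X.2 = Y.2 * S := by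
  have h1 : ∀ X Y, r X Y → ∃ l, 1 ≤ l ∧
      ∃ (R : Matrix (Fin X.1) (Fin Y.1) ℕ) (S : Matrix (Fin Y.1) (Fin X.1) ℕ),
      X.2 ^ l = R * S ∧ Y.2 ^ l = S * R ∧ X.2 * R = R * Y.2 ∧ S * X.2 = Y.2 * S := by
    intro X Y hXY
    obtain ⟨R, S, e1, e2⟩ := hr X Y hXY
    refine ⟨1, le_refl 1, R, S, by rw [pow_one, e1], by rw [pow_one, e2], ?_, ?_⟩
    · rw [e1, e2, Matrix.mul_assoc]
    · rw [e1, e2, Matrix.mul_assoc]
  induction h with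
  | single h => exact h1 _ _ h
  | tail _ h ih => exact se_trans ih (h1 _ _ h)

/-- Shift equivalence over `ℕ` gives shift equivalence over `ℤ`. -/
theorem seZ_of_seN {n m : ℕ} {A : Matrix (Fin n) (Fin n) ℕ} {B : Matrix (Fin m) (Fin m) ℕ}
    (h : ∃ l, 1 ≤ l ∧ ∃ (R : Matrix (Fin n) (Fin m) ℕ) (S : Matrix (Fin m) (Fin n) ℕ),
      A ^ l = R * S ∧ B ^ l = S * R ∧ A * R = R * B ∧ S * A = B * S) :
    ∃ l, 1 ≤ l ∧ ∃ (R : Matrix (Fin n) (Fin m) ℤ) (S : Matrix (Fin m) (Fin n) ℤ),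
      (A.map (Nat.cast : ℕ → ℤ)) ^ l = R * S ∧ (B.map (Nat.cast : ℕ → ℤ)) ^ l = S * R ∧
      A.map (Nat.cast : ℕ → ℤ) * R = R * B.map (Nat.cast : ℕ → ℤ) ∧
      S * A.map (Nat.cast : ℕ → ℤ) = B.map (Nat.cast : ℕ → ℤ) * S := by
  obtain ⟨l, hl, R, S, e1, e2, e3, e4⟩ := h
  have hm : ∀ {a b c : ℕ} (X : Matrix (Fin a) (Fin b) ℕ) (Y : Matrix (Fin b) (Fin c) ℕ),
      (X * Y).map (Nat.cast : ℕ → ℤ) = X.map (Nat.cast : ℕ → ℤ) * Y.map (Nat.cast : ℕ → ℤ) :=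
    fun X Y => Matrix.map_mul (f := Nat.castRingHom ℤ)
  have hp : ∀ {a : ℕ} (X : Matrix (Fin a) (Fin a) ℕ) (j : ℕ),
      (X ^ j).map (Nat.cast : ℕ → ℤ) = (X.map (Nat.cast : ℕ → ℤ)) ^ j :=
    fun X j => Matrix.map_pow (f := Nat.castRingHom ℤ) X j
  refine ⟨l, hl, R.map (Nat.cast : ℕ → ℤ), S.map (Nat.cast : ℕ → ℤ), ?_, ?_, ?_, ?_⟩
  · rw [← hp, e1, hm]
  · rw [← hp, e2, hm]
  · rw [← hm, e3, hm]
  · rw [← hm, e4, hm]

end Pool.Agent.H81SSE
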