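import Pool.Agent.H81SSE.Chk

/-!
# Explicit chains for the pairs `[[1, k], [k - 1, 1]]`, `[[1, k (k - 1)], [1, 1]]`

Each entry `(n, R, S)` is an elementary equivalence `R S ~ S R`, where `S R` has size `n`.
-/

set_option autoImplicit false

namespace Pool.Agent.H81SSE.Pairs

open Pool.Agent.H81SSE.Chk

/-- The chain for `c4`. -/
def c4 : List (ℕ × List (List ℕ) × List (List ℕ)) := [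
  (3, [[1, 0, 4], [2, 1, 1]], [[1, 0], [1, 0], [0, 1]]),
  (3, [[4, 0, 1], [4, 0, 1], [1, 1, 1]], [[0, 0, 1], [1, 1, 0], [1, 0, 0]]),
  (4, [[1, 0, 1, 1], [2, 4, 4, 0], [1, 4, 0, 0]], [[0, 0, 1], [1, 0, 0], [1, 0, 0], [0, 1, 0]]),
  (4, [[0, 1, 1, 0], [1, 1, 0, 1], [1, 1, 0, 1], [0, 2, 1, 4]], [[0, 0, 0, 1], [1, 0, 0, 0], [0, 4, 0, 0], [0, 0, 1, 0]]),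
  (4, [[1, 4, 0, 1], [0, 0, 0, 1], [4, 4, 4, 0], [1, 1, 1, 0]], [[0, 1, 0, 0], [0, 0, 0, 1], [1, 0, 0, 0], [0, 1, 1, 0]]),
  (4, [[0, 0, 1, 0], [1, 0, 0, 0], [0, 0, 0, 1], [0, 1, 0, 1]], [[1, 1, 1, 0], [3, 0, 4, 0], [0, 0, 0, 1], [1, 4, 0, 1]]),
  (4, [[1, 0, 0, 0], [0, 0, 0, 1], [0, 1, 0, 0], [1, 0, 1, 0]], [[1, 0, 1, 1], [0, 1, 0, 1], [3, 1, 0, 0], [0, 0, 3, 4]]),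
  (4, [[0, 1, 0, 0], [0, 0, 1, 0], [0, 0, 0, 1], [1, 1, 0, 0]], [[2, 2, 3, 0], [2, 1, 1, 0], [1, 0, 1, 1], [3, 0, 0, 1]]),
  (4, [[0, 1, 2, 3], [0, 1, 1, 1], [1, 1, 0, 1], [1, 2, 0, 0]], [[1, 0, 0, 0], [0, 2, 0, 0], [0, 0, 1, 0], [0, 0, 0, 1]]),
  (5, [[1, 0, 0, 0, 1], [0, 0, 1, 0, 0], [0, 0, 0, 1, 0], [0, 1, 0, 0, 0]], [[0, 0, 2, 2], [1, 2, 0, 0], [0, 2, 2, 2], [1, 1, 0, 1], [0, 1, 0, 1]]),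
  (5, [[1, 0, 0, 0, 0], [0, 0, 0, 0, 1], [1, 1, 0, 0, 0], [0, 0, 0, 1, 0], [0, 0, 1, 0, 0]], [[0, 2, 0, 2, 0], [0, 0, 2, 0, 0], [0, 1, 1, 0, 0], [1, 1, 1, 0, 1], [1, 0, 2, 0, 1]]),
  (5, [[0, 1, 0, 0, 0], [1, 0, 0, 0, 0], [0, 0, 0, 1, 0], [0, 0, 0, 1, 1], [0, 0, 1, 0, 0]], [[2, 2, 0, 0, 0], [0, 0, 0, 2, 2], [3, 2, 1, 0, 0], [1, 1, 0, 0, 1], [1, 0, 1, 0, 0]]),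
  (5, [[0, 0, 0, 1, 0], [0, 0, 0, 0, 1], [0, 1, 0, 1, 0], [1, 0, 0, 0, 0], [0, 0, 1, 0, 0]], [[1, 1, 1, 0, 0], [0, 1, 0, 1, 0], [0, 1, 0, 1, 0], [2, 2, 0, 0, 0], [0, 0, 2, 2, 2]]),
  (5, [[0, 1, 2, 0, 1], [1, 0, 0, 0, 1], [1, 0, 0, 0, 1], [0, 0, 2, 0, 2], [2, 2, 0, 2, 0]], [[1, 0, 0, 0, 0], [0, 1, 0, 0, 0], [0, 0, 0, 1, 0], [0, 0, 1, 1, 0], [0, 0, 0, 0, 1]]),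
  (5, [[1, 0, 1, 1, 0], [1, 0, 0, 0, 1], [2, 0, 1, 0, 0], [3, 0, 1, 0, 1], [0, 2, 0, 2, 2]], [[0, 0, 0, 0, 1], [0, 0, 0, 1, 0], [0, 0, 2, 0, 0], [0, 1, 0, 0, 0], [1, 0, 0, 0, 0]]),
  (5, [[0, 2, 2, 0, 2], [2, 0, 1, 1, 0], [2, 0, 0, 2, 0], [1, 0, 1, 0, 0], [0, 0, 0, 1, 1]], [[1, 0, 0, 0, 0], [0, 1, 0, 0, 0], [0, 0, 0, 0, 1], [1, 0, 1, 0, 0], [0, 0, 0, 1, 0]]),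
  (5, [[0, 1, 0, 0, 0], [0, 0, 0, 1, 0], [1, 0, 0, 0, 0], [0, 0, 0, 1, 1], [0, 0, 1, 0, 0]], [[0, 0, 0, 1, 1], [0, 2, 2, 0, 2], [1, 0, 1, 0, 0], [2, 0, 1, 1, 0], [0, 2, 1, 1, 2]]),
  (5, [[0, 0, 0, 1, 0], [1, 0, 0, 0, 0], [0, 1, 0, 0, 0], [0, 0, 1, 0, 0], [0, 0, 0, 1, 1]], [[2, 0, 2, 2, 0], [1, 1, 0, 0, 0], [1, 2, 0, 1, 1], [0, 0, 1, 1, 1], [1, 0, 1, 2, 0]]),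
  (5, [[1, 1, 0, 0, 0], [0, 0, 1, 0, 0], [0, 0, 0, 1, 0], [0, 0, 0, 0, 1], [1, 0, 0, 0, 0]], [[0, 1, 2, 1, 0], [0, 1, 0, 1, 0], [1, 0, 0, 1, 0], [2, 0, 1, 2, 1], [0, 1, 1, 1, 1]]),
  (5, [[0, 1, 0, 0, 0], [0, 0, 0, 0, 1], [1, 0, 0, 0, 0], [1, 0, 1, 0, 0], [0, 0, 0, 1, 0]], [[1, 1, 0, 0, 1], [0, 0, 1, 2, 1], [2, 1, 0, 1, 1], [1, 0, 1, 1, 1], [0, 0, 1, 0, 1]]),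
  (5, [[0, 1, 0, 0, 0], [1, 0, 0, 0, 0], [0, 0, 0, 1, 1], [0, 0, 1, 0, 0], [0, 0, 0, 0, 1]], [[3, 0, 2, 1, 0], [0, 1, 0, 1, 1], [2, 1, 1, 1, 0], [0, 2, 1, 0, 1], [1, 0, 0, 1, 0]]),
  (5, [[0, 0, 1, 0, 0], [0, 0, 0, 1, 0], [0, 0, 0, 1, 1], [1, 0, 0, 0, 0], [0, 1, 0, 0, 0]], [[2, 0, 0, 1, 2], [0, 1, 1, 0, 0], [0, 3, 1, 2, 2], [1, 0, 1, 0, 1], [0, 2, 0, 1, 0]]),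
  (5, [[0, 0, 0, 1, 0], [1, 0, 0, 0, 0], [1, 0, 1, 0, 0], [0, 1, 0, 0, 0], [0, 0, 0, 0, 1]], [[0, 0, 0, 2, 1], [0, 1, 1, 1, 1], [2, 2, 0, 2, 0], [1, 2, 2, 0, 0], [1, 0, 0, 2, 0]]),
  (5, [[0, 0, 0, 1, 0], [0, 0, 1, 0, 0], [0, 1, 0, 0, 1], [1, 0, 0, 0, 0], [0, 0, 0, 0, 1]], [[4, 0, 2, 1, 0], [2, 0, 0, 1, 0], [2, 1, 1, 0, 1], [0, 2, 0, 0, 1], [0, 2, 0, 1, 0]]),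
  (5, [[0, 0, 1, 1, 0], [0, 0, 1, 0, 0], [0, 1, 0, 0, 0], [1, 0, 0, 0, 0], [0, 0, 0, 0, 1]], [[0, 0, 2, 0, 1], [0, 1, 1, 2, 2], [1, 0, 0, 2, 0], [0, 2, 0, 2, 2], [1, 0, 2, 0, 0]]),
  (5, [[2, 0, 1, 0, 0], [1, 0, 2, 1, 1], [0, 1, 0, 1, 1], [0, 0, 2, 2, 1], [2, 1, 0, 1, 0]], [[0, 1, 0, 0, 0], [0, 0, 0, 1, 0], [0, 0, 0, 0, 1], [0, 0, 1, 0, 0], [2, 0, 0, 0, 0]]),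
  (5, [[1, 2, 0, 0, 1], [0, 2, 1, 0, 1], [2, 0, 1, 1, 0], [0, 0, 0, 1, 1], [4, 2, 0, 0, 0]], [[1, 0, 0, 0, 0], [0, 0, 1, 0, 0], [0, 0, 0, 1, 0], [0, 1, 0, 0, 0], [0, 0, 0, 1, 1]]),
  (5, [[0, 0, 0, 1, 0], [1, 0, 0, 0, 0], [0, 1, 0, 0, 0], [0, 0, 0, 0, 1], [0, 0, 1, 1, 0]], [[2, 0, 1, 1, 0], [0, 0, 0, 1, 1], [3, 0, 0, 1, 0], [1, 2, 0, 0, 1], [0, 2, 1, 0, 1]]),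
  (5, [[0, 0, 1, 1, 1], [0, 1, 1, 1, 0], [0, 0, 1, 3, 0], [2, 1, 0, 2, 0], [2, 1, 0, 0, 1]], [[1, 0, 0, 0, 0], [0, 0, 1, 0, 0], [0, 0, 0, 0, 1], [0, 0, 0, 1, 0], [0, 1, 0, 1, 0]]),
  (5, [[1, 0, 1, 1, 0], [0, 0, 3, 1, 0], [1, 1, 0, 0, 1], [0, 1, 2, 0, 1], [0, 0, 3, 1, 2]], [[0, 0, 0, 0, 1], [1, 0, 0, 0, 0], [0, 0, 0, 1, 0], [0, 0, 1, 0, 0], [1, 1, 0, 0, 0]]),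
  (5, [[2, 2, 0, 1, 0], [0, 0, 0, 1, 1], [1, 2, 1, 0, 0], [1, 0, 1, 0, 1], [0, 2, 0, 2, 1]], [[0, 0, 0, 0, 1], [0, 0, 1, 0, 0], [0, 1, 0, 0, 0], [0, 0, 1, 1, 0], [1, 0, 0, 0, 0]]),
  (5, [[1, 1, 0, 2, 0], [0, 1, 1, 0, 1], [1, 0, 0, 1, 0], [1, 1, 2, 0, 2], [0, 1, 0, 1, 2]], [[0, 0, 0, 0, 1], [0, 2, 0, 0, 0], [0, 0, 1, 0, 0], [0, 0, 0, 1, 0], [1, 0, 0, 0, 0]]),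
  (5, [[1, 0, 1, 0, 2], [2, 0, 0, 1, 2], [0, 1, 1, 0, 0], [1, 1, 0, 1, 2], [1, 1, 2, 0, 0]], [[0, 1, 0, 0, 0], [1, 0, 0, 0, 0], [0, 0, 0, 1, 0], [0, 0, 2, 0, 0], [0, 0, 0, 0, 1]]),
  (5, [[2, 1, 0, 0, 1], [2, 0, 0, 1, 1], [2, 1, 1, 0, 0], [0, 0, 2, 2, 0], [0, 0, 1, 2, 1]], [[0, 0, 0, 0, 1], [1, 0, 0, 1, 0], [0, 1, 0, 0, 0], [0, 0, 1, 0, 0], [1, 0, 0, 0, 0]]),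
  (5, [[0, 0, 0, 1, 0], [0, 1, 0, 1, 0], [0, 0, 0, 0, 1], [1, 0, 0, 0, 0], [0, 0, 1, 0, 0]], [[2, 1, 1, 0, 0], [2, 1, 1, 0, 0], [2, 1, 0, 0, 1], [0, 0, 1, 2, 1], [2, 0, 0, 1, 1]]),
  (4, [[0, 1, 0, 0], [0, 1, 0, 0], [0, 0, 0, 1], [1, 0, 0, 0], [0, 0, 1, 0]], [[2, 0, 1, 0, 1], [0, 1, 0, 3, 1], [1, 0, 1, 2, 0], [0, 1, 1, 3, 0]]),
  (4, [[1, 1, 1, 0], [0, 0, 1, 3], [1, 1, 0, 2], [1, 1, 0, 3]], [[0, 1, 0, 0], [0, 0, 0, 1], [0, 1, 1, 0], [1, 0, 0, 0]]),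
  (3, [[1, 0, 3], [0, 1, 3], [1, 1, 5], [1, 1, 0]], [[0, 0, 1, 0], [1, 1, 0, 0], [0, 0, 0, 1]]),
  (2, [[5, 1], [6, 1], [0, 1]], [[0, 0, 1], [1, 1, 0]]),
  (2, [[1, 0], [1, 1]], [[0, 1], [11, 1]]),
  (2, [[0, 1], [1, 0]], [[12, 1], [1, 1]])]

/-- The chain for `c5`. -/
def c5 : List (ℕ × List (List ℕ) × List (List ℕ)) := [
  (2, [[0, 1], [1, 0]], [[4, 1], [1, 5]]),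
  (3, [[0, 1, 1], [1, 0, 0]], [[5, 1], [1, 1], [0, 3]]),
  (3, [[0, 1, 1], [0, 0, 1], [1, 0, 0]], [[3, 0, 0], [0, 4, 4], [1, 1, 1]]),
  (4, [[0, 1, 1, 0], [0, 0, 0, 1], [1, 0, 0, 0]], [[1, 1, 2], [0, 1, 3], [0, 2, 0], [4, 0, 4]]),
  (5, [[2, 1, 1, 1, 0], [2, 1, 0, 0, 1], [0, 2, 0, 0, 0], [4, 0, 4, 4, 0]], [[1, 0, 0, 0], [0, 0, 0, 1], [0, 1, 0, 0], [0, 0, 1, 0], [1, 0, 0, 0]]),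
  (5, [[0, 1, 1, 1, 1], [0, 4, 4, 2, 0], [1, 0, 0, 1, 1], [0, 0, 0, 0, 2], [0, 1, 1, 1, 1]], [[0, 0, 0, 0, 1], [0, 0, 0, 1, 0], [0, 0, 1, 0, 0], [2, 0, 0, 0, 0], [0, 1, 0, 0, 0]]),
  (5, [[0, 0, 0, 1, 0], [0, 0, 1, 0, 0], [0, 1, 0, 0, 0], [1, 0, 1, 0, 0], [0, 0, 0, 0, 1]], [[0, 2, 2, 2, 0], [1, 0, 0, 1, 1], [0, 0, 0, 0, 2], [0, 1, 1, 1, 1], [0, 4, 4, 2, 0]]),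
  (5, [[0, 0, 0, 1, 0], [1, 0, 0, 0, 0], [0, 0, 0, 0, 1], [0, 1, 0, 0, 0], [0, 0, 1, 1, 0]], [[1, 0, 1, 1, 1], [1, 1, 2, 0, 1], [0, 2, 2, 0, 0], [2, 2, 4, 0, 0], [0, 0, 0, 0, 2]]),
  (5, [[0, 1, 1, 1, 1], [1, 0, 1, 2, 1], [2, 0, 0, 2, 0], [2, 0, 1, 4, 0], [0, 0, 1, 0, 2]], [[1, 0, 0, 0, 0], [0, 1, 0, 0, 0], [0, 0, 0, 2, 0], [0, 0, 0, 0, 1], [0, 0, 1, 0, 0]]),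
  (5, [[0, 0, 1, 0, 0], [0, 1, 0, 0, 0], [0, 0, 0, 1, 1], [1, 0, 0, 0, 0], [0, 0, 0, 1, 0]], [[0, 0, 1, 0, 2], [1, 0, 1, 2, 1], [0, 1, 1, 1, 1], [2, 0, 0, 2, 0], [2, 0, 2, 6, 0]]),
  (5, [[0, 1, 0, 3, 0], [2, 1, 0, 2, 1], [1, 0, 1, 2, 0], [2, 0, 0, 0, 2], [6, 2, 0, 2, 2]], [[1, 0, 0, 0, 0], [0, 0, 0, 0, 1], [0, 1, 0, 0, 1], [0, 0, 0, 1, 0], [0, 0, 1, 0, 0]]),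
  (5, [[0, 1, 0, 0, 0], [0, 0, 0, 1, 0], [1, 1, 0, 0, 0], [0, 0, 0, 0, 1], [0, 0, 1, 0, 0]], [[8, 2, 0, 1, 3], [0, 1, 0, 3, 0], [1, 0, 1, 2, 0], [6, 2, 0, 2, 2], [2, 0, 0, 0, 2]]),
  (5, [[1, 0, 2, 4, 3], [3, 0, 1, 0, 0], [2, 1, 0, 1, 0], [2, 0, 2, 3, 2], [0, 0, 0, 1, 2]], [[0, 0, 0, 0, 1], [1, 0, 0, 0, 0], [0, 0, 0, 1, 0], [0, 2, 0, 0, 0], [0, 0, 1, 0, 0]]),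
  (5, [[1, 0, 0, 0, 2], [4, 1, 1, 0, 3], [3, 1, 2, 0, 2], [0, 1, 6, 0, 0], [1, 0, 2, 1, 0]], [[0, 0, 0, 1, 0], [0, 0, 2, 0, 0], [1, 0, 0, 0, 0], [0, 1, 0, 0, 0], [0, 0, 0, 0, 1]]),
  (5, [[0, 0, 0, 1, 0], [0, 0, 1, 0, 1], [0, 1, 0, 0, 0], [0, 0, 1, 0, 0], [1, 0, 0, 0, 0]], [[1, 0, 2, 1, 0], [1, 0, 0, 0, 2], [4, 1, 1, 0, 3], [0, 1, 6, 0, 0], [2, 1, 3, 0, 1]]),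
  (5, [[0, 0, 1, 0, 0], [0, 0, 0, 1, 0], [0, 1, 0, 0, 0], [1, 0, 0, 0, 0], [0, 0, 1, 0, 1]], [[0, 6, 1, 0, 1], [3, 1, 1, 4, 1], [0, 2, 1, 1, 0], [2, 0, 0, 1, 0], [1, 1, 0, 1, 1]]),
  (5, [[1, 0, 0, 0, 0], [0, 0, 1, 0, 0], [0, 0, 0, 0, 1], [0, 1, 0, 0, 0], [0, 1, 0, 1, 0]], [[0, 1, 1, 6, 1], [1, 0, 2, 0, 0], [4, 1, 4, 1, 1], [0, 0, 0, 1, 1], [1, 1, 0, 2, 0]]),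
  (5, [[0, 0, 0, 1, 0], [1, 0, 0, 0, 0], [0, 0, 1, 0, 1], [0, 1, 0, 0, 0], [0, 0, 0, 0, 1]], [[1, 0, 0, 0, 2], [0, 2, 0, 1, 0], [3, 0, 0, 1, 4], [0, 7, 1, 1, 1], [1, 2, 1, 0, 0]]),
  (5, [[0, 0, 0, 1, 1], [0, 1, 2, 0, 0], [0, 1, 0, 1, 3], [1, 1, 7, 2, 0], [1, 0, 2, 0, 1]], [[0, 0, 1, 0, 0], [0, 1, 0, 0, 0], [1, 0, 0, 0, 0], [0, 0, 0, 0, 1], [0, 0, 0, 1, 1]]),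
  (5, [[0, 1, 0, 0, 0], [0, 0, 0, 0, 1], [0, 0, 1, 0, 0], [1, 0, 0, 0, 0], [0, 0, 1, 1, 0]], [[1, 0, 2, 0, 1], [0, 1, 0, 1, 3], [0, 0, 0, 1, 1], [2, 1, 9, 1, 0], [0, 1, 2, 0, 0]]),
  (5, [[1, 1, 0, 3, 0], [0, 3, 1, 2, 1], [0, 1, 0, 1, 1], [2, 0, 1, 8, 1], [0, 0, 1, 1, 0]], [[0, 1, 0, 0, 0], [0, 0, 0, 1, 0], [0, 0, 1, 0, 1], [0, 0, 1, 0, 0], [1, 0, 0, 0, 0]]),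
  (5, [[0, 1, 0, 0, 1], [0, 0, 0, 1, 0], [0, 0, 0, 0, 1], [1, 0, 0, 0, 0], [0, 0, 1, 0, 0]], [[0, 1, 0, 1, 1], [0, 2, 0, 0, 0], [1, 1, 0, 3, 0], [2, 0, 1, 8, 1], [0, 1, 1, 2, 1]]),
  (5, [[1, 1, 0, 0, 1], [2, 0, 0, 0, 0], [1, 2, 1, 1, 0], [0, 5, 2, 3, 1], [1, 1, 0, 1, 1]], [[0, 0, 0, 1, 0], [1, 0, 0, 0, 0], [0, 1, 0, 0, 0], [1, 0, 0, 0, 1], [0, 0, 1, 0, 0]]),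
  (5, [[0, 0, 1, 0, 0], [0, 0, 0, 1, 0], [0, 2, 0, 0, 0], [0, 0, 0, 0, 1], [1, 0, 0, 0, 0]], [[1, 2, 1, 1, 0], [1, 0, 0, 0, 0], [0, 5, 2, 3, 1], [1, 1, 0, 0, 1], [2, 2, 0, 1, 2]]),
  (5, [[0, 0, 1, 0, 1], [0, 0, 1, 0, 0], [0, 1, 0, 0, 0], [1, 0, 0, 0, 0], [0, 0, 0, 1, 0]], [[1, 0, 1, 1, 0], [1, 4, 0, 5, 3], [0, 0, 1, 0, 0], [2, 0, 2, 2, 1], [0, 2, 0, 2, 1]]),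
  (4, [[1, 1, 0, 1], [0, 5, 3, 1], [1, 0, 0, 0], [2, 2, 1, 2], [0, 2, 1, 0]], [[0, 1, 0, 0, 0], [1, 0, 1, 0, 0], [0, 0, 0, 1, 0], [0, 0, 0, 0, 1]]),
  (4, [[0, 3, 2, 1], [2, 0, 1, 1], [2, 1, 1, 2], [0, 1, 1, 0]], [[1, 0, 0, 0], [0, 1, 1, 0], [0, 1, 0, 0], [0, 0, 0, 1]]),
  (4, [[0, 1, 0, 0], [1, 0, 1, 0], [0, 0, 0, 1], [0, 0, 1, 0]], [[4, 0, 1, 3], [0, 3, 2, 1], [0, 1, 1, 0], [2, 0, 1, 1]]),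
  (4, [[4, 0, 1, 2], [0, 3, 2, 2], [0, 1, 1, 0], [2, 0, 1, 0]], [[0, 1, 0, 0], [1, 0, 0, 0], [0, 0, 1, 1], [0, 0, 1, 0]]),
  (4, [[0, 3, 2, 1], [4, 0, 1, 1], [2, 1, 2, 0], [0, 1, 1, 0]], [[1, 0, 0, 0], [0, 1, 0, 0], [0, 0, 1, 0], [0, 0, 0, 2]]),
  (4, [[1, 0, 0, 1], [0, 1, 0, 0], [0, 0, 1, 0], [1, 0, 0, 0]], [[0, 2, 2, 0], [4, 0, 1, 1], [2, 1, 2, 0], [0, 1, 0, 1]]),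
  (4, [[0, 2, 0, 2], [2, 0, 5, 1], [1, 1, 2, 2], [0, 1, 1, 0]], [[0, 0, 0, 2], [0, 1, 0, 0], [1, 0, 0, 0], [0, 0, 1, 0]]),
  (5, [[0, 2, 0, 0, 2], [2, 5, 1, 0, 0], [0, 0, 2, 2, 0], [1, 2, 2, 0, 1]], [[1, 0, 0, 0], [0, 0, 1, 0], [0, 0, 0, 1], [0, 1, 0, 0], [0, 1, 0, 0]]),
  (5, [[0, 0, 2, 2, 0], [0, 2, 0, 0, 0], [2, 0, 2, 1, 1], [1, 0, 5, 0, 2], [1, 0, 5, 0, 2]], [[0, 0, 1, 0, 0], [0, 0, 1, 1, 0], [0, 1, 0, 0, 0], [0, 0, 0, 0, 1], [1, 0, 0, 0, 0]]),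
  (5, [[1, 0, 0, 2, 1], [1, 4, 0, 3, 3], [0, 0, 2, 0, 0], [0, 4, 0, 1, 2], [2, 2, 0, 0, 0]], [[0, 0, 0, 1, 0], [0, 0, 1, 0, 0], [0, 1, 0, 0, 0], [1, 0, 1, 0, 0], [0, 0, 0, 0, 1]]),
  (5, [[0, 2, 2, 1, 0], [0, 0, 0, 0, 2], [1, 2, 3, 3, 0], [1, 0, 1, 2, 2], [2, 1, 0, 0, 0]], [[1, 0, 0, 0, 0], [0, 2, 0, 0, 0], [0, 0, 0, 0, 1], [0, 0, 0, 1, 0], [0, 0, 1, 0, 0]]),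
  (5, [[2, 0, 1, 2, 0], [0, 0, 0, 0, 2], [0, 2, 0, 1, 0], [1, 1, 2, 0, 1], [3, 1, 3, 2, 0]], [[0, 0, 1, 0, 0], [1, 0, 0, 0, 0], [0, 0, 0, 1, 0], [0, 1, 0, 0, 0], [0, 0, 0, 0, 2]]),
  (5, [[0, 0, 0, 0, 1], [1, 0, 0, 0, 0], [0, 0, 1, 0, 0], [0, 0, 0, 1, 0], [0, 1, 0, 0, 1]], [[2, 0, 1, 2, 0], [6, 0, 6, 3, 0], [1, 1, 2, 0, 1], [0, 0, 0, 0, 2], [0, 2, 0, 1, 0]]),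
  (5, [[0, 2, 0, 1, 1], [0, 3, 0, 6, 0], [1, 0, 1, 2, 0], [2, 0, 0, 0, 2], [0, 1, 2, 0, 0]], [[0, 1, 0, 0, 0], [0, 0, 0, 1, 0], [1, 0, 0, 0, 0], [0, 0, 1, 0, 1], [0, 0, 0, 0, 1]]),
  (5, [[3, 0, 0, 0, 0], [0, 1, 0, 0, 0], [0, 0, 1, 0, 0], [0, 0, 0, 0, 1], [0, 0, 0, 1, 0]], [[0, 1, 0, 2, 0], [2, 0, 0, 0, 2], [0, 2, 0, 1, 1], [0, 1, 2, 0, 0], [1, 1, 3, 2, 0]]),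
  (5, [[0, 0, 0, 1, 0], [0, 0, 1, 0, 0], [1, 0, 0, 0, 0], [0, 1, 0, 0, 0], [0, 0, 0, 1, 1]], [[0, 2, 0, 1, 1], [0, 1, 2, 0, 0], [6, 0, 0, 2, 0], [0, 1, 0, 0, 2], [3, 0, 3, 0, 0]]),
  (5, [[1, 0, 2, 0, 1], [0, 2, 1, 0, 0], [0, 0, 0, 4, 2], [2, 0, 1, 2, 0], [0, 3, 0, 3, 0]], [[0, 0, 0, 0, 1], [1, 0, 0, 0, 0], [0, 0, 1, 0, 0], [0, 0, 0, 1, 0], [0, 1, 0, 1, 0]]),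
  (5, [[0, 0, 0, 0, 3], [1, 1, 2, 0, 0], [2, 0, 0, 4, 0], [0, 2, 1, 2, 0], [0, 2, 2, 0, 2]], [[0, 0, 0, 0, 1], [1, 0, 0, 0, 0], [0, 0, 1, 0, 0], [0, 0, 0, 1, 0], [0, 1, 0, 1, 0]]),
  (5, [[2, 2, 2, 0, 0], [3, 0, 0, 0, 0], [0, 0, 0, 2, 2], [0, 2, 1, 0, 1], [0, 3, 3, 1, 1]], [[0, 0, 0, 0, 1], [0, 1, 0, 0, 0], [0, 0, 1, 0, 0], [1, 0, 0, 0, 0], [0, 0, 0, 2, 0]]),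
  (5, [[1, 0, 3, 0, 3], [0, 3, 0, 0, 0], [2, 0, 0, 0, 0], [0, 2, 2, 0, 2], [0, 0, 4, 2, 2]], [[0, 0, 0, 1, 1], [1, 0, 0, 0, 0], [0, 1, 0, 0, 0], [0, 0, 0, 0, 1], [0, 0, 1, 0, 0]]),
  (5, [[4, 6, 2, 0, 1], [3, 3, 0, 1, 0], [0, 0, 3, 0, 0], [2, 4, 0, 0, 1], [0, 0, 0, 2, 0]], [[0, 0, 0, 0, 1], [0, 0, 1, 0, 0], [0, 1, 0, 0, 0], [1, 0, 0, 0, 0], [0, 0, 0, 2, 0]]),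
  (5, [[2, 0, 0, 0, 0], [0, 3, 0, 0, 0], [1, 0, 0, 3, 3], [0, 2, 1, 4, 5], [0, 0, 2, 4, 6]], [[0, 0, 0, 1, 0], [0, 0, 1, 0, 0], [0, 1, 0, 0, 1], [1, 0, 0, 0, 0], [0, 1, 0, 0, 0]]),
  (5, [[0, 1, 0, 0, 0], [1, 0, 0, 0, 0], [0, 1, 1, 0, 0], [0, 0, 0, 1, 0], [0, 0, 0, 0, 1]], [[1, 0, 0, 3, 3], [0, 2, 1, 4, 5], [0, 1, 1, 0, 1], [2, 0, 0, 0, 0], [0, 3, 0, 0, 0]]),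
  (5, [[0, 0, 1, 0, 0], [1, 0, 0, 0, 0], [0, 0, 0, 1, 0], [0, 0, 0, 0, 2], [0, 1, 0, 0, 0]], [[2, 1, 1, 4, 5], [3, 0, 0, 0, 0], [0, 1, 0, 3, 3], [1, 1, 1, 0, 1], [0, 1, 0, 0, 0]]),
  (5, [[0, 0, 0, 0, 1], [0, 0, 1, 0, 0], [1, 0, 0, 1, 0], [0, 1, 0, 0, 0], [1, 0, 0, 0, 0]], [[1, 0, 0, 0, 0], [1, 1, 1, 1, 0], [0, 0, 3, 0, 0], [0, 3, 0, 0, 6], [1, 5, 2, 1, 8]]),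
  (5, [[0, 0, 0, 1, 0], [1, 1, 0, 1, 1], [0, 3, 3, 0, 0], [3, 0, 6, 0, 0], [5, 2, 9, 1, 1]], [[0, 0, 1, 0, 0], [0, 0, 0, 1, 0], [1, 0, 0, 0, 0], [0, 0, 0, 0, 1], [1, 1, 0, 0, 0]]),
  (5, [[0, 1, 0, 0, 0], [0, 0, 0, 1, 0], [0, 0, 0, 0, 1], [0, 0, 1, 1, 0], [1, 0, 0, 0, 0]], [[1, 1, 0, 2, 1], [0, 3, 3, 0, 0], [2, 2, 3, 1, 1], [3, 0, 6, 0, 0], [0, 0, 0, 1, 0]]),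
  (5, [[1, 0, 0, 0, 0], [0, 0, 1, 0, 0], [0, 0, 1, 1, 0], [0, 1, 0, 0, 0], [0, 0, 0, 0, 1]], [[1, 1, 2, 3, 0], [0, 3, 0, 0, 6], [0, 0, 0, 3, 3], [1, 2, 1, 0, 0], [0, 0, 1, 1, 0]]),
  (5, [[1, 1, 0, 0, 0], [0, 0, 1, 0, 0], [0, 0, 0, 0, 1], [1, 0, 0, 0, 0], [0, 0, 0, 1, 0]], [[1, 0, 3, 1, 0], [0, 3, 0, 1, 0], [0, 0, 3, 0, 6], [0, 1, 1, 1, 0], [0, 3, 0, 0, 3]]),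
  (5, [[2, 0, 1, 3, 0], [1, 0, 0, 0, 3], [0, 2, 0, 3, 0], [1, 0, 0, 1, 1], [0, 1, 0, 0, 3]], [[1, 0, 0, 0, 0], [0, 0, 0, 3, 0], [0, 1, 0, 0, 0], [0, 0, 0, 0, 1], [0, 0, 1, 0, 0]]),
  (5, [[1, 0, 0, 0, 0], [0, 0, 1, 0, 1], [0, 0, 1, 0, 0], [0, 1, 0, 0, 0], [0, 0, 0, 1, 0]], [[2, 0, 1, 3, 0], [0, 1, 0, 0, 3], [1, 0, 0, 0, 3], [0, 2, 0, 3, 0], [2, 0, 0, 3, 0]]),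
  (5, [[1, 0, 0, 1, 0], [0, 0, 1, 0, 0], [0, 0, 0, 0, 1], [0, 1, 0, 0, 0], [0, 0, 0, 1, 0]], [[0, 0, 1, 0, 0], [0, 3, 2, 0, 2], [0, 0, 1, 3, 1], [2, 3, 0, 0, 0], [1, 0, 0, 3, 0]]),
  (5, [[1, 0, 0, 0, 0], [2, 3, 0, 2, 0], [1, 0, 0, 1, 1], [0, 3, 2, 2, 0], [0, 0, 1, 1, 1]], [[0, 0, 0, 0, 1], [0, 0, 1, 0, 0], [1, 0, 0, 0, 0], [0, 0, 0, 1, 0], [0, 3, 0, 0, 0]]),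
  (5, [[0, 0, 1, 0, 1], [0, 0, 0, 1, 1], [0, 0, 0, 1, 0], [2, 3, 2, 0, 0], [6, 9, 0, 6, 0]], [[0, 0, 0, 1, 0], [0, 1, 0, 0, 0], [0, 0, 1, 0, 0], [1, 0, 0, 0, 0], [0, 0, 0, 1, 1]]),
  (5, [[2, 2, 0, 0, 1], [0, 0, 1, 1, 0], [0, 0, 1, 0, 0], [1, 0, 0, 1, 0], [2, 8, 6, 0, 4]], [[0, 0, 1, 0, 0], [1, 1, 0, 0, 0], [0, 0, 0, 1, 0], [0, 0, 0, 0, 1], [0, 1, 0, 0, 0]]),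
  (5, [[1, 0, 0, 0, 0], [1, 1, 1, 2, 1], [0, 0, 0, 1, 1], [6, 4, 4, 2, 0], [1, 0, 0, 0, 1]], [[0, 0, 1, 0, 0], [0, 1, 0, 0, 0], [0, 1, 0, 0, 1], [1, 0, 0, 0, 0], [0, 0, 0, 1, 0]]),
  (4, [[0, 1, 1, 0], [1, 1, 2, 1], [2, 2, 2, 1], [1, 0, 0, 0], [6, 0, 2, 4]], [[1, 0, 0, 0, 0], [0, 0, 0, 0, 1], [0, 0, 0, 1, 0], [0, 1, 1, 0, 0]]),
  (4, [[0, 1, 1, 0], [2, 2, 0, 6], [0, 0, 0, 1], [1, 4, 3, 3]], [[0, 0, 0, 2], [0, 0, 1, 0], [0, 1, 0, 0], [1, 0, 0, 0]]),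
  (4, [[1, 0, 0, 1], [0, 1, 0, 0], [1, 0, 0, 0], [0, 0, 1, 0]], [[2, 2, 0, 6], [0, 0, 0, 1], [0, 1, 1, 0], [0, 6, 6, 0]]),
  (3, [[2, 6, 2], [0, 1, 0], [0, 0, 1], [0, 0, 6]], [[0, 0, 0, 1], [0, 0, 1, 0], [1, 1, 0, 0]]),
  (3, [[1, 0, 0], [0, 0, 1], [0, 1, 1]], [[0, 0, 6], [2, 7, 1], [0, 0, 1]]),
  (3, [[0, 6, 0], [1, 0, 0], [0, 0, 1]], [[2, 1, 8], [0, 1, 1], [0, 1, 1]]),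
  (2, [[1, 0], [0, 1], [0, 1]], [[1, 12, 8], [1, 0, 1]])]

/-- The chain for `c6`. -/
def c6 : List (ℕ × List (List ℕ) × List (List ℕ)) := [
  (3, [[1, 0, 6], [3, 2, 1]], [[1, 0], [1, 0], [0, 1]]),
  (3, [[0, 1, 6], [0, 1, 6], [2, 1, 1]], [[1, 1, 0], [1, 0, 0], [0, 0, 1]]),
  (4, [[6, 6, 2, 0], [6, 0, 1, 0], [0, 1, 1, 2]], [[0, 0, 1], [0, 0, 1], [0, 1, 0], [1, 0, 0]]),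
  (4, [[0, 1, 2, 1], [0, 1, 2, 1], [1, 0, 0, 1], [1, 6, 0, 2]], [[6, 0, 0, 0], [0, 1, 0, 0], [0, 0, 0, 1], [0, 0, 1, 0]]),
  (4, [[12, 0, 6, 6], [2, 0, 1, 1], [0, 1, 6, 1], [0, 1, 0, 0]], [[0, 0, 1, 0], [1, 0, 0, 1], [0, 1, 0, 0], [0, 0, 0, 1]]),
  (4, [[0, 0, 0, 1], [0, 0, 1, 1], [0, 1, 0, 0], [1, 0, 0, 0]], [[0, 1, 0, 0], [2, 0, 1, 1], [12, 0, 0, 5], [0, 1, 6, 1]]),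
  (4, [[1, 0, 1, 0], [1, 1, 0, 1], [7, 0, 0, 5], [0, 6, 1, 1]], [[0, 0, 0, 1], [0, 1, 0, 0], [0, 0, 1, 0], [1, 0, 0, 1]]),
  (4, [[0, 0, 0, 1], [0, 0, 1, 0], [1, 0, 0, 0], [0, 1, 1, 0]], [[7, 0, 0, 5], [0, 5, 2, 0], [1, 1, 0, 1], [0, 6, 1, 1]]),
  (4, [[1, 0, 1, 0], [0, 0, 0, 1], [1, 0, 0, 0], [0, 1, 0, 0]], [[0, 1, 2, 1], [1, 1, 7, 0], [0, 4, 3, 6], [2, 0, 5, 0]]),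
  (4, [[0, 1, 0, 0], [0, 0, 1, 0], [0, 1, 0, 1], [1, 0, 0, 0]], [[7, 0, 2, 0], [2, 1, 0, 1], [8, 0, 1, 1], [1, 5, 0, 3]]),
  (5, [[0, 0, 0, 1, 1], [0, 0, 1, 0, 0], [0, 1, 0, 0, 0], [1, 0, 0, 0, 0]], [[3, 1, 5, 0], [1, 9, 0, 1], [1, 2, 1, 0], [0, 9, 0, 1], [0, 0, 0, 1]]),
  (5, [[0, 0, 0, 1, 0], [1, 1, 0, 0, 0], [0, 0, 0, 0, 1], [1, 0, 0, 0, 0], [0, 0, 1, 0, 0]], [[1, 0, 9, 0, 0], [0, 0, 0, 1, 1], [1, 0, 0, 0, 0], [0, 5, 1, 3, 3], [0, 1, 2, 1, 1]]),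
  (5, [[0, 0, 0, 1, 0], [0, 1, 0, 0, 0], [1, 0, 0, 0, 0], [0, 0, 1, 0, 0], [0, 1, 0, 0, 1]], [[0, 0, 0, 1, 0], [1, 0, 1, 0, 0], [8, 5, 3, 0, 1], [0, 0, 0, 1, 9], [1, 1, 0, 0, 2]]),
  (5, [[0, 1, 0, 0, 0], [0, 0, 0, 1, 1], [1, 0, 2, 3, 8], [9, 1, 3, 0, 0], [2, 0, 1, 0, 1]], [[0, 0, 0, 0, 1], [0, 0, 1, 0, 0], [0, 3, 0, 0, 0], [1, 0, 0, 0, 0], [0, 0, 0, 1, 0]]),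
  (5, [[1, 0, 1, 2, 0], [2, 1, 8, 1, 0], [0, 1, 3, 0, 0], [0, 0, 0, 0, 1], [3, 0, 0, 9, 1]], [[0, 0, 1, 0, 0], [0, 0, 0, 3, 0], [0, 0, 0, 0, 1], [1, 0, 0, 0, 0], [0, 1, 0, 0, 0]]),
  (5, [[2, 0, 0, 1, 0], [0, 0, 0, 0, 3], [0, 3, 9, 0, 1], [1, 1, 2, 0, 0], [7, 2, 1, 1, 0]], [[0, 0, 1, 0, 0], [1, 0, 0, 0, 0], [0, 0, 0, 1, 0], [0, 1, 1, 0, 0], [0, 0, 0, 0, 1]]),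
  (5, [[8, 1, 0, 0, 3], [0, 0, 1, 2, 0], [2, 0, 0, 1, 1], [5, 4, 0, 0, 3], [1, 0, 1, 7, 2]], [[0, 0, 1, 0, 0], [0, 0, 1, 0, 1], [0, 0, 0, 1, 0], [1, 0, 0, 0, 0], [0, 1, 0, 0, 0]]),
  (5, [[0, 0, 1, 1, 1], [0, 1, 8, 0, 3], [4, 0, 0, 2, 3], [1, 0, 0, 5, 3], [0, 1, 2, 0, 0]], [[0, 1, 0, 0, 0], [0, 0, 1, 0, 0], [0, 0, 0, 1, 0], [1, 0, 0, 0, 0], [1, 0, 0, 0, 1]]),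
  (5, [[3, 7, 1, 0, 0], [3, 0, 0, 2, 4], [3, 0, 0, 5, 1], [1, 1, 0, 1, 0], [1, 2, 1, 1, 0]], [[0, 0, 0, 0, 1], [0, 0, 1, 0, 0], [0, 1, 1, 0, 0], [0, 0, 0, 1, 0], [1, 0, 0, 0, 0]]),
  (5, [[1, 2, 1, 0, 0], [5, 0, 0, 1, 3], [7, 0, 0, 5, 6], [1, 1, 0, 0, 1], [0, 7, 1, 0, 2]], [[0, 0, 0, 1, 0], [0, 1, 0, 0, 0], [1, 0, 1, 0, 0], [0, 0, 0, 0, 1], [1, 0, 0, 0, 0]]),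
  (5, [[0, 0, 0, 0, 1], [0, 0, 0, 1, 0], [0, 0, 1, 0, 1], [1, 0, 0, 0, 0], [0, 1, 0, 0, 0]], [[0, 7, 1, 0, 2], [1, 2, 1, 0, 0], [7, 1, 1, 5, 5], [5, 0, 0, 1, 3], [1, 1, 0, 0, 1]]),
  (5, [[0, 0, 0, 0, 1], [1, 0, 0, 0, 0], [0, 1, 0, 1, 0], [0, 0, 1, 0, 0], [0, 1, 0, 0, 0]], [[0, 0, 1, 2, 2], [0, 1, 0, 1, 1], [1, 3, 0, 0, 5], [5, 4, 1, 0, 7], [0, 2, 1, 7, 1]]),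
  (5, [[2, 3, 0, 0, 1], [1, 0, 0, 1, 0], [0, 2, 1, 3, 0], [0, 4, 5, 4, 1], [7, 0, 0, 2, 1]], [[0, 0, 1, 0, 0], [0, 1, 0, 0, 0], [0, 0, 0, 0, 1], [1, 1, 0, 0, 0], [0, 0, 0, 1, 0]]),
  (5, [[0, 1, 0, 0, 0], [1, 0, 0, 0, 0], [1, 0, 0, 0, 1], [0, 0, 1, 0, 0], [0, 0, 0, 1, 0]], [[1, 0, 0, 1, 0], [0, 2, 1, 3, 0], [3, 3, 0, 1, 1], [0, 4, 5, 4, 1], [6, 0, 0, 1, 1]]),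
  (5, [[0, 0, 1, 1, 0], [1, 1, 3, 0, 0], [1, 0, 1, 3, 1], [3, 5, 4, 0, 1], [0, 0, 1, 6, 1]], [[3, 0, 0, 0, 0], [0, 0, 0, 0, 1], [0, 0, 1, 0, 0], [0, 1, 0, 0, 0], [0, 0, 0, 1, 0]]),
  (5, [[3, 0, 0, 3, 0], [1, 0, 1, 6, 0], [0, 1, 1, 3, 0], [2, 1, 0, 0, 1], [1, 3, 1, 0, 5]], [[0, 0, 1, 0, 0], [1, 0, 1, 0, 0], [0, 0, 0, 0, 1], [0, 0, 0, 1, 0], [0, 1, 0, 0, 0]]),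
  (5, [[0, 0, 1, 0, 0], [1, 0, 0, 1, 0], [0, 1, 0, 0, 0], [0, 0, 0, 0, 1], [1, 0, 0, 0, 0]], [[1, 0, 1, 6, 0], [1, 3, 1, 0, 5], [0, 1, 1, 3, 0], [2, 1, 0, 0, 0], [2, 1, 0, 0, 1]]),
  (5, [[0, 0, 0, 0, 1], [0, 1, 0, 0, 0], [1, 0, 0, 0, 0], [0, 0, 1, 0, 0], [0, 0, 1, 1, 0]], [[1, 1, 0, 1, 3], [8, 1, 1, 3, 0], [1, 0, 2, 1, 0], [1, 0, 0, 0, 0], [0, 1, 1, 0, 6]]),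
  (5, [[1, 0, 1, 0, 0], [0, 0, 0, 0, 1], [0, 0, 0, 1, 0], [0, 0, 1, 0, 0], [0, 1, 0, 0, 0]], [[0, 1, 4, 3, 0], [1, 1, 6, 6, 0], [0, 0, 0, 0, 1], [2, 0, 1, 0, 1], [1, 1, 3, 0, 8]]),
  (5, [[3, 1, 3, 0, 0], [7, 1, 5, 0, 1], [0, 0, 0, 1, 0], [2, 0, 1, 1, 2], [1, 1, 2, 8, 1]], [[0, 0, 1, 0, 0], [0, 0, 0, 1, 1], [0, 0, 0, 1, 0], [0, 1, 0, 0, 0], [1, 0, 0, 0, 0]]),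
  (5, [[0, 1, 0, 0, 0], [0, 9, 3, 1, 3], [1, 1, 2, 0, 1], [2, 0, 1, 1, 5], [0, 0, 0, 1, 3]], [[1, 0, 0, 0, 0], [0, 0, 0, 1, 0], [0, 0, 0, 0, 1], [0, 1, 0, 0, 0], [1, 0, 1, 0, 0]]),
  (5, [[0, 0, 1, 0, 0], [1, 2, 0, 1, 3], [1, 0, 0, 0, 3], [1, 0, 9, 3, 3], [0, 1, 2, 2, 0]], [[0, 0, 0, 1, 0], [1, 0, 0, 0, 1], [0, 1, 0, 0, 0], [0, 0, 1, 0, 0], [0, 0, 0, 0, 1]]),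
  (5, [[1, 3, 1, 9, 0], [0, 2, 0, 3, 1], [1, 1, 1, 0, 2], [1, 0, 1, 0, 0], [0, 2, 0, 2, 1]], [[0, 0, 0, 0, 3], [0, 0, 0, 1, 0], [1, 0, 0, 0, 0], [0, 0, 1, 0, 0], [0, 1, 0, 0, 0]]),
  (4, [[6, 3, 0, 6], [0, 0, 1, 0], [9, 0, 1, 3], [0, 2, 1, 1], [3, 1, 0, 2]], [[0, 0, 0, 1, 0], [0, 0, 0, 0, 1], [1, 0, 1, 0, 0], [0, 1, 0, 0, 0]]),
  (4, [[0, 1, 0, 0], [1, 0, 0, 0], [0, 1, 1, 0], [0, 0, 0, 1]], [[3, 1, 0, 2], [0, 2, 1, 1], [15, 1, 0, 8], [0, 0, 1, 0]]),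
  (4, [[0, 2, 1, 1], [1, 1, 2, 0], [0, 8, 1, 7], [1, 0, 0, 1]], [[0, 0, 1, 0], [0, 1, 0, 1], [1, 0, 0, 0], [0, 1, 0, 0]]),
  (5, [[6, 1, 7, 0, 2], [1, 2, 1, 2, 0], [1, 1, 1, 0, 1], [0, 2, 0, 1, 1]], [[0, 1, 0, 0], [0, 0, 1, 0], [0, 0, 0, 1], [1, 0, 0, 0], [0, 1, 0, 0]]),
  (5, [[1, 2, 2, 0, 0], [1, 0, 1, 1, 0], [0, 1, 2, 1, 0], [6, 0, 1, 2, 1], [1, 2, 2, 0, 0]], [[1, 0, 1, 0, 0], [0, 0, 0, 1, 0], [0, 1, 0, 0, 0], [0, 0, 0, 0, 1], [0, 0, 1, 0, 0]]),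
  (5, [[1, 0, 0, 1, 0], [0, 0, 0, 0, 1], [1, 0, 0, 0, 0], [0, 1, 0, 0, 0], [0, 0, 1, 0, 0]], [[1, 0, 1, 1, 0], [1, 2, 2, 0, 0], [0, 1, 2, 1, 0], [0, 3, 3, 0, 0], [6, 0, 1, 2, 1]]),
  (5, [[1, 0, 1, 0, 1], [1, 0, 0, 2, 3], [0, 0, 1, 1, 1], [0, 0, 0, 3, 3], [6, 1, 2, 0, 5]], [[0, 0, 0, 1, 0], [0, 0, 1, 0, 0], [1, 1, 0, 0, 0], [0, 0, 0, 0, 1], [1, 0, 0, 0, 0]]),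
  (5, [[0, 1, 0, 0, 0], [1, 0, 0, 0, 0], [1, 0, 1, 0, 0], [0, 0, 0, 1, 0], [0, 0, 0, 0, 1]], [[0, 0, 1, 1, 1], [0, 0, 0, 3, 3], [2, 0, 0, 1, 3], [6, 1, 2, 0, 5], [1, 0, 1, 0, 1]]),
  (5, [[1, 1, 0, 1, 0], [0, 0, 0, 3, 3], [0, 0, 2, 1, 3], [3, 2, 6, 0, 3], [1, 1, 1, 0, 0]], [[1, 0, 0, 0, 0], [0, 0, 1, 0, 1], [0, 1, 0, 0, 0], [0, 0, 0, 1, 0], [0, 0, 0, 0, 1]]),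
  (5, [[0, 0, 0, 1, 0], [0, 0, 0, 1, 1], [0, 1, 0, 0, 0], [0, 0, 1, 0, 0], [1, 0, 0, 0, 0]], [[1, 1, 1, 0, 0], [0, 0, 0, 3, 3], [3, 2, 6, 0, 3], [1, 1, 0, 1, 0], [0, 0, 3, 0, 3]]),
  (5, [[0, 1, 0, 0, 0], [1, 0, 0, 0, 0], [0, 0, 1, 0, 1], [0, 0, 0, 1, 0], [0, 0, 1, 0, 0]], [[3, 0, 3, 0, 0], [0, 1, 0, 2, 1], [3, 3, 0, 0, 0], [0, 0, 1, 2, 1], [0, 3, 0, 5, 2]]),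
  (5, [[3, 0, 0, 1, 3], [1, 1, 2, 0, 0], [0, 3, 0, 1, 0], [2, 0, 2, 0, 1], [2, 3, 5, 0, 0]], [[0, 0, 1, 0, 0], [1, 0, 0, 0, 0], [0, 0, 0, 1, 0], [0, 3, 0, 0, 0], [0, 0, 0, 0, 1]]),
  (5, [[0, 0, 1, 0, 0], [0, 1, 0, 0, 0], [0, 0, 0, 0, 1], [1, 0, 0, 1, 0], [1, 0, 0, 0, 0]], [[2, 3, 5, 0, 0], [3, 0, 0, 1, 3], [0, 3, 0, 1, 0], [1, 0, 1, 0, 0], [2, 0, 2, 0, 1]]),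
  (5, [[0, 1, 0, 1, 0], [0, 0, 1, 0, 0], [1, 0, 0, 0, 0], [0, 1, 0, 0, 0], [0, 0, 0, 0, 1]], [[1, 3, 0, 1, 0], [0, 0, 1, 0, 1], [4, 0, 3, 1, 0], [0, 3, 1, 0, 4], [1, 0, 2, 0, 2]]),
  (5, [[0, 1, 0, 0, 0], [1, 0, 0, 0, 0], [0, 0, 0, 1, 0], [0, 0, 1, 0, 0], [1, 0, 0, 0, 1]], [[1, 0, 0, 0, 1], [0, 2, 3, 1, 0], [1, 0, 3, 0, 4], [3, 5, 0, 4, 0], [1, 1, 0, 1, 1]]),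
  (5, [[1, 0, 1, 0, 0], [0, 3, 0, 2, 1], [4, 3, 1, 3, 0], [0, 0, 3, 2, 4], [1, 0, 1, 1, 1]], [[0, 0, 0, 0, 1], [0, 0, 0, 1, 0], [1, 1, 0, 0, 0], [1, 0, 0, 0, 0], [0, 0, 1, 0, 0]]),
  (5, [[0, 1, 1, 1, 1], [0, 2, 0, 4, 3], [1, 2, 1, 1, 1], [0, 0, 1, 0, 1], [1, 3, 4, 0, 1]], [[0, 3, 0, 0, 0], [0, 0, 0, 1, 0], [1, 0, 0, 0, 0], [0, 0, 0, 0, 1], [0, 0, 1, 0, 0]]),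
  (5, [[9, 6, 0, 0, 12], [1, 0, 1, 0, 0], [1, 1, 1, 0, 1], [1, 2, 4, 1, 0], [1, 1, 1, 1, 1]], [[0, 0, 0, 0, 1], [0, 1, 0, 0, 0], [0, 0, 1, 0, 0], [1, 1, 0, 0, 0], [0, 0, 0, 1, 0]]),
  (5, [[1, 0, 1, 1, 1], [0, 1, 0, 0, 1], [0, 1, 1, 1, 1], [0, 10, 12, 6, 1], [1, 0, 0, 2, 4]], [[1, 0, 0, 1, 0], [1, 0, 0, 0, 0], [0, 0, 0, 0, 1], [0, 1, 0, 0, 0], [0, 0, 1, 0, 0]]),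
  (5, [[13, 6, 1, 2, 10], [1, 0, 1, 1, 0], [0, 1, 1, 4, 0], [0, 0, 0, 1, 1], [1, 1, 0, 1, 1]], [[0, 0, 1, 0, 0], [0, 0, 0, 1, 0], [1, 0, 0, 1, 0], [0, 0, 0, 0, 1], [0, 1, 0, 0, 0]]),
  (5, [[3, 1, 1, 0, 0], [1, 0, 0, 0, 1], [2, 6, 1, 13, 11], [1, 1, 0, 1, 1], [0, 0, 1, 1, 0]], [[0, 0, 0, 1, 0], [0, 1, 0, 0, 0], [0, 0, 1, 1, 0], [1, 0, 0, 0, 0], [0, 0, 0, 0, 1]]),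
  (5, [[0, 0, 0, 0, 1], [0, 1, 0, 0, 0], [0, 0, 1, 1, 0], [0, 0, 0, 1, 0], [1, 0, 0, 0, 0]], [[0, 0, 1, 1, 0], [1, 0, 0, 0, 1], [0, 6, 0, 14, 12], [3, 1, 1, 0, 0], [1, 1, 0, 1, 1]]),
  (5, [[1, 0, 0, 0, 0], [0, 0, 0, 0, 1], [0, 0, 0, 1, 0], [0, 1, 0, 0, 0], [0, 0, 1, 0, 1]], [[0, 0, 1, 2, 0], [0, 1, 1, 1, 3], [0, 1, 0, 1, 0], [12, 6, 0, 14, 0], [1, 0, 0, 0, 1]]),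
  (5, [[0, 0, 0, 0, 1], [0, 1, 0, 0, 0], [0, 0, 1, 0, 0], [1, 0, 1, 0, 0], [0, 0, 0, 1, 0]], [[12, 13, 0, 0, 5], [0, 1, 3, 1, 4], [0, 1, 0, 0, 1], [1, 0, 1, 0, 1], [0, 2, 0, 1, 0]]),
  (5, [[0, 1, 1, 0, 0], [0, 0, 0, 0, 1], [0, 0, 1, 0, 0], [1, 0, 0, 0, 0], [0, 0, 0, 1, 0]], [[0, 0, 1, 1, 1], [0, 12, 0, 4, 12], [0, 1, 0, 1, 0], [1, 2, 1, 0, 0], [1, 1, 4, 4, 0]]),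
  (5, [[0, 0, 1, 0, 0], [0, 0, 0, 0, 4], [0, 1, 0, 0, 0], [0, 0, 0, 1, 0], [1, 0, 0, 0, 0]], [[4, 1, 5, 0, 1], [1, 0, 0, 0, 1], [1, 0, 1, 1, 0], [0, 1, 2, 0, 2], [1, 0, 0, 3, 3]]),
  (5, [[1, 1, 0, 0, 0], [0, 1, 0, 0, 0], [0, 0, 0, 0, 1], [0, 0, 0, 1, 0], [0, 0, 1, 0, 0]], [[0, 5, 3, 0, 4], [1, 0, 1, 0, 0], [3, 0, 1, 3, 0], [2, 2, 0, 0, 4], [0, 1, 1, 1, 0]]),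
  (5, [[1, 0, 0, 0, 0], [0, 0, 0, 0, 1], [0, 0, 1, 1, 0], [0, 1, 0, 0, 0], [0, 0, 1, 0, 0]], [[0, 5, 4, 0, 3], [2, 4, 4, 0, 0], [0, 1, 0, 1, 1], [3, 2, 0, 2, 0], [1, 1, 0, 0, 1]]),
  (5, [[0, 0, 0, 1, 0], [1, 0, 1, 0, 0], [0, 1, 0, 0, 0], [0, 0, 0, 0, 1], [0, 0, 1, 0, 0]], [[1, 0, 3, 4, 3], [0, 1, 1, 0, 1], [1, 0, 1, 0, 1], [0, 0, 7, 4, 5], [3, 2, 0, 0, 2]]),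
  (5, [[1, 0, 0, 1, 0], [0, 0, 1, 0, 0], [1, 0, 0, 0, 0], [0, 1, 0, 0, 0], [0, 0, 0, 0, 1]], [[0, 1, 1, 1, 0], [0, 7, 5, 0, 4], [1, 1, 2, 0, 0], [0, 2, 2, 0, 4], [2, 0, 4, 3, 0]]),
  (5, [[0, 1, 0, 1, 0], [0, 0, 4, 7, 5], [1, 0, 0, 1, 3], [0, 0, 4, 2, 2], [2, 3, 0, 0, 3]], [[0, 0, 0, 1, 0], [1, 1, 0, 0, 0], [0, 0, 0, 0, 1], [0, 0, 1, 0, 0], [1, 0, 0, 0, 0]]),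
  (5, [[0, 0, 0, 1, 0], [0, 1, 0, 1, 0], [1, 0, 0, 0, 0], [0, 0, 1, 0, 0], [0, 0, 0, 0, 1]], [[2, 3, 0, 0, 3], [0, 1, 0, 6, 3], [1, 0, 0, 1, 3], [0, 0, 4, 2, 2], [0, 1, 0, 1, 0]]),
  (5, [[1, 0, 0, 0, 0], [0, 0, 0, 1, 1], [0, 0, 0, 1, 0], [0, 1, 0, 0, 0], [0, 0, 1, 0, 0]], [[0, 3, 0, 5, 3], [4, 0, 2, 0, 2], [0, 1, 1, 1, 0], [0, 0, 1, 1, 3], [0, 1, 5, 0, 0]]),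
  (5, [[0, 0, 1, 0, 1], [0, 0, 0, 1, 0], [0, 0, 0, 0, 1], [1, 0, 0, 0, 0], [0, 1, 0, 0, 0]], [[0, 1, 3, 1, 0], [0, 0, 0, 6, 1], [0, 4, 3, 1, 2], [4, 0, 2, 2, 0], [0, 1, 0, 2, 1]]),
  (5, [[0, 0, 0, 0, 1], [0, 0, 1, 0, 0], [0, 0, 0, 1, 1], [0, 1, 0, 0, 0], [1, 0, 0, 0, 0]], [[2, 1, 0, 1, 0], [2, 0, 4, 0, 6], [6, 1, 0, 0, 0], [0, 2, 0, 3, 0], [1, 0, 0, 1, 3]]),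
  (5, [[0, 0, 1, 1, 2], [2, 4, 0, 0, 6], [0, 0, 0, 1, 6], [0, 0, 3, 2, 0], [1, 0, 1, 0, 1]], [[3, 0, 0, 0, 0], [0, 0, 0, 1, 0], [0, 1, 0, 0, 0], [0, 0, 1, 0, 0], [0, 0, 0, 0, 1]]),
  (5, [[1, 0, 0, 1, 0], [0, 0, 0, 1, 0], [0, 1, 0, 0, 0], [0, 0, 0, 0, 1], [0, 0, 1, 0, 0]], [[0, 0, 0, 1, 6], [2, 4, 0, 0, 6], [1, 0, 1, 0, 1], [0, 0, 3, 2, 0], [0, 0, 0, 1, 6]]),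
  (4, [[0, 0, 1, 0], [0, 0, 0, 1], [0, 1, 0, 0], [1, 0, 0, 0], [0, 0, 1, 0]], [[0, 3, 0, 0, 2], [1, 1, 1, 1, 0], [0, 0, 6, 0, 1], [2, 0, 6, 6, 0]]),
  (5, [[0, 0, 2, 3, 0], [0, 1, 1, 1, 1], [6, 0, 1, 0, 0], [6, 6, 2, 0, 0]], [[0, 1, 0, 0], [1, 0, 0, 0], [0, 0, 1, 0], [0, 0, 0, 1], [0, 1, 0, 0]]),
  (5, [[1, 1, 1, 1, 0], [2, 0, 0, 3, 0], [1, 0, 0, 0, 1], [2, 6, 0, 0, 1], [1, 1, 1, 1, 0]], [[0, 0, 1, 0, 0], [0, 1, 0, 0, 0], [0, 0, 0, 0, 1], [0, 0, 0, 1, 0], [6, 0, 0, 0, 0]]),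
  (5, [[0, 0, 1, 0, 0], [0, 0, 0, 2, 3], [1, 1, 0, 1, 1], [0, 6, 1, 1, 0], [6, 6, 0, 6, 6]], [[0, 0, 1, 0, 0], [0, 1, 0, 0, 0], [1, 0, 0, 0, 1], [1, 0, 0, 0, 0], [0, 0, 0, 1, 0]]),
  (5, [[0, 0, 0, 0, 1], [0, 0, 1, 0, 0], [0, 1, 0, 1, 0], [1, 0, 0, 0, 0], [0, 1, 0, 0, 0]], [[0, 0, 1, 0, 0], [0, 6, 1, 1, 0], [0, 0, 0, 2, 3], [6, 0, 0, 5, 6], [1, 1, 0, 1, 1]]),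
  (5, [[0, 0, 0, 1, 1], [6, 0, 1, 1, 0], [0, 0, 2, 0, 1], [0, 6, 5, 0, 1], [1, 1, 1, 0, 0]], [[0, 0, 1, 0, 0], [0, 0, 0, 0, 1], [1, 1, 0, 0, 0], [0, 0, 0, 1, 0], [0, 1, 0, 0, 0]]),
  (5, [[1, 2, 0, 0, 0], [0, 1, 1, 0, 1], [1, 1, 4, 2, 0], [1, 5, 0, 0, 6], [0, 1, 5, 1, 0]], [[0, 0, 0, 0, 1], [0, 0, 1, 0, 0], [1, 0, 0, 0, 0], [1, 0, 0, 1, 0], [0, 1, 0, 0, 0]]),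
  (5, [[5, 1, 1, 0, 0], [4, 2, 0, 1, 0], [0, 0, 1, 1, 0], [0, 0, 5, 2, 6], [1, 0, 1, 0, 1]], [[0, 0, 1, 0, 0], [0, 0, 0, 1, 0], [0, 1, 0, 0, 0], [1, 1, 0, 0, 0], [0, 0, 0, 0, 1]]),
  (5, [[1, 1, 0, 0, 0], [5, 2, 0, 6, 0], [0, 1, 2, 0, 2], [1, 1, 3, 0, 6], [1, 0, 0, 1, 1]], [[0, 0, 1, 0, 0], [0, 0, 0, 1, 0], [1, 1, 0, 0, 0], [0, 0, 0, 0, 1], [1, 0, 0, 0, 0]]),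
  (5, [[0, 0, 0, 0, 1], [0, 0, 1, 1, 0], [1, 0, 0, 0, 0], [0, 1, 0, 0, 0], [0, 0, 0, 1, 0]], [[6, 3, 0, 6, 0], [1, 0, 0, 1, 1], [0, 0, 3, 0, 6], [1, 1, 0, 0, 0], [0, 1, 2, 0, 2]]),
  (5, [[0, 0, 0, 1, 0], [1, 0, 0, 0, 0], [0, 0, 0, 0, 3], [0, 0, 1, 0, 0], [0, 1, 0, 0, 0]], [[0, 1, 0, 1, 1], [2, 0, 1, 3, 0], [0, 0, 1, 1, 1], [0, 6, 3, 3, 6], [1, 0, 0, 2, 0]]),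
  (5, [[1, 0, 0, 0, 0], [0, 0, 1, 0, 1], [0, 0, 0, 1, 0], [0, 1, 0, 0, 0], [0, 0, 0, 0, 1]], [[1, 1, 1, 0, 0], [6, 6, 3, 0, 9], [0, 0, 1, 1, 3], [0, 1, 1, 0, 3], [0, 0, 2, 1, 0]]),
  (5, [[0, 1, 1, 0, 1], [0, 6, 15, 0, 3], [1, 0, 3, 0, 1], [0, 0, 4, 1, 1], [1, 0, 0, 0, 2]], [[0, 1, 0, 0, 0], [1, 0, 1, 0, 0], [0, 0, 0, 0, 1], [0, 0, 1, 0, 0], [0, 0, 0, 1, 0]]),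
  (5, [[1, 0, 0, 0, 0], [0, 1, 0, 1, 0], [0, 0, 0, 1, 0], [0, 0, 1, 0, 0], [0, 0, 0, 0, 1]], [[0, 6, 15, 0, 3], [0, 1, 4, 0, 0], [1, 0, 3, 0, 1], [1, 0, 0, 0, 2], [0, 0, 4, 1, 1]]),
  (5, [[0, 1, 0, 0, 1], [0, 1, 0, 0, 0], [0, 0, 1, 0, 0], [1, 0, 0, 0, 0], [0, 0, 0, 1, 0]], [[1, 0, 0, 0, 2], [0, 1, 0, 5, 0], [1, 0, 0, 3, 1], [0, 0, 1, 4, 1], [0, 5, 0, 16, 3]]),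
  (5, [[0, 0, 1, 2, 1], [0, 5, 0, 0, 1], [0, 3, 1, 1, 1], [1, 4, 0, 0, 0], [0, 16, 0, 3, 5]], [[0, 0, 1, 1, 0], [1, 0, 0, 0, 0], [0, 0, 0, 0, 1], [0, 0, 0, 1, 0], [0, 1, 0, 0, 0]]),
  (5, [[0, 1, 0, 0, 0], [1, 0, 0, 0, 0], [0, 0, 1, 1, 0], [0, 0, 0, 0, 1], [0, 0, 0, 1, 0]], [[0, 0, 1, 2, 1], [1, 7, 1, 1, 1], [0, 11, 0, 3, 4], [0, 5, 0, 0, 1], [1, 4, 0, 0, 0]]),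
  (5, [[0, 0, 2, 0, 1], [7, 1, 1, 1, 1], [11, 0, 3, 1, 0], [5, 0, 0, 1, 0], [4, 1, 0, 0, 0]], [[1, 0, 0, 0, 0], [0, 1, 0, 0, 0], [0, 0, 0, 1, 1], [0, 0, 0, 1, 0], [0, 0, 1, 0, 0]]),
  (5, [[0, 0, 2, 0, 1], [1, 6, 1, 1, 1], [1, 8, 0, 1, 0], [0, 4, 0, 1, 0], [0, 10, 3, 1, 0]], [[0, 1, 0, 0, 0], [1, 0, 0, 0, 0], [0, 0, 1, 0, 0], [1, 0, 0, 1, 0], [0, 0, 0, 0, 1]]),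
  (5, [[3, 1, 1, 1, 1], [0, 1, 0, 2, 0], [4, 0, 1, 0, 1], [2, 1, 0, 2, 1], [5, 0, 0, 3, 1]], [[0, 2, 0, 0, 0], [0, 0, 0, 0, 1], [1, 0, 0, 0, 0], [0, 0, 1, 0, 0], [0, 0, 0, 1, 0]]),
  (5, [[0, 2, 0, 4, 0], [4, 0, 1, 3, 0], [2, 1, 1, 1, 1], [3, 0, 1, 0, 1], [1, 1, 1, 2, 0]], [[1, 0, 0, 0, 0], [0, 1, 0, 0, 0], [1, 0, 0, 0, 1], [0, 0, 0, 1, 0], [0, 0, 1, 0, 0]]),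
  (5, [[2, 4, 0, 0, 0], [0, 3, 0, 1, 4], [3, 6, 0, 1, 1], [0, 0, 1, 0, 3], [1, 1, 1, 0, 2]], [[0, 1, 0, 0, 0], [0, 0, 0, 1, 0], [0, 0, 1, 0, 1], [0, 0, 1, 0, 0], [1, 0, 0, 0, 0]]),
  (5, [[1, 2, 4, 0, 0], [0, 0, 3, 1, 0], [1, 6, 3, 1, 4], [1, 5, 1, 0, 3], [0, 4, 0, 0, 2]], [[0, 1, 0, 1, 0], [0, 1, 0, 0, 0], [0, 0, 0, 0, 1], [0, 0, 1, 0, 0], [1, 0, 0, 0, 0]]),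
  (5, [[0, 1, 1, 0, 0], [0, 0, 0, 0, 1], [1, 0, 0, 0, 0], [0, 0, 0, 1, 0], [0, 1, 0, 0, 0]], [[0, 4, 0, 0, 2], [1, 2, 4, 0, 0], [0, 3, 0, 1, 3], [1, 6, 3, 1, 4], [0, 0, 3, 1, 0]]),
  (5, [[0, 0, 0, 1, 0], [0, 0, 0, 0, 1], [0, 1, 0, 0, 0], [1, 1, 0, 0, 0], [0, 0, 1, 0, 0]], [[3, 2, 1, 0, 3], [0, 3, 0, 1, 3], [3, 0, 0, 1, 0], [0, 2, 0, 0, 4], [4, 1, 1, 0, 2]]),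
  (5, [[0, 1, 0, 0, 0], [0, 0, 0, 0, 1], [0, 0, 0, 1, 0], [0, 0, 2, 0, 0], [1, 0, 0, 0, 0]], [[0, 1, 2, 4, 1], [0, 1, 3, 3, 2], [0, 0, 2, 0, 1], [1, 1, 0, 3, 0], [1, 1, 3, 0, 3]]),
  (5, [[0, 1, 0, 1, 0], [0, 0, 1, 0, 0], [0, 0, 0, 1, 0], [1, 0, 0, 0, 0], [0, 0, 0, 0, 1]], [[0, 1, 6, 0, 1], [0, 0, 8, 0, 1], [2, 0, 6, 3, 1], [1, 0, 0, 2, 0], [3, 1, 0, 3, 1]]),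
  (5, [[1, 0, 0, 0, 0], [0, 0, 0, 0, 1], [0, 1, 0, 0, 1], [0, 0, 0, 1, 0], [0, 0, 1, 0, 0]], [[0, 0, 1, 6, 1], [3, 2, 0, 0, 0], [3, 3, 1, 3, 1], [2, 1, 0, 1, 0], [0, 0, 0, 8, 1]]),
  (5, [[1, 5, 1, 1, 0], [0, 0, 0, 2, 3], [1, 2, 1, 4, 3], [0, 1, 0, 1, 2], [1, 7, 0, 0, 0]], [[0, 0, 1, 1, 0], [0, 0, 0, 1, 0], [0, 1, 0, 0, 0], [0, 0, 0, 0, 1], [1, 0, 0, 0, 0]]),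
  (5, [[5, 2, 5, 1, 1], [2, 1, 1, 0, 0], [3, 0, 2, 0, 0], [0, 6, 0, 1, 0], [0, 4, 1, 1, 1]], [[0, 0, 0, 0, 1], [0, 1, 0, 0, 0], [0, 0, 0, 1, 0], [1, 1, 0, 0, 0], [0, 0, 1, 0, 0]]),
  (5, [[1, 1, 0, 3, 1], [0, 1, 2, 1, 0], [0, 0, 0, 5, 1], [1, 6, 7, 2, 1], [0, 2, 3, 0, 0]], [[0, 0, 0, 0, 1], [0, 0, 1, 0, 0], [1, 0, 0, 0, 0], [0, 1, 0, 0, 0], [0, 1, 0, 1, 0]]),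
  (5, [[0, 1, 0, 0, 0], [1, 0, 0, 0, 0], [0, 0, 0, 0, 1], [0, 0, 0, 1, 0], [0, 0, 1, 0, 1]], [[0, 0, 0, 5, 1], [0, 2, 3, 0, 0], [0, 6, 9, 0, 0], [0, 1, 2, 1, 0], [1, 1, 0, 3, 1]]),
  (5, [[0, 5, 0, 1, 1], [2, 0, 0, 0, 1], [6, 0, 0, 0, 3], [1, 1, 0, 0, 1], [1, 3, 1, 1, 0]], [[1, 0, 0, 0, 1], [0, 0, 0, 1, 0], [0, 1, 0, 0, 0], [0, 0, 1, 0, 0], [0, 0, 0, 0, 1]]),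
  (5, [[1, 1, 0, 2, 8], [0, 1, 0, 0, 1], [0, 1, 1, 0, 0], [0, 3, 3, 0, 0], [1, 0, 1, 1, 3]], [[0, 0, 1, 0, 0], [1, 0, 0, 0, 1], [1, 0, 0, 0, 0], [0, 0, 0, 1, 0], [0, 1, 0, 0, 0]]),
  (5, [[0, 1, 0, 0, 0], [0, 1, 1, 0, 0], [1, 0, 0, 0, 0], [0, 0, 0, 0, 1], [0, 0, 0, 1, 0]], [[1, 1, 0, 2, 8], [0, 1, 1, 0, 0], [2, 0, 0, 3, 11], [0, 1, 0, 0, 1], [0, 3, 3, 0, 0]]),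
  (5, [[0, 8, 1, 2, 2], [1, 0, 1, 0, 0], [0, 11, 0, 3, 2], [0, 1, 1, 0, 1], [3, 0, 3, 0, 0]], [[1, 1, 0, 0, 0], [0, 0, 0, 1, 0], [0, 0, 1, 0, 0], [0, 0, 0, 0, 1], [0, 1, 0, 0, 0]]),
  (5, [[1, 0, 0, 0, 0], [0, 0, 1, 0, 0], [0, 0, 0, 0, 1], [0, 3, 0, 0, 0], [0, 0, 0, 1, 0]], [[1, 8, 2, 2, 2], [1, 0, 1, 0, 0], [0, 1, 1, 0, 1], [1, 0, 1, 0, 0], [0, 11, 0, 3, 2]]),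
  (4, [[1, 0, 0, 0], [0, 1, 0, 0], [0, 0, 0, 1], [0, 1, 0, 0], [0, 0, 1, 0]], [[1, 6, 8, 2, 2], [1, 0, 0, 0, 1], [0, 9, 11, 2, 0], [0, 0, 1, 1, 1]]),
  (3, [[1, 2, 8], [1, 1, 0], [0, 0, 11], [0, 1, 1]], [[1, 0, 0, 0], [0, 0, 1, 0], [0, 1, 0, 1]]),
  (3, [[1, 8, 1], [0, 11, 0], [1, 1, 1]], [[1, 1, 0], [0, 0, 1], [0, 1, 0]]),
  (2, [[19, 1], [1, 1], [11, 0]], [[0, 1, 0], [1, 0, 1]]),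
  (2, [[0, 1], [1, 0]], [[30, 1], [1, 1]])]

theorem ok4 : chk 2 [[1, 4], [3, 1]] c4 2 [[1, 12], [1, 1]] = true := by decide +kernel

theorem ok5 : chk 2 [[1, 5], [4, 1]] c5 2 [[1, 20], [1, 1]] = true := by decide +kernel

theorem ok6 : chk 2 [[1, 6], [5, 1]] c6 2 [[1, 30], [1, 1]] = true := by decide +kernel

end Pool.Agent.H81SSE.Pairs
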