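import Mathlib

/-!
# Shift equivalence over the integers gives a chain of elementary equivalences over the integers
-/

set_option autoImplicit false
set_option linter.unusedSectionVars false

namespace Pool.Agent.H81SSE

open Matrix Module

/-- A square integer matrix with an arbitrary finite index type. -/
structure GMat where
  ι : Type
  fin : Fintype ι
  dec : DecidableEq ι
  N : Matrix ι ι ℤ

attribute [instance] GMat.fin GMat.dec

/-- Elementary equivalence over `ℤ`. -/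
def GEl (X Y : GMat) : Prop :=
  ∃ (R : Matrix X.ι Y.ι ℤ) (S : Matrix Y.ι X.ι ℤ), X.N = R * S ∧ Y.N = S * R

/-- Strong shift equivalence over `ℤ`. -/
def GC (X Y : GMat) : Prop := Relation.EqvGen GEl X Y

section modules

variable {M M' : Type} [AddCommGroup M] [AddCommGroup M'] [Module.Free ℤ M] [Module.Free ℤ M']
  [Module.Finite ℤ M] [Module.Finite ℤ M']

/-- The matrix of an endomorphism. -/
noncomputable def gm (f : M →ₗ[ℤ] M) : GMat :=
  ⟨Fin (finrank ℤ M), inferInstance, inferInstance,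
    LinearMap.toMatrix (finBasis ℤ M) (finBasis ℤ M) f⟩

lemma gm_elem (φ : M →ₗ[ℤ] M') (ψ : M' →ₗ[ℤ] M) : GEl (gm (ψ ∘ₗ φ)) (gm (φ ∘ₗ ψ)) :=
  ⟨LinearMap.toMatrix (finBasis ℤ M') (finBasis ℤ M) ψ,
    LinearMap.toMatrix (finBasis ℤ M) (finBasis ℤ M') φ,
    LinearMap.toMatrix_comp _ _ _ _ _, LinearMap.toMatrix_comp _ _ _ _ _⟩

lemma gm_rel (f : M →ₗ[ℤ] M) (f' : M' →ₗ[ℤ] M') (φ : M →ₗ[ℤ] M') (ψ : M' →ₗ[ℤ] M)
    (h1 : ψ ∘ₗ φ = f) (h2 : φ ∘ₗ ψ = f') : GC (gm f) (gm f') := by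
  subst h1 h2
  exact Relation.EqvGen.rel _ _ (gm_elem φ ψ)

end modules

lemma gel_mk {ι κ : Type} [Fintype ι] [DecidableEq ι] [Fintype κ] [DecidableEq κ]
    (A : Matrix ι ι ℤ) (B : Matrix κ κ ℤ) (R : Matrix ι κ ℤ) (S : Matrix κ ι ℤ)
    (h1 : A = R * S) (h2 : B = S * R) :
    GEl ⟨ι, inferInstance, inferInstance, A⟩ ⟨κ, inferInstance, inferInstance, B⟩ :=
  ⟨R, S, h1, h2⟩

lemma gm_toLin {ι : Type} [Fintype ι] [DecidableEq ι] (N : Matrix ι ι ℤ) :
    GC ⟨ι, inferInstance, inferInstance, N⟩ (gm (Matrix.toLin' N)) := by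
  refine Relation.EqvGen.rel _ _ (gel_mk _ _ (LinearMap.toMatrix (finBasis ℤ (ι → ℤ))
      (Pi.basisFun ℤ ι) LinearMap.id) (LinearMap.toMatrix (Pi.basisFun ℤ ι)
      (finBasis ℤ (ι → ℤ)) (Matrix.toLin' N)) ?_ ?_)
  · rw [← LinearMap.toMatrix_comp, LinearMap.id_comp, LinearMap.toMatrix_eq_toMatrix']
    simp
  · rw [← LinearMap.toMatrix_comp, LinearMap.comp_id]

section chain

variable {L L' : Type} [AddCommGroup L] [AddCommGroup L'] [Module.Free ℤ L] [Module.Free ℤ L']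
  [Module.Finite ℤ L] [Module.Finite ℤ L']

lemma GC.symm {X Y : GMat} (h : GC X Y) : GC Y X := Relation.EqvGen.symm _ _ h

lemma GC.trans {X Y Z : GMat} (h : GC X Y) (h' : GC Y Z) : GC X Z :=
  Relation.EqvGen.trans _ _ _ h h'

variable (f : L →ₗ[ℤ] L) (f' : L' →ₗ[ℤ] L') (R : L' →ₗ[ℤ] L) (S : L →ₗ[ℤ] L')

/-- The first family of submodules. -/
def MM (i : ℕ) : Submodule ℤ (L × L') := LinearMap.range (R.prod (f' ^ i))

lemma mem_MM (i : ℕ) (u : L × L') : u ∈ MM f' R i ↔ ∃ v, (R v, (f' ^ i) v) = u := Iff.rfl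

/-- The second family of submodules. -/
def LL (i : ℕ) : Submodule ℤ L := LinearMap.range R ⊔ LinearMap.range (f ^ i)

lemma mem_LL (i : ℕ) (u : L) : u ∈ LL f R i ↔ ∃ v w, R v + (f ^ i) w = u := by
  rw [LL, Submodule.mem_sup]
  constructor
  · rintro ⟨_, ⟨v, rfl⟩, _, ⟨w, rfl⟩, h⟩
    exact ⟨v, w, h⟩
  · rintro ⟨v, w, h⟩
    exact ⟨_, ⟨v, rfl⟩, _, ⟨w, rfl⟩, h⟩

variable (hR : f ∘ₗ R = R ∘ₗ f')

include hR in
lemma MM_stable (i : ℕ) : ∀ x ∈ MM f' R i, (f.prodMap f') x ∈ MM f' R i := by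
  rintro x ⟨v, rfl⟩
  refine ⟨f' v, ?_⟩
  have h1 : f (R v) = R (f' v) := LinearMap.congr_fun hR v
  have h2 : (f' ^ i) (f' v) = f' ((f' ^ i) v) := by
    rw [← Module.End.mul_apply, ← Module.End.mul_apply, ← pow_succ, ← pow_succ']
  simp [h1, h2]

include hR in
lemma LL_stable (i : ℕ) : ∀ x ∈ LL f R i, f x ∈ LL f R i := by
  intro x hx
  rw [mem_LL] at hx ⊢
  obtain ⟨v, w, rfl⟩ := hx
  refine ⟨f' v, f w, ?_⟩
  have h1 : f (R v) = R (f' v) := LinearMap.congr_fun hR v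
  have h2 : (f ^ i) (f w) = f ((f ^ i) w) := by
    rw [← Module.End.mul_apply, ← Module.End.mul_apply, ← pow_succ, ← pow_succ']
  rw [map_add, h1, h2]

include hR in
lemma MM_step (i : ℕ) :
    GC (gm ((f.prodMap f').restrict (MM_stable f f' R hR i)))
      (gm ((f.prodMap f').restrict (MM_stable f f' R hR (i + 1)))) := by
  have k1 : ∀ x ∈ MM f' R i, ((LinearMap.id : L →ₗ[ℤ] L).prodMap f') x ∈ MM f' R (i + 1) := by
    rintro x ⟨v, rfl⟩
    refine ⟨v, ?_⟩
    simp [pow_succ']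
  have k2 : ∀ x ∈ MM f' R (i + 1), (f.prodMap (LinearMap.id : L' →ₗ[ℤ] L')) x ∈ MM f' R i := by
    rintro x ⟨v, rfl⟩
    refine ⟨f' v, ?_⟩
    have h1 : f (R v) = R (f' v) := LinearMap.congr_fun hR v
    simp [pow_succ, h1]
  refine gm_rel _ _ (LinearMap.restrict _ k1) (LinearMap.restrict _ k2) ?_ ?_
  · ext x
    all_goals simp
  · ext x
    all_goals simp

include hR in
lemma LL_step (i : ℕ) :
    GC (gm (f.restrict (LL_stable f f' R hR i)))
      (gm (f.restrict (LL_stable f f' R hR (i + 1)))) := by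
  have k1 : ∀ x ∈ LL f R i, f x ∈ LL f R (i + 1) := by
    intro x hx
    rw [mem_LL] at hx ⊢
    obtain ⟨v, w, rfl⟩ := hx
    have h1 : f (R v) = R (f' v) := LinearMap.congr_fun hR v
    refine ⟨f' v, w, ?_⟩
    rw [map_add, h1, pow_succ', Module.End.mul_apply]
  have k2 : ∀ x ∈ LL f R (i + 1), (LinearMap.id : L →ₗ[ℤ] L) x ∈ LL f R i := by
    intro x hx
    rw [mem_LL] at hx ⊢
    obtain ⟨v, w, rfl⟩ := hx
    exact ⟨v, f w, by rw [pow_succ, Module.End.mul_apply]; rfl⟩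
  refine gm_rel _ _ (LinearMap.restrict _ k1) (LinearMap.restrict _ k2) ?_ ?_
  · ext x
    simp
  · ext x
    simp

include hR in
lemma MM_chain (i : ℕ) :
    GC (gm ((f.prodMap f').restrict (MM_stable f f' R hR 0)))
      (gm ((f.prodMap f').restrict (MM_stable f f' R hR i))) := by
  induction i with
  | zero => exact Relation.EqvGen.refl _
  | succ i ih => exact ih.trans (MM_step f f' R hR i)

include hR in
lemma LL_chain (i : ℕ) :
    GC (gm (f.restrict (LL_stable f f' R hR 0)))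
      (gm (f.restrict (LL_stable f f' R hR i))) := by
  induction i with
  | zero => exact Relation.EqvGen.refl _
  | succ i ih => exact ih.trans (LL_step f f' R hR i)

include hR in
lemma MM_zero : GC (gm f') (gm ((f.prodMap f').restrict (MM_stable f f' R hR 0))) := by
  have k1 : ∀ v : L', (R.prod (LinearMap.id : L' →ₗ[ℤ] L')) v ∈ MM f' R 0 := by
    intro v
    exact ⟨v, by simp⟩
  refine gm_rel _ _ (LinearMap.codRestrict (MM f' R 0) _ k1)
    ((f' ∘ₗ LinearMap.snd ℤ L L') ∘ₗ (MM f' R 0).subtype) ?_ ?_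
  · ext v
    simp
  · apply LinearMap.ext
    rintro ⟨x, v, rfl⟩
    apply Subtype.ext
    have h1 : f (R v) = R (f' v) := LinearMap.congr_fun hR v
    simp [h1]

include hR in
lemma LL_zero : GC (gm f) (gm (f.restrict (LL_stable f f' R hR 0))) := by
  have k1 : ∀ v : L, (LinearMap.id : L →ₗ[ℤ] L) v ∈ LL f R 0 := by
    intro v
    rw [mem_LL]
    exact ⟨0, v, by simp⟩
  refine gm_rel _ _ (LinearMap.codRestrict (LL f R 0) _ k1) (f ∘ₗ (LL f R 0).subtype) ?_ ?_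
  · ext v
    simp
  · apply LinearMap.ext
    intro x
    apply Subtype.ext
    simp

variable (hS : S ∘ₗ f = f' ∘ₗ S) (l : ℕ) (h1 : R ∘ₗ S = f ^ l) (h2 : S ∘ₗ R = f' ^ l)

include hS h1 h2 in
lemma middle : GC (gm (f.restrict (LL_stable f f' R hR l)))
    (gm ((f.prodMap f').restrict (MM_stable f f' R hR l))) := by
  have e1 : ∀ w, R (S w) = (f ^ l) w := fun w => LinearMap.congr_fun h1 w
  have e2 : ∀ w, S (R w) = (f' ^ l) w := fun w => LinearMap.congr_fun h2 w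
  have e3 : ∀ w, S (f w) = f' (S w) := fun w => LinearMap.congr_fun hS w
  have k1 : ∀ x ∈ LL f R l, ((LinearMap.id : L →ₗ[ℤ] L).prod S) x ∈ MM f' R l := by
    intro x hx
    rw [mem_LL] at hx
    obtain ⟨v, w, rfl⟩ := hx
    refine ⟨v + S w, ?_⟩
    simp only [LinearMap.prod_apply, Function.prod_apply, map_add, e1, e2, LinearMap.id_apply]
    rw [← e1, e2]
  have k2 : ∀ x ∈ MM f' R l, (f ∘ₗ LinearMap.fst ℤ L L') x ∈ LL f R l := by
    rintro x ⟨v, rfl⟩
    rw [mem_LL]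
    refine ⟨f' v, 0, ?_⟩
    have h1 : f (R v) = R (f' v) := LinearMap.congr_fun hR v
    simp [h1]
  refine gm_rel _ _ (LinearMap.restrict _ k1) (LinearMap.restrict _ k2) ?_ ?_
  · apply LinearMap.ext
    intro x
    apply Subtype.ext
    simp
  · apply LinearMap.ext
    rintro ⟨x, v, rfl⟩
    apply Subtype.ext
    simp [e3, e2]

include hR hS h1 h2 in
theorem modules_chain : GC (gm f) (gm f') :=
  (LL_zero f f' R hR).trans ((LL_chain f f' R hR l).trans ((middle f f' R S hR hS l h1 h2).trans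
    ((MM_chain f f' R hR l).symm.trans (MM_zero f f' R hR).symm)))

end chain

/-- Shift equivalence over `ℤ` gives strong shift equivalence over `ℤ`. -/
theorem gc_of_se {ι κ : Type} [Fintype ι] [DecidableEq ι] [Fintype κ] [DecidableEq κ]
    (A : Matrix ι ι ℤ) (B : Matrix κ κ ℤ) (l : ℕ) (R : Matrix ι κ ℤ) (S : Matrix κ ι ℤ)
    (h1 : A ^ l = R * S) (h2 : B ^ l = S * R) (h3 : A * R = R * B) (h4 : S * A = B * S) :
    GC ⟨ι, inferInstance, inferInstance, A⟩ ⟨κ, inferInstance, inferInstance, B⟩ := by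
  refine (gm_toLin A).trans (GC.trans ?_ (gm_toLin B).symm)
  refine modules_chain (Matrix.toLin' A) (Matrix.toLin' B) (Matrix.toLin' R) (Matrix.toLin' S)
    ?_ ?_ l ?_ ?_
  · rw [← Matrix.toLin'_mul, ← Matrix.toLin'_mul, h3]
  · rw [← Matrix.toLin'_mul, ← Matrix.toLin'_mul, h4]
  · rw [← Matrix.toLin'_mul, ← Matrix.toLin'_pow, h1]
  · rw [← Matrix.toLin'_mul, ← Matrix.toLin'_pow, h2]

end Pool.Agent.H81SSE
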