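import Pool.Agent.H81SSE.DomStep
import Pool.Agent.H81SSE.Kry
import Pool.Agent.H81SSE.SEZ

/-!
# Matrices with nearly parallel columns and a cyclic small part
-/

set_option autoImplicit false

namespace Pool.Agent.H81SSE

open Matrix Polynomial

variable {n : ℕ}

/-- The first `j` columns. -/
def Uj (W : Matrix (Fin n) (Fin n) ℤ) (j : ℕ) (hj : j ≤ n) : Matrix (Fin n) (Fin j) ℤ :=
  Matrix.of fun i k => W i (Fin.castLE hj k)

/-- The first `j` rows. -/
def Vj (V : Matrix (Fin n) (Fin n) ℤ) (j : ℕ) (hj : j ≤ n) : Matrix (Fin j) (Fin n) ℤ :=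
  Matrix.of fun k i => V (Fin.castLE hj k) i

lemma VU_j (W V : Matrix (Fin n) (Fin n) ℤ) (h : V * W = Sh n n) (j : ℕ) (hj : j ≤ n) :
    Vj V j hj * Uj W j hj = Sh j j := by
  ext k l
  have h1 := congrFun (congrFun h (Fin.castLE hj k)) (Fin.castLE hj l)
  rw [Matrix.mul_apply] at h1
  rw [Matrix.mul_apply]
  simpa [Vj, Uj, Sh] using h1

lemma mul_X0 {k : Type} (M : Matrix k (Fin n) ℤ) (hn : 0 < n) (i : k) (j : Unit) :
    (M * X0 n) i j = M i ⟨0, hn⟩ := by
  rw [Matrix.mul_apply, Finset.sum_eq_single ⟨0, hn⟩]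
  · simp [X0]
  · intro b _ hb
    have : (b : ℕ) ≠ 0 := fun h' => hb (Fin.ext h')
    simp [X0, this]
  · intro h
    exact absurd (Finset.mem_univ _) h

lemma U_mul_X (W : Matrix (Fin n) (Fin n) ℤ) (j : ℕ) (hj : j ≤ n) (hj0 : 0 < j) :
    Uj W j hj * X0 j = W * X0 n := by
  ext i k
  rw [mul_X0 _ hj0, mul_X0 _ (lt_of_lt_of_le hj0 hj)]
  rfl

lemma Pr_X (j : ℕ) (hj : 0 < j) : Pr j (j + 1) * X0 (j + 1) = X0 j := by
  ext i k
  rw [mul_X0 _ (Nat.succ_pos j)]
  rfl

lemma mul_Pr {k : Type} (j : ℕ) (M : Matrix k (Fin j) ℤ) (i : k) (l : Fin (j + 1)) :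
    (M * Pr j (j + 1)) i l = if h : (l : ℕ) < j then M i ⟨l, h⟩ else 0 := by
  rw [Matrix.mul_apply]
  split_ifs with h
  · rw [Finset.sum_eq_single ⟨l, h⟩]
    · simp [Pr]
    · intro b _ hb
      have : (b : ℕ) ≠ (l : ℕ) := fun h' => hb (Fin.ext h')
      simp [Pr, this]
    · intro h
      exact absurd (Finset.mem_univ _) h
  · refine Finset.sum_eq_zero fun b _ => ?_
    have hb := b.2
    have : (b : ℕ) ≠ (l : ℕ) := by omega
    simp [Pr, this]

lemma Sh_Pr (j : ℕ) : Sh (j + 1) j * Pr j (j + 1) = Sh (j + 1) (j + 1) := by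
  ext k l
  rw [mul_Pr]
  have hk := k.2
  have hl := l.2
  split_ifs with h
  · simp [Sh]
  · have : (k : ℕ) ≠ (l : ℕ) + 1 := by omega
    simp [Sh, this]

lemma Pr_Sh (j : ℕ) : Pr j (j + 1) * Sh (j + 1) j = Sh j j := by
  ext k l
  rw [Matrix.mul_apply, Finset.sum_eq_single (Fin.castSucc k)]
  · simp [Pr, Sh]
  · intro b _ hb
    have : (k : ℕ) ≠ (b : ℕ) := by
      intro h'
      apply hb
      ext
      simp [h']
    simp [Pr, this]
  · intro h
    exact absurd (Finset.mem_univ _) h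

lemma chain {m : ℕ} (hm : 0 < m) (W V : Matrix (Fin n) (Fin n) ℤ) (x : Fin n → ℤ)
    (hWX : W * X0 n = colM x) (hx : ∀ i, 0 < x i) (hVW : V * W = Sh n n)
    (W' V' : Matrix (Fin m) (Fin m) ℤ) (x' : Fin m → ℤ)
    (hWX' : W' * X0 m = colM x') (hx' : ∀ i, 0 < x' i) (hVW' : V' * W' = Sh m m) (hmn : m ≤ n)
    (j : ℕ) (hmj : m ≤ j) : ∀ hj : j ≤ n,
    ∃ K : ℤ, ∀ (Al : Matrix Unit (Fin n) ℤ) (Al' : Matrix Unit (Fin m) ℤ), (∀ i j, K ≤ Al i j) →
      (∀ i j, K ≤ Al' i j) → (∀ i : Fin n, m ≤ i → (Al * W) () i = 0) →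
      (∀ i : Fin m, (Al * W) () (Fin.castLE hmn i) = (Al' * W') () i) →
      QQ (Uj W j hj * (X0 j * Al + Vj V j hj)) (W' * (X0 m * Al' + V')) := by
  have : Nonempty (Fin n) := ⟨⟨0, lt_of_lt_of_le hm hmn⟩⟩
  have : Nonempty (Fin m) := ⟨⟨0, hm⟩⟩
  induction j, hmj using Nat.le_induction with
  | base =>
    intro hj
    obtain ⟨K, hK⟩ := dominance (X0 m) (Uj W m hj) (Vj V m hj) W' V'
      (by
        intro i j
        rw [U_mul_X W m hj hm, hWX]
        exact hx i)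
      (by
        intro i j
        rw [hWX']
        exact hx' i)
      (by rw [VU_j W V hVW, hVW'])
    refine ⟨K, fun Al Al' h1 h2 _ h4 => hK Al Al' h1 h2 ?_⟩
    ext u i
    rw [← h4 i]
    rfl
  | succ j hmj ih =>
    intro hj
    obtain ⟨K, hK⟩ := ih (by omega)
    have hj0 : 0 < j := lt_of_lt_of_le hm hmj
    obtain ⟨K2, hK2⟩ := dom_step (X0 (j + 1)) (Uj W (j + 1) hj) (Vj V (j + 1) hj)
      (Uj W j (by omega)) (Vj V j (by omega)) (Pr j (j + 1)) (Sh (j + 1) j)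
      (by
        intro i k
        simp only [Pr, Matrix.of_apply]
        split_ifs <;> norm_num)
      (fun i => ⟨Fin.castSucc i, by simp [Pr]⟩)
      (by
        intro i k
        rw [U_mul_X W (j + 1) hj (by omega), hWX]
        exact hx i)
      (by
        intro i k
        rw [Pr_X j hj0, U_mul_X W j _ hj0, hWX]
        exact hx i)
      (by rw [VU_j W V hVW, Sh_Pr])
      (by rw [VU_j W V hVW, Pr_Sh])
    refine ⟨max K K2, fun Al Al' h1 h2 h3 h4 => ?_⟩
    have q1 := hK Al Al' (fun i j => (le_max_left _ _).trans (h1 i j))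
      (fun i j => (le_max_left _ _).trans (h2 i j)) h3 h4
    have q2 := hK2 Al Al (fun i j => (le_max_right _ _).trans (h1 i j))
      (fun i j => (le_max_right _ _).trans (h1 i j)) (by
        ext u l
        rw [mul_Pr]
        split_ifs with h
        · rfl
        · have hl := l.2
          have h5 := h3 (Fin.castLE hj l) (by
            simp only [Fin.val_castLE]
            omega)
          exact h5)
    rw [Pr_X j hj0] at q2
    exact q2.trans q1

lemma form_eq (W V N : Matrix (Fin n) (Fin n) ℤ) (x : Fin n → ℤ) (c : Matrix Unit (Fin n) ℤ)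
    (hWX : W * X0 n = colM x) (hN : N = W * V - colM x * c) (b : Matrix Unit (Fin n) ℤ) :
    colM x * b + N = W * (X0 n * (b - c) + V) := by
  rw [Matrix.mul_add, ← Matrix.mul_assoc, hWX, hN, Matrix.mul_sub]
  abel

lemma form_charpoly (W V : Matrix (Fin n) (Fin n) ℤ) (hVW : V * W = Sh n n)
    (Al : Matrix Unit (Fin n) ℤ) :
    (W * (X0 n * Al + V)).charpoly = (Cm (Al * W)).charpoly := by
  rw [Matrix.charpoly_mul_comm, Matrix.add_mul, hVW, Matrix.mul_assoc]
  rfl

/-- The forward direction. -/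
theorem reach_pair {m : ℕ} (hm : 0 < m) (hmn : m ≤ n) (N : Matrix (Fin n) (Fin n) ℤ)
    (x : Fin n → ℤ) (N' : Matrix (Fin m) (Fin m) ℤ) (x' : Fin m → ℤ)
    (hx : ∀ i, 0 < x i) (hx' : ∀ i, 0 < x' i)
    (hK : IsUnit (krylov N x).det) (hK' : IsUnit (krylov N' x').det) :
    ∃ K : ℤ, ∀ (b : Matrix Unit (Fin n) ℤ) (b' : Matrix Unit (Fin m) ℤ), (∀ i j, K ≤ b i j) →
      (∀ i j, K ≤ b' i j) →
      (X : ℤ[X]) ^ m * (colM x * b + N).charpoly = X ^ n * (colM x' * b' + N').charpoly →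
      QQ (colM x * b + N) (colM x' * b' + N') := by
  have hn : 0 < n := lt_of_lt_of_le hm hmn
  obtain ⟨W, V, c, e1, e2, e3⟩ := exists_W hn N x hK
  obtain ⟨W', V', c', e1', e2', e3'⟩ := exists_W hm N' x' hK'
  obtain ⟨K, hK⟩ := chain hm W V x e1 hx e2 W' V' x' e1' hx' e2' hmn n hmn le_rfl
  obtain ⟨M, hM0, hM⟩ := exists_bound (fun j : Fin n => c () j)
  obtain ⟨M', hM0', hM'⟩ := exists_bound (fun j : Fin m => c' () j)
  refine ⟨K + M + M', fun b b' hb hb' hch => ?_⟩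
  rw [form_eq W V N x c e1 e3, form_eq W' V' N' x' c' e1' e3'] at hch ⊢
  rw [form_charpoly W V e2, form_charpoly W' V' e2'] at hch
  obtain ⟨r1, r2⟩ := rows_of_charpoly hmn _ _ hch
  refine hK (b - c) (b' - c') ?_ ?_ r2 r1
  · intro i j
    rw [Matrix.sub_apply]
    have h1 := hb i j
    have h2 := hM j
    have h3 : c i j = c () j := rfl
    beta_reduce at h2
    linarith
  · intro i j
    rw [Matrix.sub_apply]
    have h1 := hb' i j
    have h2 := hM' j
    have h3 : c' i j = c' () j := rfl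
    beta_reduce at h2
    linarith

/-- Strong shift equivalence over `ℤ` preserves the characteristic polynomial away from zero. -/
lemma charpoly_of_GC {A B : GMat} (h : GC A B) :
    (X : ℤ[X]) ^ Fintype.card B.ι * A.N.charpoly = X ^ Fintype.card A.ι * B.N.charpoly := by
  induction h with
  | rel A B h =>
    obtain ⟨R, S, h1, h2⟩ := h
    rw [h1, h2]
    exact Matrix.charpoly_mul_comm' R S
  | refl A => rfl
  | symm A B _ ih => exact ih.symm
  | trans A B C _ _ ih1 ih2 =>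
    have h3 : (X : ℤ[X]) ^ Fintype.card B.ι ≠ 0 := pow_ne_zero _ Polynomial.X_ne_zero
    apply mul_left_cancel₀ h3
    calc (X : ℤ[X]) ^ Fintype.card B.ι * (X ^ Fintype.card C.ι * A.N.charpoly)
        = X ^ Fintype.card C.ι * (X ^ Fintype.card B.ι * A.N.charpoly) := by ring
      _ = X ^ Fintype.card A.ι * (X ^ Fintype.card C.ι * B.N.charpoly) := by rw [ih1]; ring
      _ = X ^ Fintype.card B.ι * (X ^ Fintype.card A.ι * C.N.charpoly) := by rw [ih2]; ring

lemma charpoly_of_se {m : ℕ} (A : Matrix (Fin n) (Fin n) ℤ) (B : Matrix (Fin m) (Fin m) ℤ)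
    (l : ℕ) (R : Matrix (Fin n) (Fin m) ℤ) (S : Matrix (Fin m) (Fin n) ℤ)
    (h1 : A ^ l = R * S) (h2 : B ^ l = S * R) (h3 : A * R = R * B) (h4 : S * A = B * S) :
    (X : ℤ[X]) ^ m * A.charpoly = X ^ n * B.charpoly := by
  have h := charpoly_of_GC (gc_of_se A B l R S h1 h2 h3 h4)
  simp only [Fintype.card_fin] at h
  exact h

end Pool.Agent.H81SSE
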