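import Pool.Agent.H81SSE.Sys
import Pool.Agent.H81SSE.SEZ
import Pool.Agent.H81SSE.Trans

/-!
# Bulk families with orthogonal small part
-/

set_option autoImplicit false

namespace Pool.Agent.H81SSE

open Matrix

/-- The decoupled system. -/
def lift (m : ℤ) (X : GMat) : GSys :=
  ⟨Unit ⊕ X.ι, inferInstance, inferInstance, Matrix.fromBlocks 0 0 0 X.N,
    Matrix.fromRows (1 : Matrix Unit Unit ℤ) 0,
    Matrix.fromCols (Matrix.of fun _ _ => m) 0⟩

lemma gstep_mk {ι κ : Type} [Fintype ι] [DecidableEq ι] [Fintype κ] [DecidableEq κ]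
    (N : Matrix ι ι ℤ) (x : Matrix ι Unit ℤ) (y : Matrix Unit ι ℤ) (N' : Matrix κ κ ℤ)
    (x' : Matrix κ Unit ℤ) (y' : Matrix Unit κ ℤ) (R : Matrix ι κ ℤ) (S : Matrix κ ι ℤ)
    (h1 : N = R * S) (h2 : N' = S * R) (h3 : x = R * x') (h4 : y' = y * R) :
    GStep ⟨ι, inferInstance, inferInstance, N, x, y⟩
      ⟨κ, inferInstance, inferInstance, N', x', y'⟩ :=
  ⟨R, S, h1, h2, h3, h4⟩

lemma lift_step (m : ℤ) {X Y : GMat} (h : GEl X Y) : GStep (lift m X) (lift m Y) := by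
  obtain ⟨R, S, h1, h2⟩ := h
  refine gstep_mk _ _ _ _ _ _ (Matrix.fromBlocks 1 0 0 R) (Matrix.fromBlocks 0 0 0 S) ?_ ?_ ?_ ?_
  · rw [Matrix.fromBlocks_multiply, h1]
    simp
  · rw [Matrix.fromBlocks_multiply, h2]
    simp
  · rw [Matrix.fromBlocks_mul_fromRows]
    simp
  · rw [Matrix.fromCols_mul_fromBlocks]
    simp

lemma lift_eqv (m : ℤ) {X Y : GMat} (h : GC X Y) :
    Relation.EqvGen GStep (lift m X) (lift m Y) := by
  induction h with
  | rel _ _ h => exact Relation.EqvGen.rel _ _ (lift_step m h)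
  | refl _ => exact Relation.EqvGen.refl _
  | symm _ _ _ ih => exact Relation.EqvGen.symm _ _ ih
  | trans _ _ _ _ _ ih1 ih2 => exact Relation.EqvGen.trans _ _ _ ih1 ih2

lemma decouple {ι : Type} [Fintype ι] [DecidableEq ι] (N : Matrix ι ι ℤ) (x : Matrix ι Unit ℤ)
    (y : Matrix Unit ι ℤ) (m : ℤ) (hx : N * x = 0) (hy : y * N = 0)
    (hm : y * x = Matrix.of fun _ _ => m) :
    Relation.EqvGen GStep ⟨ι, inferInstance, inferInstance, N, x, y⟩
      (lift m ⟨ι, inferInstance, inferInstance, N⟩) := by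
  have s1 : GStep ⟨ι, inferInstance, inferInstance, N, x, y⟩
      ⟨Unit ⊕ ι, inferInstance, inferInstance, Matrix.fromBlocks 0 0 0 N,
        Matrix.fromRows (1 : Matrix Unit Unit ℤ) 0, Matrix.fromCols (Matrix.of fun _ _ => m) y⟩ := by
    refine gstep_mk _ _ _ _ _ _ (Matrix.fromCols x 1) (Matrix.fromRows 0 N) ?_ ?_ ?_ ?_
    · rw [Matrix.fromCols_mul_fromRows]
      simp
    · rw [Matrix.fromRows_mul_fromCols]
      simp [hx]
    · rw [Matrix.fromCols_mul_fromRows]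
      simp
    · rw [Matrix.mul_fromCols, hm, Matrix.mul_one]
  have s2 : GStep ⟨Unit ⊕ ι, inferInstance, inferInstance, Matrix.fromBlocks 0 0 0 N,
        Matrix.fromRows (1 : Matrix Unit Unit ℤ) 0, Matrix.fromCols (Matrix.of fun _ _ => m) y⟩
      (lift m ⟨ι, inferInstance, inferInstance, N⟩) := by
    refine gstep_mk _ _ _ _ _ _ (Matrix.fromBlocks 1 0 0 N) (Matrix.fromBlocks 0 0 0 1)
      ?_ ?_ ?_ ?_
    · rw [Matrix.fromBlocks_multiply]
      simp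
    · rw [Matrix.fromBlocks_multiply]
      simp
    · rw [Matrix.fromBlocks_mul_fromRows]
      simp
    · rw [Matrix.fromCols_mul_fromBlocks]
      simp [hy]
  exact Relation.EqvGen.trans _ _ _ (Relation.EqvGen.rel _ _ s1) (Relation.EqvGen.rel _ _ s2)

lemma lift_y (c m : ℤ) (X : GMat) :
    (c * m) • (Matrix.fromCols (Matrix.of fun _ _ => 1) 0 : Matrix Unit (Unit ⊕ X.ι) ℤ) =
      c • (Matrix.fromCols (Matrix.of fun _ _ => m) 0 : Matrix Unit (Unit ⊕ X.ι) ℤ) := by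
  ext i j
  rcases j with j | j
  · rw [Matrix.smul_apply, Matrix.smul_apply, Matrix.fromCols_apply_inl,
      Matrix.fromCols_apply_inl]
    simp
  · rw [Matrix.smul_apply, Matrix.smul_apply, Matrix.fromCols_apply_inr,
      Matrix.fromCols_apply_inr]
    simp

lemma lift_s (X : GMat) : (lift 1 X).s = 1 := by
  have h : (Matrix.fromCols (Matrix.of fun _ _ => 1) 0 : Matrix Unit (Unit ⊕ X.ι) ℤ) *
      (Matrix.fromRows (1 : Matrix Unit Unit ℤ) 0 : Matrix (Unit ⊕ X.ι) Unit ℤ) =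
      Matrix.of fun _ _ => 1 := by
    rw [Matrix.fromCols_mul_fromRows]
    simp
  exact congrFun (congrFun h ()) ()

/-- Two families that decouple to equivalent small parts. -/
lemma good_scaled (σ σ' : GSys) (X X' : GMat) (m m' : ℤ) (hm : 0 < m)
    (h1 : Relation.EqvGen GStep σ (lift m X)) (h2 : Relation.EqvGen GStep σ' (lift m' X'))
    (h3 : GC X X') (hσ : 0 < σ.s) (hσ' : 0 < σ'.s) [Nonempty σ.ι] [Nonempty σ'.ι]
    (hx : ∀ i j, 0 < σ.x i j) (hy : ∀ i j, 0 < σ.y i j)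
    (hx' : ∀ i j, 0 < σ'.x i j) (hy' : ∀ i j, 0 < σ'.y i j) :
    ∃ c₀ : ℤ, ∀ c c' : ℤ, c₀ ≤ c → c₀ ≤ c' → c * m = c' * m' →
      QQ (σ.N + c • (σ.x * σ.y)) (σ'.N + c' • (σ'.x * σ'.y)) := by
  obtain ⟨U₁, W₁, a1, a2, a3⟩ := realize (lift 1 X) (by rw [lift_s]; norm_num)
  obtain ⟨U₂, W₂, b1, b2, b3⟩ := realize (lift 1 X') (by rw [lift_s]; norm_num)
  obtain ⟨K1, c1, g1⟩ := (eqv_good h1).2 hσ σ.ι _ 1 1 U₁ W₁ (Matrix.mul_one _) a1
    (fun i j => by rw [Matrix.one_mul]; exact hx i j) a2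
  obtain ⟨K2, c2, g2⟩ := (eqv_good h2).2 hσ' σ'.ι _ 1 1 U₂ W₂ (Matrix.mul_one _) b1
    (fun i j => by rw [Matrix.one_mul]; exact hx' i j) b2
  obtain ⟨K3, c3, g3⟩ := (eqv_good (lift_eqv 1 h3)).2 (by rw [lift_s]; norm_num) _ _
    U₁ W₁ U₂ W₂ a1 b1 a2 b2
  obtain ⟨d1, hd1⟩ := a3 (max K1 (max K2 K3))
  obtain ⟨d2, hd2⟩ := b3 (max K1 (max K2 K3))
  refine ⟨max (max (max c1 c2) (max c3 0)) (max (max d1 d2) (max K1 K2)), fun c c' hc hc' e => ?_⟩
  simp only [max_le_iff] at hc hc'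
  obtain ⟨⟨⟨e1, e2⟩, e3, e0⟩, ⟨e4, e5⟩, e6, e7⟩ := hc
  obtain ⟨⟨⟨f1, f2⟩, f3, f0⟩, ⟨f4, f5⟩, f6, f7⟩ := hc'
  have hM : c ≤ c * m := by nlinarith
  obtain ⟨Al₁, k1, k2⟩ := hd1 (c * m) (le_trans e4 hM)
  obtain ⟨Al₂, k3, k4⟩ := hd2 (c * m) (le_trans e5 hM)
  have q1 := g1 c e1 (c • σ.y) Al₁
    (fun i j => by
      rw [Matrix.smul_apply, smul_eq_mul]
      nlinarith [hy i j])
    (fun i j => le_trans (le_max_left _ _) (k1 i j)) (Matrix.mul_one _)
    (k2.trans (lift_y c m X))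
  have q2 := g2 c' f2 (c' • σ'.y) Al₂
    (fun i j => by
      rw [Matrix.smul_apply, smul_eq_mul]
      nlinarith [hy' i j])
    (fun i j => le_trans (le_trans (le_max_left _ _) (le_max_right _ _)) (k3 i j))
    (Matrix.mul_one _) (k4.trans (by rw [e]; exact lift_y c' m' X'))
  have q3 := g3 (c * m) (le_trans e3 hM) Al₁ Al₂
    (fun i j => le_trans (le_trans (le_max_right _ _) (le_max_right _ _)) (k1 i j))
    (fun i j => le_trans (le_trans (le_max_right _ _) (le_max_right _ _)) (k3 i j)) k2 k4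
  rw [Matrix.one_mul, Matrix.mul_one, Matrix.mul_smul, add_comm] at q1 q2
  exact q1.trans (q3.trans q2.symm)

/-- The forward direction. -/
theorem stable_forward {ι κ : Type} [Fintype ι] [DecidableEq ι] [Fintype κ] [DecidableEq κ]
    [Nonempty ι] [Nonempty κ]
    (N : Matrix ι ι ℤ) (x : Matrix ι Unit ℤ) (y : Matrix Unit ι ℤ) (N' : Matrix κ κ ℤ)
    (x' : Matrix κ Unit ℤ) (y' : Matrix Unit κ ℤ) (hNx : N * x = 0) (hyN : y * N = 0)
    (hNx' : N' * x' = 0) (hyN' : y' * N' = 0)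
    (hx : ∀ i j, 0 < x i j) (hy : ∀ i j, 0 < y i j)
    (hx' : ∀ i j, 0 < x' i j) (hy' : ∀ i j, 0 < y' i j)
    (l : ℕ) (R : Matrix ι κ ℤ) (S : Matrix κ ι ℤ)
    (h1 : N ^ l = R * S) (h2 : N' ^ l = S * R) (h3 : N * R = R * N') (h4 : S * N = N' * S) :
    ∃ c₀ : ℤ, ∀ c c' : ℤ, c₀ ≤ c → c₀ ≤ c' → c * (y * x) () () = c' * (y' * x') () () →
      QQ (N + c • (x * y)) (N' + c' • (x' * y')) := by
  have hm : y * x = Matrix.of fun _ _ => (y * x) () () := by
    ext i j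
    rfl
  have hm' : y' * x' = Matrix.of fun _ _ => (y' * x') () () := by
    ext i j
    rfl
  have p1 : 0 < (y * x) () () := by
    rw [Matrix.mul_apply]
    exact Finset.sum_pos (fun i _ => mul_pos (hy () i) (hx i ())) Finset.univ_nonempty
  have p2 : 0 < (y' * x') () () := by
    rw [Matrix.mul_apply]
    exact Finset.sum_pos (fun i _ => mul_pos (hy' () i) (hx' i ())) Finset.univ_nonempty
  have e1 := decouple N x y ((y * x) () ()) hNx hyN hm
  have e2 := decouple N' x' y' ((y' * x') () ()) hNx' hyN' hm'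
  exact good_scaled ⟨ι, inferInstance, inferInstance, N, x, y⟩
    ⟨κ, inferInstance, inferInstance, N', x', y'⟩ _ _ _ _ p1 e1 e2
    (gc_of_se N N' l R S h1 h2 h3 h4) p1 p2 hx hy hx' hy'

end Pool.Agent.H81SSE
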