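import Pool.Agent.H81SSE.Dom

/-!
# Pointed systems and their bulk families
-/

set_option autoImplicit false

namespace Pool.Agent.H81SSE

open Matrix

/-- A pointed system with an arbitrary finite index type. -/
structure GSys where
  ι : Type
  fin : Fintype ι
  dec : DecidableEq ι
  N : Matrix ι ι ℤ
  x : Matrix ι Unit ℤ
  y : Matrix Unit ι ℤ

attribute [instance] GSys.fin GSys.dec

/-- Elementary equivalence of pointed systems over `ℤ`. -/
def GStep (σ τ : GSys) : Prop :=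
  ∃ (R : Matrix σ.ι τ.ι ℤ) (S : Matrix τ.ι σ.ι ℤ),
    σ.N = R * S ∧ τ.N = S * R ∧ σ.x = R * τ.x ∧ τ.y = σ.y * R

/-- All presentations of two systems become strong shift equivalent. -/
def Good (σ τ : GSys) : Prop :=
  ∀ (a a' : Type) [Fintype a] [Fintype a'] [Nonempty a] [Nonempty a']
    (U : Matrix a σ.ι ℤ) (W : Matrix σ.ι a ℤ) (U' : Matrix a' τ.ι ℤ) (W' : Matrix τ.ι a' ℤ),
    W * U = 1 → W' * U' = 1 → (∀ i j, 1 ≤ (U * σ.x) i j) → (∀ i j, 1 ≤ (U' * τ.x) i j) →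
    ∃ K c₀ : ℤ, ∀ c : ℤ, c₀ ≤ c → ∀ (Al : Matrix Unit a ℤ) (Al' : Matrix Unit a' ℤ),
      (∀ i j, K ≤ Al i j) → (∀ i j, K ≤ Al' i j) → Al * U = c • σ.y → Al' * U' = c • τ.y →
      QQ (U * (σ.x * Al + σ.N * W)) (U' * (τ.x * Al' + τ.N * W'))

lemma GStep.good {σ τ : GSys} (h : GStep σ τ) : Good σ τ := by
  obtain ⟨R, S, h1, h2, h3, h4⟩ := h
  intro a a' _ _ _ _ U W U' W' hWU hWU' hU hU'
  obtain ⟨K, hK⟩ := dominance τ.x (U * R) (S * W) U' (τ.N * W')
    (by rw [Matrix.mul_assoc, ← h3]; exact hU) hU'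
    (by rw [Matrix.mul_assoc S, ← Matrix.mul_assoc W, hWU, Matrix.one_mul, Matrix.mul_assoc,
      hWU', Matrix.mul_one, h2])
  refine ⟨K, 0, fun c _ Al Al' hAl hAl' e e' => ?_⟩
  have q := hK Al Al' hAl hAl' (by
    rw [← Matrix.mul_assoc, e, e', h4, Matrix.smul_mul])
  have e2 : U * R * (τ.x * Al + S * W) = U * (σ.x * Al + σ.N * W) := by
    rw [h1, h3]
    simp only [Matrix.mul_assoc, Matrix.mul_add]
  rwa [e2] at q

lemma Good.symm {σ τ : GSys} (h : Good σ τ) : Good τ σ := by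
  intro a a' _ _ _ _ U W U' W' hWU hWU' hU hU'
  obtain ⟨K, c₀, hK⟩ := h a' a U' W' U W hWU' hWU hU' hU
  exact ⟨K, c₀, fun c hc Al Al' hAl hAl' e e' => (hK c hc Al' Al hAl' hAl e' e).symm⟩

lemma GStep.refl (σ : GSys) : GStep σ σ :=
  ⟨1, σ.N, (Matrix.one_mul _).symm, (Matrix.mul_one _).symm, (Matrix.one_mul _).symm,
    (Matrix.mul_one _).symm⟩

/-- The pairing of the row with the column. -/
def GSys.s (σ : GSys) : ℤ := (σ.y * σ.x) () ()

/-- Existence of a presentation. -/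
lemma realize (σ : GSys) (hs : 0 < σ.s) :
    ∃ (U : Matrix (σ.ι ⊕ (σ.ι ⊕ Unit)) σ.ι ℤ) (W : Matrix σ.ι (σ.ι ⊕ (σ.ι ⊕ Unit)) ℤ),
      W * U = 1 ∧ (∀ i j, 1 ≤ (U * σ.x) i j) ∧
      ∀ K : ℤ, ∃ c₀ : ℤ, ∀ c : ℤ, c₀ ≤ c → ∃ Al : Matrix Unit (σ.ι ⊕ (σ.ι ⊕ Unit)) ℤ,
        (∀ i j, K ≤ Al i j) ∧ Al * U = c • σ.y := by
  obtain ⟨t, ht, ht'⟩ := exists_bound (fun i => |σ.x i ()| + 1)
  set C : Matrix σ.ι Unit ℤ := (ones σ.ι)ᵀ with hC
  have hyx : σ.y * σ.x = Matrix.of fun _ _ => σ.s := by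
    ext i j
    rfl
  have hone : ∀ (s : ℤ) (i : σ.ι) (j : Unit), (C * Matrix.of fun (_ _ : Unit) => s) i j = s := by
    intro s i j
    rw [Matrix.mul_apply]
    simp [hC, ones]
  have hCC : ones σ.ι * C = Matrix.of fun _ _ => (Fintype.card σ.ι : ℤ) := by
    ext i j
    rw [Matrix.mul_apply]
    simp [hC, ones]
  refine ⟨Matrix.fromRows (1 + t • (C * σ.y)) (Matrix.fromRows (t • (C * σ.y) - 1) σ.y),
    Matrix.fromCols 1 (Matrix.fromCols 0 (-(t • C))), ?_, ?_, ?_⟩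
  · rw [Matrix.fromCols_mul_fromRows, Matrix.fromCols_mul_fromRows, Matrix.one_mul,
      Matrix.zero_mul, Matrix.neg_mul, Matrix.smul_mul]
    abel
  · rw [Matrix.fromRows_mul, Matrix.fromRows_mul]
    rintro (i | i | i) j
    · simp only [Matrix.fromRows_apply_inl, Matrix.add_mul, Matrix.one_mul, Matrix.smul_mul,
        Matrix.mul_assoc, Matrix.add_apply, Matrix.smul_apply, hyx, hone, smul_eq_mul]
      have h1 := ht' i
      have h2 := neg_abs_le (σ.x i ())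
      change 1 ≤ σ.x i () + _
      nlinarith
    · simp only [Matrix.fromRows_apply_inr, Matrix.fromRows_apply_inl, Matrix.sub_mul,
        Matrix.one_mul, Matrix.smul_mul, Matrix.mul_assoc, Matrix.sub_apply, Matrix.smul_apply,
        hyx, hone, smul_eq_mul]
      have h1 := ht' i
      have h2 := le_abs_self (σ.x i ())
      change 1 ≤ _ - σ.x i ()
      nlinarith
    · simp only [Matrix.fromRows_apply_inr, hyx, Matrix.of_apply]
      linarith
  · intro K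
    refine ⟨K + 2 * (Fintype.card σ.ι : ℤ) * t * K, fun c hc =>
      ⟨Matrix.fromCols (K • ones σ.ι) (Matrix.fromCols (K • ones σ.ι)
        (Matrix.of fun _ _ => c - 2 * (Fintype.card σ.ι : ℤ) * t * K)), ?_, ?_⟩⟩
    · rintro i (j | j | j)
      · simp [ones]
      · simp [ones]
      · simp only [Matrix.fromCols_apply_inr, Matrix.of_apply]
        linarith
    · rw [Matrix.fromCols_mul_fromRows, Matrix.fromCols_mul_fromRows]
      simp only [Matrix.mul_add, Matrix.mul_sub, Matrix.mul_one, Matrix.mul_smul, Matrix.smul_mul,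
        ← Matrix.mul_assoc, hCC]
      ext i j
      simp only [Matrix.add_apply, Matrix.sub_apply, Matrix.smul_apply, Matrix.mul_apply,
        Matrix.of_apply, Finset.univ_unique, Finset.sum_singleton, smul_eq_mul,
        PUnit.default_eq_unit]
      cases i
      ring

lemma Good.trans {σ τ ρ : GSys} (hs : 0 < τ.s) (h : Good σ τ) (h' : Good τ ρ) : Good σ ρ := by
  intro a a' _ _ _ _ U W U' W' hWU hWU' hU hU'
  obtain ⟨U₁, W₁, h1, h2, h3⟩ := realize τ hs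
  obtain ⟨K, c₀, hK⟩ := h a _ U W U₁ W₁ hWU h1 hU h2
  obtain ⟨K', c₀', hK'⟩ := h' _ a' U₁ W₁ U' W' h1 hWU' h2 hU'
  obtain ⟨c₁, hc₁⟩ := h3 (max K K')
  refine ⟨max K K', max c₁ (max c₀ c₀'), fun c hc Al Al' hAl hAl' e e' => ?_⟩
  obtain ⟨Al₁, k1, k2⟩ := hc₁ c (le_trans (le_max_left _ _) hc)
  have q1 := hK c (le_trans (le_trans (le_max_left _ _) (le_max_right _ _)) hc) Al Al₁
    (fun i j => le_trans (le_max_left _ _) (hAl i j))
    (fun i j => le_trans (le_max_left _ _) (k1 i j)) e k2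
  have q2 := hK' c (le_trans (le_trans (le_max_right _ _) (le_max_right _ _)) hc) Al₁ Al'
    (fun i j => le_trans (le_max_right _ _) (k1 i j))
    (fun i j => le_trans (le_max_right _ _) (hAl' i j)) k2 e'
  exact q1.trans q2

lemma GStep.s_eq {σ τ : GSys} (h : GStep σ τ) : σ.s = τ.s := by
  obtain ⟨R, S, h1, h2, h3, h4⟩ := h
  rw [GSys.s, GSys.s, h3, h4, Matrix.mul_assoc]

theorem eqv_good {σ τ : GSys} (h : Relation.EqvGen GStep σ τ) :
    σ.s = τ.s ∧ (0 < σ.s → Good σ τ) := by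
  induction h with
  | rel σ τ h => exact ⟨h.s_eq, fun _ => h.good⟩
  | refl σ => exact ⟨rfl, fun _ => (GStep.refl σ).good⟩
  | symm σ τ _ ih => exact ⟨ih.1.symm, fun hs => (ih.2 (by rw [ih.1]; exact hs)).symm⟩
  | trans σ τ ρ _ _ ih1 ih2 =>
    exact ⟨ih1.1.trans ih2.1, fun hs =>
      (ih1.2 hs).trans (by rw [← ih1.1]; exact hs) (ih2.2 (by rw [← ih1.1]; exact hs))⟩

/-- The main theorem on bulk families. -/
theorem bulk {σ τ : GSys} (h : Relation.EqvGen GStep σ τ) [Nonempty σ.ι] [Nonempty τ.ι]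
    (hx : ∀ i j, 0 < σ.x i j) (hy : ∀ i j, 0 < σ.y i j)
    (hx' : ∀ i j, 0 < τ.x i j) (hy' : ∀ i j, 0 < τ.y i j) :
    ∃ c₀ : ℤ, ∀ c : ℤ, c₀ ≤ c → QQ (σ.N + c • (σ.x * σ.y)) (τ.N + c • (τ.x * τ.y)) := by
  have hs : 0 < σ.s := by
    rw [GSys.s, Matrix.mul_apply]
    exact Finset.sum_pos (fun i _ => mul_pos (hy () i) (hx i ())) Finset.univ_nonempty
  obtain ⟨K, c₀, hK⟩ := (eqv_good h).2 hs σ.ι τ.ι 1 1 1 1 (Matrix.mul_one _) (Matrix.mul_one _)
    (fun i j => by rw [Matrix.one_mul]; exact hx i j)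
    (fun i j => by rw [Matrix.one_mul]; exact hx' i j)
  refine ⟨max c₀ (max K 0), fun c hc => ?_⟩
  have hc1 : c₀ ≤ c := le_trans (le_max_left _ _) hc
  have hc2 : K ≤ c := le_trans (le_trans (le_max_left _ _) (le_max_right _ _)) hc
  have hc3 : 0 ≤ c := le_trans (le_trans (le_max_right _ _) (le_max_right _ _)) hc
  have q := hK c hc1 (c • σ.y) (c • τ.y)
    (fun i j => by
      rw [Matrix.smul_apply, smul_eq_mul]
      nlinarith [hy i j])
    (fun i j => by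
      rw [Matrix.smul_apply, smul_eq_mul]
      nlinarith [hy' i j])
    (Matrix.mul_one _) (Matrix.mul_one _)
  rw [Matrix.one_mul, Matrix.one_mul, Matrix.mul_one, Matrix.mul_one, Matrix.mul_smul,
    Matrix.mul_smul, add_comm, add_comm (c • (τ.x * τ.y))] at q
  exact q

end Pool.Agent.H81SSE
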