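import Pool.Agent.H81SSE.Converse

/-!
# Orthogonal rank-one bulk with a large row

For a fixed integer matrix `N`, all matrices `x b + N` with `N x = 0`, `b N = 0`, `x` positive,
all entries of `b` large and a given value `M` of `b x` are strong shift equivalent.
-/

set_option autoImplicit false
set_option linter.unusedSectionVars false

namespace Pool.Agent.H81SSE

open Matrix

lemma nn_Gm {a n : Type} [Fintype n] [DecidableEq n] (X : Matrix n Unit ℤ)
    (r : ℤ) (U : Matrix a n ℤ) (h0 : ∀ i j, 0 ≤ (U * X) i j)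
    (h : ∀ i j, |U i j| ≤ r * (U * X) i ()) : NN (U * Gm X r) := by
  have e : U * Gm X r = Matrix.fromCols (U * X)
      (Matrix.fromCols (r • (U * X * ones n) + U) (r • (U * X * ones n) - U)) := by
    rw [Gm, Matrix.mul_fromCols, Matrix.mul_fromCols]
    simp only [Matrix.mul_sub, Matrix.mul_add, Matrix.mul_one, Matrix.mul_smul, Matrix.mul_assoc]
  rw [e]
  have hone : ∀ i j, (U * X * ones n) i j = (U * X) i () := by
    intro i j
    rw [Matrix.mul_apply]
    simp [ones]
  rintro i (j | j | j)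
  · exact h0 i j
  · simp only [Matrix.fromCols_apply_inr, Matrix.fromCols_apply_inl, Matrix.add_apply,
      Matrix.smul_apply, smul_eq_mul]
    rw [hone]
    have h2 := h i j
    have h3 := neg_abs_le (U i j)
    linarith
  · simp only [Matrix.fromCols_apply_inr, Matrix.sub_apply,
      Matrix.smul_apply, smul_eq_mul]
    rw [hone]
    have h2 := h i j
    have h3 := le_abs_self (U i j)
    linarith

/-- The simple dominance lemma: both small parts are nonnegative. -/
lemma simple_dom {a a' n : Type} [Fintype a] [Fintype a'] [Fintype n] [DecidableEq n]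
    (X : Matrix n Unit ℤ) (r : ℤ) (hr : 0 ≤ r) (U : Matrix a n ℤ) (V : Matrix n a ℤ)
    (U' : Matrix a' n ℤ) (V' : Matrix n a' ℤ) (Al : Matrix Unit a ℤ) (Al' : Matrix Unit a' ℤ)
    (hV : NN V) (hV' : NN V') (hB : NN (U * Gm X r)) (hB' : NN (U' * Gm X r))
    (h0 : NN (Al - r • (ones n * V))) (h0' : NN (Al' - r • (ones n * V')))
    (hVU : V * U = V' * U') (hAU : Al * U = Al' * U') :
    QQ (U * (X * Al + V)) (U' * (X * Al' + V')) := by
  have q1 := half X r hr U V 0 Al 0 hV NN.zero hB (by rw [Matrix.zero_mul]; exact NN.zero)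
    (by rwa [add_zero]) (by
      rw [add_zero, Matrix.zero_mul, Matrix.mul_zero, smul_zero, sub_zero]
      exact h0.mul hB)
  have q2 := half X r hr U' V' 0 Al' 0 hV' NN.zero hB' (by rw [Matrix.zero_mul]; exact NN.zero)
    (by rwa [add_zero]) (by
      rw [add_zero, Matrix.zero_mul, Matrix.mul_zero, smul_zero, sub_zero]
      exact h0'.mul hB')
  simp only [add_zero, Matrix.zero_mul, Matrix.mul_zero, smul_zero, sub_zero] at q1 q2
  have e1 : (Al - r • (ones n * V)) * (U * Gm X r) = (Al' - r • (ones n * V')) * (U' * Gm X r) := by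
    have e2 : (Al - r • (ones n * V)) * U = (Al' - r • (ones n * V')) * U' := by
      rw [Matrix.sub_mul, Matrix.sub_mul, Matrix.smul_mul, Matrix.smul_mul, Matrix.mul_assoc,
        Matrix.mul_assoc, hVU, hAU]
    rw [← Matrix.mul_assoc, ← Matrix.mul_assoc, e2]
  have e3 : V * (U * Gm X r) = V' * (U' * Gm X r) := by
    rw [← Matrix.mul_assoc, ← Matrix.mul_assoc, hVU]
  rw [e1, e3] at q1
  exact q1.trans q2.symm

section typeI

variable {ι : Type} [Fintype ι] [DecidableEq ι]

/-- The standard row generators. -/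
def U2 (ι : Type) [DecidableEq ι] : Matrix (Unit ⊕ (ι ⊕ ι)) (Unit ⊕ ι) ℤ :=
  Matrix.fromRows (Matrix.fromCols (1 : Matrix Unit Unit ℤ) 0)
    (Matrix.fromRows (Matrix.fromCols ((ones ι)ᵀ) 1) (Matrix.fromCols ((ones ι)ᵀ) (-1)))

/-- A left inverse. -/
def W2 (ι : Type) [DecidableEq ι] : Matrix (Unit ⊕ ι) (Unit ⊕ (ι ⊕ ι)) ℤ :=
  Matrix.fromCols (Matrix.fromRows (1 : Matrix Unit Unit ℤ) (-(ones ι)ᵀ))
    (Matrix.fromCols (Matrix.fromRows 0 1) 0)

/-- The bulk row. -/
def al2 (ι : Type) [Fintype ι] (K M : ℤ) : Matrix Unit (Unit ⊕ (ι ⊕ ι)) ℤ :=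
  Matrix.fromCols (Matrix.of fun _ _ => M - 2 * (Fintype.card ι : ℤ) * K)
    (Matrix.fromCols (K • ones ι) (K • ones ι))

lemma W2_mul_U2 : W2 ι * U2 ι = 1 := by
  rw [W2, U2, Matrix.fromCols_mul_fromRows, Matrix.fromCols_mul_fromRows, Matrix.zero_mul,
    add_zero, Matrix.fromRows_mul_fromCols, Matrix.fromRows_mul_fromCols]
  simp only [Matrix.mul_one, Matrix.mul_zero, Matrix.one_mul, Matrix.zero_mul,
    Matrix.fromBlocks_add, add_zero, zero_add, neg_add_cancel]
  exact Matrix.fromBlocks_one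

lemma ones_mul_onesT : ones ι * (ones ι)ᵀ = Matrix.of fun _ _ => (Fintype.card ι : ℤ) := by
  ext i j
  rw [Matrix.mul_apply]
  simp [ones]

lemma al2_mul_U2 (K M : ℤ) : al2 ι K M * U2 ι =
    Matrix.fromCols (Matrix.of fun _ _ => M) 0 := by
  rw [al2, U2, Matrix.fromCols_mul_fromRows, Matrix.fromCols_mul_fromRows, Matrix.mul_fromCols,
    Matrix.mul_fromCols, Matrix.mul_fromCols]
  simp only [Matrix.smul_mul, Matrix.mul_one, Matrix.mul_zero, Matrix.mul_neg, ones_mul_onesT]
  ext i j
  rcases j with j | j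
  · simp only [Matrix.add_apply, Matrix.fromCols_apply_inl, Matrix.smul_apply, Matrix.of_apply,
      smul_eq_mul]
    ring
  · simp only [Matrix.add_apply, Matrix.fromCols_apply_inr, Matrix.smul_apply, Matrix.neg_apply,
      Matrix.zero_apply, smul_eq_mul]
    ring

/-- The block matrix with blocks `1` and `N`. -/
def D1 (N : Matrix ι ι ℤ) : Matrix (Unit ⊕ ι) (Unit ⊕ ι) ℤ :=
  Matrix.fromBlocks (1 : Matrix Unit Unit ℤ) 0 0 N

/-- The block matrix with blocks `0` and `N`. -/
def D0 (N : Matrix ι ι ℤ) : Matrix (Unit ⊕ ι) (Unit ⊕ ι) ℤ :=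
  Matrix.fromBlocks (0 : Matrix Unit Unit ℤ) 0 0 N

/-- The canonical matrix. -/
def RM (N : Matrix ι ι ℤ) (K M : ℤ) : Matrix (Unit ⊕ (ι ⊕ ι)) (Unit ⊕ (ι ⊕ ι)) ℤ :=
  U2 ι * (Matrix.fromRows (1 : Matrix Unit Unit ℤ) 0 * al2 ι K M +
    D0 N * W2 ι)

lemma onesT_apply (i : ι) (j : Unit) : (ones ι)ᵀ i j = 1 := rfl

/-- From a matrix with a large row to the canonical matrix. -/
lemma typeI_canonical (N : Matrix ι ι ℤ) (r : ℤ) (hr1 : 1 ≤ r) (hr : ∀ i j, |N i j| ≤ r)
    (K : ℤ) (hK : r ≤ K) (x : Matrix ι Unit ℤ) (b : Matrix Unit ι ℤ) (hNx : N * x = 0)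
    (hbN : b * N = 0) (hx : ∀ i j, 1 ≤ x i j)
    (hb : ∀ i j, r + 2 * (Fintype.card ι : ℤ) * K ≤ b i j) [Nonempty ι] :
    QQ (x * b + N) (RM N K ((b * x) () ())) := by
  have hK0 : 0 ≤ K := by linarith
  have hr0 : 0 ≤ r := by linarith
  set M := (b * x) () () with hM
  have hcard : (0 : ℤ) ≤ (Fintype.card ι : ℤ) := Int.natCast_nonneg _
  have hcK : 0 ≤ 2 * (Fintype.card ι : ℤ) * K := by positivity
  -- the two presentations
  have hX : ∀ (i : ι) (j : Unit), ((Matrix.fromCols x N) * Matrix.fromRows (1 : Matrix Unit Unit ℤ)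
      (0 : Matrix ι Unit ℤ)) i j = x i () := by
    intro i j
    rw [Matrix.fromCols_mul_fromRows, Matrix.mul_one, Matrix.mul_zero, add_zero]
  have hX2 : ∀ (i : Unit ⊕ (ι ⊕ ι)) (j : Unit),
      ((U2 ι * D1 N) * Matrix.fromRows (1 : Matrix Unit Unit ℤ)
      (0 : Matrix ι Unit ℤ)) i j = 1 := by
    intro i j
    rw [Matrix.mul_assoc, D1, Matrix.fromBlocks_mul_fromRows]
    simp only [Matrix.mul_one, Matrix.mul_zero, add_zero]
    rw [U2, Matrix.fromRows_mul, Matrix.fromRows_mul, Matrix.fromCols_mul_fromRows,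
      Matrix.fromCols_mul_fromRows, Matrix.fromCols_mul_fromRows]
    simp only [Matrix.mul_one, Matrix.mul_zero, add_zero]
    rcases i with i | i | i
    · simp
    · simp [ones]
    · simp [ones]
  have hU2N : U2 ι * D1 N =
      Matrix.fromRows (Matrix.fromCols (1 : Matrix Unit Unit ℤ) 0)
    (Matrix.fromRows (Matrix.fromCols ((ones ι)ᵀ) N) (Matrix.fromCols ((ones ι)ᵀ) (-N))) := by
    rw [U2, D1, Matrix.fromRows_mul, Matrix.fromRows_mul, Matrix.fromCols_mul_fromBlocks,
      Matrix.fromCols_mul_fromBlocks, Matrix.fromCols_mul_fromBlocks]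
    simp only [Matrix.mul_one, Matrix.mul_zero, add_zero, zero_add, Matrix.one_mul,
      Matrix.zero_mul, Matrix.neg_mul]
  have hV2 : Matrix.fromBlocks (0 : Matrix Unit Unit ℤ) (0 : Matrix Unit ι ℤ) x 1 * W2 ι =
      Matrix.fromRows (0 : Matrix Unit (Unit ⊕ (ι ⊕ ι)) ℤ)
        (Matrix.fromCols (x - (ones ι)ᵀ) (Matrix.fromCols 1 0)) := by
    rw [W2, Matrix.mul_fromCols, Matrix.mul_fromCols, Matrix.fromBlocks_mul_fromRows,
      Matrix.fromBlocks_mul_fromRows]
    simp only [Matrix.mul_one, Matrix.mul_zero, add_zero, zero_add, Matrix.one_mul,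
      Matrix.zero_mul]
    ext i j
    rcases i with i | i
    · rcases j with j | j | j <;> simp
    · rcases j with j | j | j
      · simp [sub_eq_add_neg]
      · simp
      · simp
  have q := simple_dom (Matrix.fromRows (1 : Matrix Unit Unit ℤ) (0 : Matrix ι Unit ℤ)) r hr0
    (Matrix.fromCols x N) (Matrix.fromRows (0 : Matrix Unit ι ℤ) (1 : Matrix ι ι ℤ))
    (U2 ι * D1 N)
    (Matrix.fromBlocks (0 : Matrix Unit Unit ℤ) (0 : Matrix Unit ι ℤ) x 1 * W2 ι)
    b (al2 ι K M) ?_ ?_ ?_ ?_ ?_ ?_ ?_ ?_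
  · have e1 : Matrix.fromCols x N * (Matrix.fromRows (1 : Matrix Unit Unit ℤ)
        (0 : Matrix ι Unit ℤ) * b + Matrix.fromRows (0 : Matrix Unit ι ℤ) (1 : Matrix ι ι ℤ)) =
        x * b + N := by
      rw [Matrix.mul_add, ← Matrix.mul_assoc, Matrix.fromCols_mul_fromRows,
        Matrix.fromCols_mul_fromRows]
      simp only [Matrix.mul_one, Matrix.mul_zero, add_zero, zero_add]
    have e2 : U2 ι * D1 N * (Matrix.fromRows (1 : Matrix Unit Unit ℤ)
        (0 : Matrix ι Unit ℤ) * al2 ι K M +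
        Matrix.fromBlocks (0 : Matrix Unit Unit ℤ) (0 : Matrix Unit ι ℤ) x 1 * W2 ι) =
        RM N K M := by
      rw [RM, Matrix.mul_assoc, Matrix.mul_add, ← Matrix.mul_assoc (D1 N),
        ← Matrix.mul_assoc (D1 N), D1, D0, Matrix.fromBlocks_mul_fromRows,
        Matrix.fromBlocks_multiply]
      simp only [Matrix.mul_one, Matrix.mul_zero, add_zero, zero_add,
        Matrix.zero_mul, hNx]
    rw [e1, e2] at q
    exact q
  · exact NN.zero.fromRows NN.one
  · rw [hV2]
    refine NN.zero.fromRows (NN.fromCols ?_ (NN.one.fromCols NN.zero))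
    intro i j
    rw [Matrix.sub_apply, onesT_apply]
    linarith [hx i j]
  · refine nn_Gm _ r _ (fun i j => by rw [hX]; linarith [hx i ()]) (fun i j => ?_)
    rw [hX]
    have h1 := hx i ()
    rcases j with j | j
    · rw [Matrix.fromCols_apply_inl, abs_of_nonneg (by cases j; linarith)]
      cases j
      nlinarith
    · rw [Matrix.fromCols_apply_inr]
      have h2 := hr i j
      nlinarith [abs_nonneg (N i j)]
  · refine nn_Gm _ r _ (fun i j => by rw [hX2]; norm_num) (fun i j => ?_)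
    rw [hX2, hU2N, mul_one]
    rcases i with i | i | i <;> rcases j with j | j
    · simp only [Matrix.fromRows_apply_inl, Matrix.fromCols_apply_inl]
      cases i; cases j; simpa using hr1
    · simp only [Matrix.fromRows_apply_inl, Matrix.fromCols_apply_inr, Matrix.zero_apply, abs_zero]
      exact hr0
    · simp only [Matrix.fromRows_apply_inr, Matrix.fromRows_apply_inl, Matrix.fromCols_apply_inl,
        onesT_apply, abs_one]
      exact hr1
    · simp only [Matrix.fromRows_apply_inr, Matrix.fromRows_apply_inl, Matrix.fromCols_apply_inr]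
      exact hr i j
    · simp only [Matrix.fromRows_apply_inr, Matrix.fromCols_apply_inl,
        onesT_apply, abs_one]
      exact hr1
    · simp only [Matrix.fromRows_apply_inr, Matrix.fromCols_apply_inr,
        Matrix.neg_apply, abs_neg]
      exact hr i j
  · intro i j
    have h1 : (ones (Unit ⊕ ι) * Matrix.fromRows (0 : Matrix Unit ι ℤ) (1 : Matrix ι ι ℤ)) i j
        = 1 := by
      rw [Matrix.mul_apply, Fintype.sum_sum_type]
      simp [ones, Matrix.one_apply]
    rw [Matrix.sub_apply, Matrix.smul_apply, h1, smul_eq_mul, mul_one]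
    linarith [hb i j]
  · rw [hV2]
    intro i j
    have h1 : ∀ Y : Matrix ι (Unit ⊕ (ι ⊕ ι)) ℤ,
        (ones (Unit ⊕ ι) * Matrix.fromRows (0 : Matrix Unit (Unit ⊕ (ι ⊕ ι)) ℤ) Y) i j
        = ∑ k, Y k j := by
      intro Y
      rw [Matrix.mul_apply, Fintype.sum_sum_type]
      simp [ones]
    rw [Matrix.sub_apply, Matrix.smul_apply, h1, smul_eq_mul, al2]
    rcases j with j | j | j
    · simp only [Matrix.fromCols_apply_inl, Matrix.of_apply, Matrix.sub_apply, onesT_apply]
      have h2 : M = ∑ k, b () k * x k () := by rw [hM, Matrix.mul_apply]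
      have h3 : ∑ k, (r + 2 * (Fintype.card ι : ℤ) * K) * x k () ≤ M := by
        rw [h2]
        exact Finset.sum_le_sum fun k _ => mul_le_mul_of_nonneg_right (hb () k)
          (by linarith [hx k ()])
      rw [← Finset.mul_sum] at h3
      have h4 : (1 : ℤ) ≤ ∑ k, x k () := by
        obtain ⟨k0⟩ := (inferInstance : Nonempty ι)
        exact (hx k0 ()).trans (Finset.single_le_sum (f := fun k => x k ())
          (fun k _ => by linarith [hx k ()]) (Finset.mem_univ k0))
      have h5 : ∑ k, (x k j - 1) ≤ ∑ k, x k () := by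
        cases j
        exact Finset.sum_le_sum fun k _ => by linarith
      nlinarith
    · simp only [Matrix.fromCols_apply_inr, Matrix.fromCols_apply_inl, Matrix.smul_apply, ones,
        Matrix.of_apply, smul_eq_mul, mul_one]
      have h2 : ∑ k, (1 : Matrix ι ι ℤ) k j = 1 := by
        simp [Matrix.one_apply]
      rw [h2]
      linarith
    · simp only [Matrix.fromCols_apply_inr, Matrix.smul_apply, ones,
        Matrix.of_apply, smul_eq_mul, mul_one, Matrix.zero_apply, Finset.sum_const_zero, mul_zero,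
        sub_zero]
      exact hK0
  · have h1 : Matrix.fromBlocks (0 : Matrix Unit Unit ℤ) (0 : Matrix Unit ι ℤ) x 1 * W2 ι *
        (U2 ι * D1 N) = Matrix.fromBlocks (0 : Matrix Unit Unit ℤ) (0 : Matrix Unit ι ℤ) x 1 *
        D1 N := by
      rw [Matrix.mul_assoc, ← Matrix.mul_assoc (W2 ι), W2_mul_U2, Matrix.one_mul]
    rw [h1, Matrix.fromRows_mul_fromCols, D1, Matrix.fromBlocks_multiply]
    simp only [Matrix.mul_one, Matrix.mul_zero, add_zero, zero_add, Matrix.one_mul,
      Matrix.zero_mul]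
  · rw [← Matrix.mul_assoc, al2_mul_U2, Matrix.mul_fromCols, hbN, D1,
      Matrix.fromCols_mul_fromBlocks]
    simp only [Matrix.mul_one, Matrix.mul_zero, add_zero, Matrix.zero_mul]
    rfl

end typeI

end Pool.Agent.H81SSE
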